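import Pool.Agent.Helper66.MB.Basic

/-!
# Block MB-RHO (MP_a499ba_nt)

Elementary properties of `rho x = (1 + log (1 + log x))^{-1/2}`.

Proofs. `rho_div`: with `z = x / m ≥ 1` we have `x < m (z+1) ≤ 2 m z`, so `1 + log x ≤ (1 + log z)(1 + log (2m))` and
`1 + log (1 + log x) ≤ (1 + log (1 + log z)) (1 + log (1 + log (2m)))`, and `√(1 + log(1 + log(2m))) ≤ 1 + log(2m)`.
`rho_sqrt`: `Y < (Nat.sqrt Y + 1)² ≤ 4 (Nat.sqrt Y)²`.
`rho_el`: `rho (x^(1/5)) * (el x)^2 → 0` as `x → ∞`, since `el x ^ 2 = (log log log x)^(5/2)` and `rho (x^(1/5)) ≤ (log log x)^{-1/2} * const`.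
-/

set_option autoImplicit false

namespace Pool.Agent.Helper66.MB

open Finset Pool.Agent.Helper92.GB Filter

/-- `1 + log (1 + log x)` -/
noncomputable def gq (x : ℝ) : ℝ := 1 + Real.log (1 + Real.log x)

lemma rho_eq (x : ℝ) : rho x = (Real.sqrt (gq x))⁻¹ := rfl

lemma gq_ge {x : ℝ} (hx : 1 ≤ x) : 1 ≤ gq x := by
  unfold gq
  have h1 : 0 ≤ Real.log x := Real.log_nonneg hx
  have h2 : 0 ≤ Real.log (1 + Real.log x) := Real.log_nonneg (by linarith)
  linarith

lemma gq_mono {x y : ℝ} (hx : 1 ≤ x) (hxy : x ≤ y) : gq x ≤ gq y := by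
  unfold gq
  have h1 : 0 ≤ Real.log x := Real.log_nonneg hx
  have h2 : Real.log x ≤ Real.log y := Real.log_le_log (by linarith) hxy
  have h3 : Real.log (1 + Real.log x) ≤ Real.log (1 + Real.log y) :=
    Real.log_le_log (by linarith) (by linarith)
  linarith

lemma gq_mul {x a b : ℝ} (hx : 1 ≤ x) (ha : 1 ≤ a) (hb : 1 ≤ b) (h : x ≤ a * b) :
    gq x ≤ gq a * gq b := by
  have h1 : 0 ≤ Real.log x := Real.log_nonneg hx
  have h2 : 0 ≤ Real.log a := Real.log_nonneg ha
  have h3 : 0 ≤ Real.log b := Real.log_nonneg hb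
  have h4 : Real.log x ≤ Real.log a + Real.log b := by
    rw [← Real.log_mul (by linarith) (by linarith)]
    exact Real.log_le_log (by linarith) h
  have h5 : 1 + Real.log x ≤ (1 + Real.log a) * (1 + Real.log b) := by nlinarith
  have h6 : Real.log (1 + Real.log x) ≤ Real.log (1 + Real.log a) + Real.log (1 + Real.log b) := by
    rw [← Real.log_mul (by linarith) (by linarith)]
    exact Real.log_le_log (by linarith) h5
  have h7 : 0 ≤ Real.log (1 + Real.log a) := Real.log_nonneg (by linarith)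
  have h8 : 0 ≤ Real.log (1 + Real.log b) := Real.log_nonneg (by linarith)
  unfold gq
  nlinarith

theorem rho_pos {x : ℝ} (hx : 1 ≤ x) : 0 < rho x := by
  rw [rho_eq]
  have := gq_ge hx
  positivity

theorem rho_le_one {x : ℝ} (hx : 1 ≤ x) : rho x ≤ 1 := by
  rw [rho_eq]
  exact inv_le_one_of_one_le₀ (Real.one_le_sqrt.2 (gq_ge hx))

theorem rho_anti {x y : ℝ} (hx : 1 ≤ x) (hxy : x ≤ y) : rho y ≤ rho x := by
  rw [rho_eq, rho_eq]
  have := gq_ge hx
  exact inv_anti₀ (by positivity) (Real.sqrt_le_sqrt (gq_mono hx hxy))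

theorem rho_tendsto : Tendsto rho atTop (nhds 0) := by
  have h1 : Tendsto (fun x : ℝ => gq x) atTop atTop := by
    unfold gq
    exact tendsto_atTop_add_const_left _ _ (Real.tendsto_log_atTop.comp
      (tendsto_atTop_add_const_left _ _ Real.tendsto_log_atTop))
  exact tendsto_inv_atTop_zero.comp (Real.tendsto_sqrt_atTop.comp h1)

theorem rho_div' {x m : ℕ} (hm : 1 ≤ m) (h : 1 ≤ x / m) :
    rho ((x / m : ℕ) : ℝ) ≤ rho x * Real.sqrt (1 + Real.log (1 + Real.log (2 * m))) := by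
  have hz : (1 : ℝ) ≤ ((x / m : ℕ) : ℝ) := by exact_mod_cast h
  have hm' : (1 : ℝ) ≤ m := by exact_mod_cast hm
  have hxm : m ≤ x := by
    by_contra hcon
    push Not at hcon
    rw [Nat.div_eq_of_lt hcon] at h
    omega
  have hx : (1 : ℝ) ≤ x := by exact_mod_cast hm.trans hxm
  have hlt : x < m * (x / m + 1) := Nat.lt_mul_div_succ x hm
  have hle : (x : ℝ) ≤ ((x / m : ℕ) : ℝ) * (2 * m) := by
    have h1 : x ≤ (x / m) * (2 * m) := by nlinarith
    exact_mod_cast h1
  have hg := gq_mul hx hz (by linarith) hle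
  have hgx := gq_ge hx
  have hgz := gq_ge hz
  have hgm : 1 ≤ gq (2 * m) := gq_ge (by linarith)
  rw [rho_eq, rho_eq]
  change (Real.sqrt (gq ((x / m : ℕ) : ℝ)))⁻¹ ≤ (Real.sqrt (gq (x : ℝ)))⁻¹ * Real.sqrt (gq (2 * m))
  have hsq : Real.sqrt (gq (x : ℝ)) ≤ Real.sqrt (gq ((x / m : ℕ) : ℝ)) * Real.sqrt (gq (2 * m)) := by
    rw [← Real.sqrt_mul (by linarith)]
    exact Real.sqrt_le_sqrt hg
  have h1 : 0 < Real.sqrt (gq (x : ℝ)) := by positivity
  have h2 : 0 < Real.sqrt (gq ((x / m : ℕ) : ℝ)) := by positivity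
  rw [inv_mul_eq_div, inv_eq_one_div, div_le_div_iff₀ h2 h1]
  linarith

theorem rho_div {x m : ℕ} (hm : 1 ≤ m) (h : 1 ≤ x / m) :
    rho ((x / m : ℕ) : ℝ) ≤ rho x * (1 + Real.log (2 * m)) := by
  have hm' : (1 : ℝ) ≤ m := by exact_mod_cast hm
  have hxm : m ≤ x := by
    by_contra hcon
    push Not at hcon
    rw [Nat.div_eq_of_lt hcon] at h
    omega
  have hx : (1 : ℝ) ≤ x := by exact_mod_cast hm.trans hxm
  refine (rho_div' hm h).trans (mul_le_mul_of_nonneg_left ?_ (rho_pos hx).le)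
  have hu : 0 ≤ Real.log (2 * m) := Real.log_nonneg (by linarith)
  rw [Real.sqrt_le_left (by linarith)]
  have h1 : Real.log (1 + Real.log (2 * m)) ≤ Real.log (2 * m) := by
    have := Real.log_le_sub_one_of_pos (show 0 < 1 + Real.log (2 * m) by linarith)
    linarith
  nlinarith

theorem rho_sqrt : ∃ C : ℝ, 0 < C ∧ ∀ Y : ℕ, 1 ≤ Y → rho ((Nat.sqrt Y : ℕ) : ℝ) ≤ C * rho Y := by
  refine ⟨2, by norm_num, fun Y hY => ?_⟩
  have hs : 1 ≤ Nat.sqrt Y := Nat.le_sqrt.2 (by simpa using hY)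
  have hs' : (1 : ℝ) ≤ ((Nat.sqrt Y : ℕ) : ℝ) := by exact_mod_cast hs
  have hY' : (1 : ℝ) ≤ Y := by exact_mod_cast hY
  have hlt : Y < (Nat.sqrt Y + 1) * (Nat.sqrt Y + 1) := Nat.lt_succ_sqrt Y
  have hle : (Y : ℝ) ≤ 4 * ((Nat.sqrt Y : ℕ) : ℝ) ^ 2 := by
    have h1 : Y ≤ 4 * (Nat.sqrt Y) ^ 2 := by nlinarith
    exact_mod_cast h1
  set s : ℝ := ((Nat.sqrt Y : ℕ) : ℝ) with hsdef
  have hls : 0 ≤ Real.log s := Real.log_nonneg hs'
  have hlog4 : Real.log 4 ≤ 2 := by
    have : (4 : ℝ) = 2 ^ 2 := by norm_num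
    rw [this, Real.log_pow]
    have := Real.log_two_lt_d9
    push_cast
    linarith
  have h1 : Real.log Y ≤ 2 + 2 * Real.log s := by
    calc Real.log Y ≤ Real.log (4 * s ^ 2) := Real.log_le_log (by linarith) hle
      _ = Real.log 4 + 2 * Real.log s := by
          rw [Real.log_mul (by norm_num) (by positivity), Real.log_pow]; push_cast; ring
      _ ≤ 2 + 2 * Real.log s := by linarith
  have hlY : 0 ≤ Real.log Y := Real.log_nonneg hY'
  have h2 : Real.log (1 + Real.log Y) ≤ Real.log 3 + Real.log (1 + Real.log s) := by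
    rw [← Real.log_mul (by norm_num) (by linarith)]
    exact Real.log_le_log (by linarith) (by linarith)
  have hlog3 : Real.log 3 ≤ 2 := by
    have := Real.log_le_sub_one_of_pos (show (0:ℝ) < 3 by norm_num)
    linarith
  have hls2 : 0 ≤ Real.log (1 + Real.log s) := Real.log_nonneg (by linarith)
  have hg : gq Y ≤ 4 * gq s := by
    unfold gq; linarith
  have hgs := gq_ge hs'
  have hgY := gq_ge hY'
  rw [rho_eq, rho_eq]
  have hsq : Real.sqrt (gq Y) ≤ 2 * Real.sqrt (gq s) := by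
    calc Real.sqrt (gq Y) ≤ Real.sqrt (4 * gq s) := Real.sqrt_le_sqrt hg
      _ = 2 * Real.sqrt (gq s) := by
          rw [Real.sqrt_mul (by norm_num)]
          congr 1
          rw [show (4 : ℝ) = 2 ^ 2 by norm_num]
          exact Real.sqrt_sq (by norm_num)
  have h3 : 0 < Real.sqrt (gq (Y : ℝ)) := by positivity
  have h4 : 0 < Real.sqrt (gq s) := by positivity
  rw [inv_eq_one_div, ← div_eq_mul_inv, div_le_div_iff₀ h4 h3]
  linarith

lemma tendsto_loglog : Tendsto (fun x : ℝ => Real.log (Real.log x)) atTop atTop :=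
  Real.tendsto_log_atTop.comp Real.tendsto_log_atTop

theorem rho_el : Tendsto (fun x : ℝ => rho (x ^ ((1 : ℝ) / 5)) * el x ^ 2) atTop (nhds 0) := by
  have hlim : Tendsto (fun v : ℝ => Real.sqrt 2 * (Real.log v ^ ((5 : ℝ) / 2) / v ^ ((1 : ℝ) / 2)))
      atTop (nhds 0) := by
    have h := (isLittleO_log_rpow_rpow_atTop ((5 : ℝ) / 2) (show (0 : ℝ) < 1 / 2 by norm_num)).tendsto_div_nhds_zero
    simpa using h.const_mul (Real.sqrt 2)
  have hlim2 := hlim.comp tendsto_loglog
  refine squeeze_zero' ?_ ?_ hlim2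
  · filter_upwards [eventually_ge_atTop 1] with x hx
    have h1 : (1 : ℝ) ≤ x ^ ((1 : ℝ) / 5) := Real.one_le_rpow hx (by norm_num)
    exact mul_nonneg (rho_pos h1).le (sq_nonneg _)
  · filter_upwards [tendsto_loglog.eventually_ge_atTop 2, Real.tendsto_log_atTop.eventually_ge_atTop 1,
      eventually_ge_atTop 1] with x hv hlx hx
    simp only [Function.comp_apply]
    set v := Real.log (Real.log x) with hvdef
    have hlx0 : 0 < Real.log x := by linarith
    have hlogx : Real.log (x ^ ((1 : ℝ) / 5)) = (1 / 5) * Real.log x := Real.log_rpow (by linarith) _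
    have h1 : (1 : ℝ) ≤ x ^ ((1 : ℝ) / 5) := Real.one_le_rpow hx (by norm_num)
    -- gq (x^(1/5)) ≥ v/2
    have hlog5 : Real.log 5 ≤ 2 := by
      have h5 : Real.log 5 ≤ Real.log 6.25 := Real.log_le_log (by norm_num) (by norm_num)
      have h6 : Real.log 6.25 = 2 * Real.log 2.5 := by
        rw [show (6.25 : ℝ) = 2.5 ^ 2 by norm_num, Real.log_pow]; push_cast; ring
      have h7 : Real.log 2.5 ≤ 1 := by
        have h8 : Real.log 2.5 = 1 + Real.log (2.5 / Real.exp 1) := by
          rw [Real.log_div (by norm_num) (Real.exp_pos 1).ne', Real.log_exp]; ring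
        have h9 : 2.5 / Real.exp 1 ≤ 1 := by
          rw [div_le_one (Real.exp_pos 1)]
          have := Real.exp_one_gt_d9
          linarith
        have h10 : Real.log (2.5 / Real.exp 1) ≤ 0 := Real.log_nonpos (by positivity) h9
        linarith
      linarith
    have hg : v / 2 ≤ gq (x ^ ((1 : ℝ) / 5)) := by
      unfold gq
      rw [hlogx]
      have h3 : Real.log (Real.log x / 5) ≤ Real.log (1 + 1 / 5 * Real.log x) :=
        Real.log_le_log (by positivity) (by linarith)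
      rw [Real.log_div hlx0.ne' (by norm_num)] at h3
      have : v - Real.log 5 ≤ Real.log (1 + 1 / 5 * Real.log x) := h3
      linarith
    have hv0 : 0 < v := by linarith
    have hrho : rho (x ^ ((1 : ℝ) / 5)) ≤ Real.sqrt 2 / v ^ ((1 : ℝ) / 2) := by
      rw [rho_eq, ← Real.sqrt_eq_rpow]
      have h4 : Real.sqrt (v / 2) ≤ Real.sqrt (gq (x ^ ((1 : ℝ) / 5))) := Real.sqrt_le_sqrt hg
      have h5 : 0 < Real.sqrt (v / 2) := by positivity
      calc (Real.sqrt (gq (x ^ ((1 : ℝ) / 5))))⁻¹ ≤ (Real.sqrt (v / 2))⁻¹ := inv_anti₀ h5 h4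
        _ = Real.sqrt 2 / Real.sqrt v := by
            rw [Real.sqrt_div hv0.le, inv_div]
    have hel : el x ^ 2 = Real.log v ^ ((5 : ℝ) / 2) := by
      unfold el
      rw [← Real.rpow_natCast, ← Real.rpow_mul (Real.log_nonneg (by linarith))]
      norm_num
      rfl
    rw [hel]
    have hlv : 0 ≤ Real.log v ^ ((5 : ℝ) / 2) := Real.rpow_nonneg (Real.log_nonneg (by linarith)) _
    calc rho (x ^ ((1 : ℝ) / 5)) * Real.log v ^ ((5 : ℝ) / 2)
        ≤ (Real.sqrt 2 / v ^ ((1 : ℝ) / 2)) * Real.log v ^ ((5 : ℝ) / 2) :=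
          mul_le_mul_of_nonneg_right hrho hlv
      _ = Real.sqrt 2 * (Real.log v ^ ((5 : ℝ) / 2) / v ^ ((1 : ℝ) / 2)) := by ring

theorem el_tendsto : Tendsto el atTop atTop := by
  unfold el
  exact (tendsto_rpow_atTop (by norm_num)).comp (Real.tendsto_log_atTop.comp tendsto_loglog)

/-- `el` is increasing from some point on. -/
theorem el_mono : ∃ x₀ : ℝ, ∀ x y : ℝ, x₀ ≤ x → x ≤ y → el x ≤ el y := by
  refine ⟨Real.exp (Real.exp 1), fun x y hx hxy => ?_⟩
  have hx0 : 0 < x := (Real.exp_pos _).trans_le hx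
  have h1 : Real.exp 1 ≤ Real.log x := (Real.le_log_iff_exp_le hx0).2 hx
  have h1' : 0 < Real.log x := (Real.exp_pos _).trans_le h1
  have h2 : 1 ≤ Real.log (Real.log x) := (Real.le_log_iff_exp_le h1').2 h1
  have h3 : 0 ≤ Real.log (Real.log (Real.log x)) := Real.log_nonneg h2
  have h4 : Real.log x ≤ Real.log y := Real.log_le_log hx0 hxy
  have h5 : Real.log (Real.log x) ≤ Real.log (Real.log y) := Real.log_le_log h1' h4
  have h6 : Real.log (Real.log (Real.log x)) ≤ Real.log (Real.log (Real.log y)) :=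
    Real.log_le_log (by linarith) h5
  exact Real.rpow_le_rpow h3 h6 (by norm_num)

/-- `el` varies slowly: on the range `[X, X^(log log X)]` it is almost constant. -/
theorem el_slow (δ : ℝ) (hδ : 0 < δ) : ∃ x₀ : ℝ, ∀ X x : ℝ, x₀ ≤ X → X ≤ x →
    x ≤ X ^ (Real.log (Real.log X)) → el x ≤ (1 + δ) * el X := by
  set d : ℝ := min 1 (δ / 3) with hd
  have hd0 : 0 < d := lt_min (by norm_num) (by positivity)
  have hd1 : d ≤ 1 := min_le_left _ _
  have hd3 : 3 * d ≤ δ := by have := min_le_right 1 (δ / 3); linarith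
  refine ⟨Real.exp (Real.exp (Real.exp (1 / d))), fun X x hX hXx hx => ?_⟩
  have hX0 : 0 < X := (Real.exp_pos _).trans_le hX
  have h1 : Real.exp (Real.exp (1 / d)) ≤ Real.log X := (Real.le_log_iff_exp_le hX0).2 hX
  have h1' : 0 < Real.log X := (Real.exp_pos _).trans_le h1
  have h2 : Real.exp (1 / d) ≤ Real.log (Real.log X) := (Real.le_log_iff_exp_le h1').2 h1
  have h2' : 0 < Real.log (Real.log X) := (Real.exp_pos _).trans_le h2
  set w := Real.log (Real.log (Real.log X)) with hw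
  have h3 : 1 / d ≤ w := (Real.le_log_iff_exp_le h2').2 h2
  have hdw : 1 ≤ d * w := by
    have := mul_le_mul_of_nonneg_left h3 hd0.le
    rwa [mul_one_div_cancel hd0.ne'] at this
  have hw1 : 1 ≤ w := by nlinarith
  have hvw : w ≤ Real.log (Real.log X) := by
    have := Real.log_le_sub_one_of_pos h2'
    linarith
  have hx0 : 0 < x := hX0.trans_le hXx
  have h4 : Real.log x ≤ Real.log (Real.log X) * Real.log X := by
    calc Real.log x ≤ Real.log (X ^ (Real.log (Real.log X))) := Real.log_le_log hx0 hx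
      _ = Real.log (Real.log X) * Real.log X := Real.log_rpow hX0 _
  have hlx : Real.log X ≤ Real.log x := Real.log_le_log hX0 hXx
  have h5 : Real.log (Real.log x) ≤ 2 * Real.log (Real.log X) := by
    calc Real.log (Real.log x) ≤ Real.log (Real.log (Real.log X) * Real.log X) :=
          Real.log_le_log (by linarith) h4
      _ = w + Real.log (Real.log X) := by rw [Real.log_mul h2'.ne' h1'.ne']
      _ ≤ 2 * Real.log (Real.log X) := by linarith
  have hllx : Real.log (Real.log X) ≤ Real.log (Real.log x) := Real.log_le_log h1' hlx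
  have h6 : Real.log (Real.log (Real.log x)) ≤ 1 + w := by
    calc Real.log (Real.log (Real.log x)) ≤ Real.log (2 * Real.log (Real.log X)) :=
          Real.log_le_log (by linarith) h5
      _ = Real.log 2 + w := by rw [Real.log_mul (by norm_num) h2'.ne']
      _ ≤ 1 + w := by have := Real.log_two_lt_d9; linarith
  have h7 : 0 ≤ Real.log (Real.log (Real.log x)) := Real.log_nonneg (by linarith)
  have h8 : Real.log (Real.log (Real.log x)) ≤ (1 + d) * w := by nlinarith
  unfold el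
  calc Real.log (Real.log (Real.log x)) ^ ((5 : ℝ) / 4) ≤ ((1 + d) * w) ^ ((5 : ℝ) / 4) :=
        Real.rpow_le_rpow h7 h8 (by norm_num)
    _ = (1 + d) ^ ((5 : ℝ) / 4) * w ^ ((5 : ℝ) / 4) := Real.mul_rpow (by linarith) (by linarith)
    _ ≤ (1 + δ) * w ^ ((5 : ℝ) / 4) := by
        refine mul_le_mul_of_nonneg_right ?_ (Real.rpow_nonneg (by linarith) _)
        calc (1 + d) ^ ((5 : ℝ) / 4) ≤ (1 + d) ^ (2 : ℝ) :=
              Real.rpow_le_rpow_of_exponent_le (by linarith) (by norm_num)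
          _ = (1 + d) ^ 2 := by norm_cast
          _ ≤ 1 + δ := by nlinarith

/-- `el` is smaller than every power of `log log`. -/
theorem el_small (K : ℕ) : Tendsto (fun x : ℝ => el x ^ K / Real.log (Real.log x)) atTop (nhds 0) := by
  have h := (isLittleO_log_rpow_rpow_atTop ((5 : ℝ) / 4 * K) (show (0 : ℝ) < 1 by norm_num)).tendsto_div_nhds_zero
  have h2 := h.comp tendsto_loglog
  refine h2.congr' ?_
  filter_upwards [tendsto_loglog.eventually_ge_atTop 1] with x hx
  simp only [Function.comp_apply, Real.rpow_one]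
  congr 1
  unfold el
  rw [Real.rpow_mul (Real.log_nonneg hx), Real.rpow_natCast]

end Pool.Agent.Helper66.MB
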