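import Pool.Agent.Helper66.MB.Basic
import Pool.Agent.Helper92.GB.UR

/-!
# Block MB-HH (MP_a499ba_nt)

The event `HH A k` (square root cancellation in the prime sums of the block `k` of pairs, uniformly in all
twists) fails for a fraction at most `1 / 2^k` of the sign vectors.

Proof. Let `S = (range (2^(k+1))).filter (fun i => 2^k < pa i ∧ pa i ≤ 2^(k+1))`. Lift: if `S ⊆ range J` and
`Q : (S → ℤˣ) → Prop` then `fr J (fun ω => Q (fun s => ω s)) = ∑ η : S → ℤˣ, wt (fun _ => 0) η * (if Q η then 1 else 0)`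
(`wt (fun _ => 0) η = 2^{-|S|}`; each `η` is the restriction of exactly `2^(J-|S|)` vectors `Fin J → ℤˣ`; e.g.
`Equiv.piEquivPiSubtypeProd`, or sum over fibres). Apply `Pool.Agent.Helper92.GB.UR` with `M = 2^(k+1)`, `h = 0`,
`V = 4 * M`, `w q χ t y i = (if pa i ≤ y then χ (pa i) * npi (pa i) t else 0) - (same for pb i)`:
`|S| ≤ M`; `‖w‖ ≤ 2` (`RB.npi_norm`-type fact `‖npi n t‖ ≤ 1`), so `∑ ‖w‖² ≤ 4 M = V ≤ M⁴`; Lipschitz in `t`:
`‖npi n t - npi n t'‖ ≤ log n |t - t'|` (`Helper92.GB.RB` has `npi_lip`, or copy its proof), `log (pa i) + log (pb i) ≤ M⁴`.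
`UR` controls `y ≤ 4 M`; for `y > 4M` the sum equals the one for `y = 4 M`, since `pb i < 2 * pa i ≤ 4 M`
(`pb_lt_two_mul`). Its bound `A √V √(log(q(2+|t|)) log M)` is at most `A' √(2^k) √(log(q(2+|t|)) (k+1))` with
`A' = 3 A` (`V = 8 * 2^k`, `log M = (k+1) log 2 ≤ k + 1`); failure weight `≤ 1/M^10 ≤ 1/2^k`.
-/

set_option autoImplicit false

namespace Pool.Agent.Helper66.MB

open Finset Pool.Agent.Helper92.GB

private theorem npi_eq34 {n : ℕ} (hn : 0 < n) (t : ℝ) :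
    npi n t = Complex.exp (Complex.I * ((Real.log n * t : ℝ) : ℂ)) := by
  have h : (n : ℂ) ≠ 0 := by exact_mod_cast hn.ne'
  rw [npi, Complex.cpow_def_of_ne_zero h, ← Complex.natCast_log]
  push_cast
  congr 1
  ring

private theorem norm_npi_le34 (n : ℕ) (t : ℝ) : ‖npi n t‖ ≤ 1 := by
  rcases Nat.eq_zero_or_pos n with h | h
  · subst h
    rw [npi]
    by_cases ht : (t : ℂ) * Complex.I = 0
    · rw [ht]; simp
    · rw [Nat.cast_zero, Complex.zero_cpow ht]; simp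
  · rw [npi_eq34 h, mul_comm, Complex.norm_exp_ofReal_mul_I]

private theorem npi_lip34 {n : ℕ} (hn : 0 < n) (t t' : ℝ) :
    ‖npi n t - npi n t'‖ ≤ n * |t - t'| := by
  rw [npi_eq34 hn, npi_eq34 hn]
  have e1 : Complex.exp (Complex.I * ((Real.log n * t : ℝ) : ℂ)) -
      Complex.exp (Complex.I * ((Real.log n * t' : ℝ) : ℂ)) =
      Complex.exp (Complex.I * ((Real.log n * t' : ℝ) : ℂ)) *
        (Complex.exp (Complex.I * ((Real.log n * (t - t') : ℝ) : ℂ)) - 1) := by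
    rw [mul_sub, ← Complex.exp_add, mul_one]
    congr 2
    push_cast
    ring
  rw [e1, norm_mul]
  have e2 : ‖Complex.exp (Complex.I * ((Real.log n * t' : ℝ) : ℂ))‖ = 1 := by
    rw [mul_comm, Complex.norm_exp_ofReal_mul_I]
  rw [e2, one_mul]
  refine (Real.norm_exp_I_mul_ofReal_sub_one_le).trans ?_
  rw [Real.norm_eq_abs, abs_mul]
  have h1 : |Real.log n| ≤ n := by
    have hn1 : (1 : ℝ) ≤ n := by exact_mod_cast hn
    rw [abs_of_nonneg (Real.log_nonneg hn1)]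
    exact (Real.log_le_sub_one_of_pos (by linarith)).trans (by linarith)
  exact mul_le_mul_of_nonneg_right h1 (abs_nonneg _)

private theorem wt_zero34 (S : Type) [Fintype S] (η : S → ℤˣ) :
    wt (fun _ => (0 : ℝ)) η = (1 / 2 : ℝ) ^ Fintype.card S := by
  simp [wt]

/-- Probabilities of events that depend only on the signs in `S`. -/
theorem fr_lift34 {J : ℕ} (S : Finset ℕ) (hS : ∀ s ∈ S, s < J) (Q : (S → ℤˣ) → Prop)
    [DecidablePred Q] :
    fr J (fun ω => Q (fun s => ω s)) =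
      ∑ η : S → ℤˣ, wt (fun _ => 0) η * (if Q η then 1 else 0) := by
  classical
  let p : Fin J → Prop := fun i => (i : ℕ) ∈ S
  let e1 : (Fin J → ℤˣ) ≃ ({i // p i} → ℤˣ) × ({i // ¬ p i} → ℤˣ) :=
    Equiv.piEquivPiSubtypeProd p (fun _ => ℤˣ)
  let e2 : {i // p i} ≃ S :=
    { toFun := fun i => ⟨(i.1 : ℕ), i.2⟩
      invFun := fun s => ⟨⟨s.1, hS s.1 s.2⟩, s.2⟩
      left_inv := fun _ => rfl
      right_inv := fun _ => rfl }
  let e3 : ({i // p i} → ℤˣ) ≃ (S → ℤˣ) := Equiv.arrowCongr e2 (Equiv.refl _)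
  let e : (Fin J → ℤˣ) ≃ (S → ℤˣ) × ({i // ¬ p i} → ℤˣ) :=
    e1.trans (Equiv.prodCongr e3 (Equiv.refl _))
  have he : ∀ ω : Fin J → ℤˣ, (e ω).1 = fun s : S => exd ω s := by
    intro ω
    funext s
    show ω ⟨s.1, hS s.1 s.2⟩ = exd ω s
    unfold exd
    rw [dif_pos (hS s.1 s.2)]
  have hcard : (2 : ℝ) ^ J = 2 ^ Fintype.card S * Fintype.card ({i // ¬ p i} → ℤˣ) := by
    have h1 := Fintype.card_congr e
    rw [Fintype.card_prod, Fintype.card_fun, Fintype.card_fun, Fintype.card_units_int,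
      Fintype.card_fin] at h1
    exact_mod_cast h1
  have hZ : (0 : ℝ) < Fintype.card ({i // ¬ p i} → ℤˣ) := by
    exact_mod_cast Fintype.card_pos
  have hnum : ((univ.filter (fun ω : Fin J → ℤˣ => Q (fun s => exd ω s))).card : ℝ) =
      Fintype.card ({i // ¬ p i} → ℤˣ) * ∑ η : S → ℤˣ, (if Q η then (1 : ℝ) else 0) := by
    rw [card_filter]
    push_cast
    calc ∑ ω : Fin J → ℤˣ, (if Q (fun s => exd ω s) then (1 : ℝ) else 0)
        = ∑ ω : Fin J → ℤˣ, (if Q (e ω).1 then (1 : ℝ) else 0) := by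
          refine sum_congr rfl fun ω _ => ?_
          rw [he ω]
      _ = ∑ x : (S → ℤˣ) × ({i // ¬ p i} → ℤˣ), (if Q x.1 then (1 : ℝ) else 0) :=
          Equiv.sum_comp e (fun x => if Q x.1 then (1 : ℝ) else 0)
      _ = ∑ η : S → ℤˣ, ∑ _ζ : ({i // ¬ p i} → ℤˣ), (if Q η then (1 : ℝ) else 0) :=
          Fintype.sum_prod_type _
      _ = _ := by
          rw [mul_sum]
          refine sum_congr rfl fun η _ => ?_
          rw [sum_const, card_univ, nsmul_eq_mul]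
  have hfr : fr J (fun ω => Q (fun s => ω s)) =
      ((univ.filter (fun ω : Fin J → ℤˣ => Q (fun s => exd ω s))).card : ℝ) / 2 ^ J := by
    unfold fr
    congr!
  rw [hfr, hnum, hcard]
  have h2 : ∀ η : S → ℤˣ, wt (fun _ => (0 : ℝ)) η * (if Q η then (1 : ℝ) else 0) =
      (1 / 2 : ℝ) ^ Fintype.card S * (if Q η then (1 : ℝ) else 0) := by
    intro η
    rw [wt_zero34]
  rw [sum_congr rfl fun η _ => h2 η, ← mul_sum]
  have h3 : (2 : ℝ) ^ Fintype.card S ≠ 0 := by positivity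
  rw [one_div, inv_pow]
  field_simp

theorem fr_mono34 {J : ℕ} {P Q : (ℕ → ℤˣ) → Prop} (h : ∀ ω, P ω → Q ω) : fr J P ≤ fr J Q := by
  classical
  unfold fr
  refine div_le_div_of_nonneg_right ?_ (by positivity)
  have : (univ.filter (fun ω : Fin J → ℤˣ => P (exd ω))).card ≤
      (univ.filter (fun ω : Fin J → ℤˣ => Q (exd ω))).card :=
    card_le_card (monotone_filter_right _ fun ω _ hω => h _ hω)
  exact_mod_cast this

theorem HH_fr : ∃ (A : ℝ) (k₁ : ℕ), 0 < A ∧ ∀ k : ℕ, k₁ ≤ k → ∀ J : ℕ, 2 ^ (k + 1) ≤ J →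
    fr J (fun ω => ¬ HH A k ω) ≤ 1 / 2 ^ k := by
  classical
  obtain ⟨A₀, M₀, hA₀, hM₀, hUR⟩ := UR
  refine ⟨3 * A₀, M₀, by linarith, ?_⟩
  intro k hk J hJ
  set M : ℕ := 2 ^ (k + 1) with hM
  have hkM : M₀ ≤ M := hk.trans (by
    rw [hM]
    exact (Nat.lt_two_pow_self.le).trans (Nat.pow_le_pow_right (by norm_num) (Nat.le_succ k)))
  have hM2 : 2 ≤ M := hM₀.trans hkM
  have hM2R : (2 : ℝ) ≤ M := by exact_mod_cast hM2
  set S : Finset ℕ := (range M).filter (fun i => 2 ^ k < pa i ∧ pa i ≤ M) with hS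
  have hSmem : ∀ s ∈ S, s < M ∧ 2 ^ k < pa s ∧ pa s ≤ M := by
    intro s hs
    rw [hS, mem_filter, mem_range] at hs
    exact hs
  have hcard : Fintype.card S ≤ M := by
    rw [Fintype.card_coe]
    exact (card_filter_le _ _).trans (by simp)
  have hcardR : (Fintype.card S : ℝ) ≤ M := by exact_mod_cast hcard
  set w : (q : ℕ) → DirichletCharacter ℂ q → ℝ → ℕ → S → ℂ :=
    fun q χ t y s => (if pa (s : ℕ) ≤ y then χ (pa (s : ℕ) : ZMod q) * npi (pa (s : ℕ)) t else 0) -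
      (if pb (s : ℕ) ≤ y then χ (pb (s : ℕ) : ZMod q) * npi (pb (s : ℕ)) t else 0) with hw
  have hterm : ∀ (q : ℕ) (χ : DirichletCharacter ℂ q) (t : ℝ) (y n : ℕ),
      ‖(if n ≤ y then χ (n : ZMod q) * npi n t else 0 : ℂ)‖ ≤ 1 := by
    intro q χ t y n
    split_ifs
    · rw [norm_mul]
      exact mul_le_one₀ (χ.norm_le_one _) (norm_nonneg _) (norm_npi_le34 n t)
    · simp
  have hlipt : ∀ (q : ℕ) (χ : DirichletCharacter ℂ q) (t t' : ℝ) (y n : ℕ), 0 < n →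
      ‖(if n ≤ y then χ (n : ZMod q) * npi n t else 0 : ℂ) -
        (if n ≤ y then χ (n : ZMod q) * npi n t' else 0 : ℂ)‖ ≤ n * |t - t'| := by
    intro q χ t t' y n hn
    split_ifs
    · rw [← mul_sub, norm_mul]
      have h1 : ‖χ (n : ZMod q)‖ ≤ 1 := χ.norm_le_one _
      calc ‖χ (n : ZMod q)‖ * ‖npi n t - npi n t'‖ ≤ 1 * (n * |t - t'|) :=
            mul_le_mul h1 (npi_lip34 hn t t') (norm_nonneg _) zero_le_one
        _ = _ := one_mul _
    · rw [sub_self, norm_zero]; positivity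
  have hw2 : ∀ q χ t y s, ‖w q χ t y s‖ ≤ 2 := by
    intro q χ t y s
    refine (norm_sub_le _ _).trans ?_
    have h1 := hterm q χ t y (pa (s : ℕ))
    have h2 := hterm q χ t y (pb (s : ℕ))
    linarith
  have hsum : ∀ q χ t y, ∑ s, ‖w q χ t y s‖ ^ 2 ≤ 4 * (M : ℝ) := by
    intro q χ t y
    calc ∑ s, ‖w q χ t y s‖ ^ 2 ≤ ∑ _s : S, (4 : ℝ) :=
          sum_le_sum fun s _ => by
            have h1 := hw2 q χ t y s
            have h2 := norm_nonneg (w q χ t y s)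
            nlinarith
      _ = Fintype.card S * 4 := by rw [sum_const, card_univ, nsmul_eq_mul]
      _ ≤ 4 * (M : ℝ) := by linarith
  have hlip : ∀ q χ t t' y s, ‖w q χ t y s - w q χ t' y s‖ ≤ (M : ℝ) ^ 4 * |t - t'| := by
    intro q χ t t' y s
    have hs := hSmem s s.2
    have h1 := hlipt q χ t t' y (pa (s : ℕ)) (pa_prime _).pos
    have h2 := hlipt q χ t t' y (pb (s : ℕ)) (pb_prime _).pos
    have h3 : (pb (s : ℕ) : ℝ) ≤ 2 * M := by
      have h4 := pb_lt_two_mul (s : ℕ)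
      have h5 : pb (s : ℕ) ≤ 2 * M := by omega
      exact_mod_cast h5
    have h4 : (pa (s : ℕ) : ℝ) ≤ M := by exact_mod_cast hs.2.2
    have h5 : 3 * (M : ℝ) ≤ (M : ℝ) ^ 4 := by
      have : (2 : ℝ) ^ 3 ≤ (M : ℝ) ^ 3 := pow_le_pow_left₀ (by norm_num) hM2R 3
      nlinarith
    have h6 : w q χ t y s - w q χ t' y s =
        ((if pa (s : ℕ) ≤ y then χ (pa (s : ℕ) : ZMod q) * npi (pa (s : ℕ)) t else 0) -
          (if pa (s : ℕ) ≤ y then χ (pa (s : ℕ) : ZMod q) * npi (pa (s : ℕ)) t' else 0)) -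
        ((if pb (s : ℕ) ≤ y then χ (pb (s : ℕ) : ZMod q) * npi (pb (s : ℕ)) t else 0) -
          (if pb (s : ℕ) ≤ y then χ (pb (s : ℕ) : ZMod q) * npi (pb (s : ℕ)) t' else 0)) := by
      simp only [hw]
      ring
    rw [h6]
    refine (norm_sub_le _ _).trans ?_
    have h7 := abs_nonneg (t - t')
    calc _ ≤ (pa (s : ℕ) : ℝ) * |t - t'| + (pb (s : ℕ) : ℝ) * |t - t'| := add_le_add h1 h2
      _ = ((pa (s : ℕ) : ℝ) + pb (s : ℕ)) * |t - t'| := by ring
      _ ≤ (M : ℝ) ^ 4 * |t - t'| := mul_le_mul_of_nonneg_right (by linarith) h7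
  have hmain := hUR M hkM S hcard (fun _ => 0) (fun _ => by simp) (4 * (M : ℝ))
    (by linarith) (by
      have : (2 : ℝ) ^ 3 ≤ (M : ℝ) ^ 3 := pow_le_pow_left₀ (by norm_num) hM2R 3
      nlinarith) w hsum hlip
  set Q : (S → ℤˣ) → Prop := fun η => ∃ (q : ℕ) (χ : DirichletCharacter ℂ q) (t : ℝ) (y : ℕ),
      1 ≤ q ∧ y ≤ 4 * M ∧
      A₀ * Real.sqrt (4 * (M : ℝ)) * Real.sqrt (Real.log (q * (2 + |t|)) * Real.log M) <
        ‖∑ s, ((((η s : ℤ) : ℝ) - 0 : ℝ) : ℂ) * w q χ t y s‖ with hQ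
  have hlift := fr_lift34 (J := J) S (fun s hs => (hSmem s hs).1.trans_le hJ) Q
  have hle : fr J (fun ω => ¬ HH (3 * A₀) k ω) ≤ fr J (fun ω => Q (fun s => ω s)) := by
    refine fr_mono34 fun ω hω => ?_
    unfold HH at hω
    push Not at hω
    obtain ⟨q, χ, t, y, hq, hlt⟩ := hω
    refine ⟨q, χ, t, min y (4 * M), hq, min_le_right _ _, ?_⟩
    have hsumeq : ∑ i ∈ (range (2 ^ (k + 1))).filter (fun i => 2 ^ k < pa i ∧ pa i ≤ 2 ^ (k + 1)),
        ((ω i : ℤ) : ℂ) * ((if pa i ≤ y then χ (pa i : ZMod q) * npi (pa i) t else 0) -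
          (if pb i ≤ y then χ (pb i : ZMod q) * npi (pb i) t else 0)) =
        ∑ s : S, (((((ω (s : ℕ)) : ℤ) : ℝ) - 0 : ℝ) : ℂ) * w q χ t (min y (4 * M)) s := by
      rw [← hM, ← hS, ← sum_coe_sort S]
      refine sum_congr rfl fun s _ => ?_
      have hs := hSmem s s.2
      have h1 : pb (s : ℕ) ≤ 4 * M := by
        have := pb_lt_two_mul (s : ℕ)
        omega
      have h2 : pa (s : ℕ) ≤ 4 * M := by omega
      have h3 : (pa (s : ℕ) ≤ min y (4 * M)) ↔ pa (s : ℕ) ≤ y := by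
        rw [le_min_iff]; exact ⟨fun h => h.1, fun h => ⟨h, h2⟩⟩
      have h4 : (pb (s : ℕ) ≤ min y (4 * M)) ↔ pb (s : ℕ) ≤ y := by
        rw [le_min_iff]; exact ⟨fun h => h.1, fun h => ⟨h, h1⟩⟩
      simp only [hw, h3, h4]
      push_cast
      ring
    rw [hsumeq] at hlt
    refine lt_of_le_of_lt ?_ hlt
    have hX : (1 : ℝ) ≤ q * (2 + |t|) := by
      have h1 : (1 : ℝ) ≤ q := by exact_mod_cast hq
      have h2 := abs_nonneg t
      nlinarith
    have hL : 0 ≤ Real.log (q * (2 + |t|)) := Real.log_nonneg hX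
    have hlogM : Real.log (M : ℝ) ≤ k + 1 := by
      rw [hM]
      push_cast
      rw [Real.log_pow]
      have : Real.log 2 ≤ 1 := by
        have := Real.log_two_lt_d9
        linarith
      have hk0 : (0 : ℝ) ≤ ((k + 1 : ℕ) : ℝ) := by positivity
      push_cast at hk0 ⊢
      nlinarith
    have h8 : Real.sqrt (4 * (M : ℝ)) ≤ 3 * Real.sqrt (2 ^ k) := by
      rw [Real.sqrt_le_left (by positivity), mul_pow, Real.sq_sqrt (by positivity), hM]
      push_cast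
      rw [pow_succ]
      have : (0 : ℝ) < 2 ^ k := by positivity
      linarith
    have h9 : Real.sqrt (Real.log (q * (2 + |t|)) * Real.log M) ≤
        Real.sqrt (Real.log (q * (2 + |t|)) * (k + 1)) :=
      Real.sqrt_le_sqrt (mul_le_mul_of_nonneg_left hlogM hL)
    calc A₀ * Real.sqrt (4 * (M : ℝ)) * Real.sqrt (Real.log (q * (2 + |t|)) * Real.log M)
        ≤ A₀ * (3 * Real.sqrt (2 ^ k)) * Real.sqrt (Real.log (q * (2 + |t|)) * (k + 1)) :=
          mul_le_mul (mul_le_mul_of_nonneg_left h8 hA₀.le) h9 (Real.sqrt_nonneg _) (by positivity)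
      _ = _ := by ring
  refine hle.trans ?_
  rw [hlift]
  refine hmain.trans ?_
  have h10 : (2 : ℝ) ^ k ≤ (M : ℝ) ^ 10 := by
    have h11 : (2 : ℝ) ^ k ≤ M := by
      rw [hM]; push_cast
      exact pow_le_pow_right₀ (by norm_num) (Nat.le_succ k)
    have h12 : (M : ℝ) ^ 1 ≤ (M : ℝ) ^ 10 := pow_le_pow_right₀ (by linarith) (by norm_num)
    rw [pow_one] at h12
    exact h11.trans h12
  exact one_div_le_one_div_of_le (by positivity) h10

end Pool.Agent.Helper66.MB
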