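import Pool.Agent.Helper66.MB.GGfr
import Pool.Agent.Helper66.MB.HHfr

/-!
# Block MB-EX (MP_a499ba_nt)

Existence of the infinite sign sequence. (`GG_fr`, `HH_fr` may be used while they are still `sorry`.)

Proof. `compact`: the space `ℕ → ℤˣ` is compact (finite discrete factors; see the proof of `core` in
`Pool.Agent.Helper92.GB.HALF` for the same argument with `ℕ → Bool`); the set of `ω` with `P k ω` for all `k < K`
is closed (membership depends on finitely many coordinates), nonempty and decreasing in `K`: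
`IsCompact.nonempty_iInter_of_sequence_nonempty_isCompact_isClosed`. Alternatively König's lemma by hand.
`exists_signs`: let `A`, `C`, `k₁` be from `HH_fr`, `GG_fr` (with `k₁` the larger of the two, and so large that
`∑_{k ≥ k₁} (C/k² + 2^{-k}) < 1`). `HH A k ω` and `GG n₀ k ω` depend only on `ω i`, `i < 2^(k+1)`. For every `K`,
with `J = 2^(K+1)`, the fraction of `ω : Fin J → ℤˣ` for which some event `k₁ ≤ k < K` fails is `< 1`, so some
`exd ω` satisfies all of them. Apply `compact` to `P k = (HH A (k+k₁) ∧ GG n₀ (k+k₁))`.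
-/

set_option autoImplicit false

namespace Pool.Agent.Helper66.MB

open Finset Pool.Agent.Helper92.GB

theorem compact (P : ℕ → (ℕ → ℤˣ) → Prop) (N : ℕ → ℕ)
    (hloc : ∀ (k : ℕ) (ω ω' : ℕ → ℤˣ), (∀ i < N k, ω i = ω' i) → P k ω → P k ω')
    (h : ∀ K : ℕ, ∃ ω : ℕ → ℤˣ, ∀ k < K, P k ω) : ∃ ω : ℕ → ℤˣ, ∀ k, P k ω := by
  classical
  let S : ℕ → Set (ℕ → ℤˣ) := fun K => {ω | ∀ k < K, P k ω}
  have hS1 : ∀ K, S (K + 1) ⊆ S K := fun K ω hω k hk => hω k (by omega)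
  have hS2 : ∀ K, (S K).Nonempty := h
  have hk : ∀ k, IsClosed {ω | P k ω} := by
    intro k
    rw [← isOpen_compl_iff, isOpen_iff_mem_nhds]
    intro ω hω
    have hU : IsOpen {ω' : ℕ → ℤˣ | ∀ i < N k, ω' i = ω i} := by
      have h1 : {ω' : ℕ → ℤˣ | ∀ i < N k, ω' i = ω i} =
          Set.pi (Finset.range (N k) : Set ℕ) (fun i => {ω i}) := by
        ext ω'
        simp
      rw [h1]
      exact isOpen_set_pi (Finset.finite_toSet _) (fun i _ => isOpen_discrete _)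
    refine Filter.mem_of_superset (hU.mem_nhds (fun i _ => rfl)) ?_
    intro ω' h' hP
    exact hω (hloc k ω' ω h' hP)
  have hS3 : ∀ K, IsClosed (S K) := by
    intro K
    have h2 : S K = ⋂ k : ℕ, ⋂ _ : k < K, {ω | P k ω} := by
      ext ω
      simp [S]
    rw [h2]
    exact isClosed_iInter fun k => isClosed_iInter fun _ => hk k
  obtain ⟨ω, hω⟩ := IsCompact.nonempty_iInter_of_sequence_nonempty_isCompact_isClosed S hS1 hS2
    (hS3 0).isCompact hS3
  rw [Set.mem_iInter] at hω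
  exact ⟨ω, fun k => hω (k + 1) k (by omega)⟩

/-- The event `HH A k` depends on the signs of index below `2 ^ (k + 1)`. -/
theorem HH_local (A : ℝ) (k : ℕ) (ω ω' : ℕ → ℤˣ) (h : ∀ i < 2 ^ (k + 1), ω i = ω' i)
    (hH : HH A k ω) : HH A k ω' := by
  intro q χ t y hq
  have h1 := hH q χ t y hq
  rw [Finset.sum_congr rfl (fun i hi => ?_)] at h1
  · exact h1
  · rw [h i (mem_range.1 (mem_filter.1 hi).1)]

/-- The event `GG n₀ k` depends on the signs of index below `2 ^ (k + 1)`. -/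
theorem GG_local (n₀ k : ℕ) (ω ω' : ℕ → ℤˣ) (h : ∀ i < 2 ^ (k + 1), ω i = ω' i)
    (hG : GG n₀ k ω) : GG n₀ k ω' := by
  intro x h1 h2
  have h3 := hG x h1 h2
  have h4 : star ω (Ico n₀ (2 ^ (k + 1))) = star ω' (Ico n₀ (2 ^ (k + 1))) := by
    unfold star
    exact Finset.prod_congr rfl fun i hi => by rw [h i (mem_Ico.1 hi).2]
  rwa [h4] at h3

/-- Union bound. -/
theorem union_bound (J : ℕ) (s : Finset ℕ) (Q : ℕ → (ℕ → ℤˣ) → Prop) (h : ∑ k ∈ s, fr J (Q k) < 1) :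
    ∃ ω : Fin J → ℤˣ, ∀ k ∈ s, ¬ Q k (exd ω) := by
  classical
  by_contra hcon
  push Not at hcon
  have hsub : (univ : Finset (Fin J → ℤˣ)) ⊆
      s.biUnion (fun k => univ.filter (fun ω : Fin J → ℤˣ => Q k (exd ω))) := by
    intro ω _
    obtain ⟨k, hk, hq⟩ := hcon ω
    exact mem_biUnion.2 ⟨k, hk, mem_filter.2 ⟨mem_univ _, hq⟩⟩
  have h1 : Fintype.card (Fin J → ℤˣ) ≤
      ∑ k ∈ s, (univ.filter (fun ω : Fin J → ℤˣ => Q k (exd ω))).card :=
    (card_le_card hsub).trans card_biUnion_le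
  have h2 : Fintype.card (Fin J → ℤˣ) = 2 ^ J := by
    rw [Fintype.card_fun, Fintype.card_fin, Fintype.card_units_int]
  rw [h2] at h1
  have h3 : ((2 : ℝ) ^ J) ≤ ∑ k ∈ s, ((univ.filter (fun ω : Fin J → ℤˣ => Q k (exd ω))).card : ℝ) := by
    exact_mod_cast h1
  have h4 : ∑ k ∈ s, fr J (Q k) =
      (∑ k ∈ s, ((univ.filter (fun ω : Fin J → ℤˣ => Q k (exd ω))).card : ℝ)) / 2 ^ J := by
    rw [Finset.sum_div]
    refine Finset.sum_congr rfl fun k _ => ?_
    unfold fr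
    congr
  rw [h4, div_lt_one (by positivity)] at h
  linarith

theorem fr_or (J : ℕ) (P Q : (ℕ → ℤˣ) → Prop) : fr J (fun ω => P ω ∨ Q ω) ≤ fr J P + fr J Q := by
  classical
  unfold fr
  rw [← add_div]
  refine div_le_div_of_nonneg_right ?_ (by positivity)
  have h1 : (univ.filter (fun ω : Fin J → ℤˣ => P (exd ω) ∨ Q (exd ω))).card ≤
      (univ.filter (fun ω : Fin J → ℤˣ => P (exd ω))).card +
      (univ.filter (fun ω : Fin J → ℤˣ => Q (exd ω))).card := by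
    rw [filter_or]
    exact card_union_le _ _
  have h2 : ((univ.filter (fun ω : Fin J → ℤˣ => P (exd ω) ∨ Q (exd ω))).card : ℝ) ≤
      (univ.filter (fun ω : Fin J → ℤˣ => P (exd ω))).card +
      (univ.filter (fun ω : Fin J → ℤˣ => Q (exd ω))).card := by
    exact_mod_cast h1
  convert h2 using 2
  all_goals congr

/-- Sum of `1 / k²` over a block. -/
theorem sum_sq (a b : ℕ) (ha : 2 ≤ a) (hab : a ≤ b) :
    ∑ k ∈ Ico a b, 1 / (k : ℝ) ^ 2 ≤ 1 / ((a : ℝ) - 1) - 1 / ((b : ℝ) - 1) := by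
  induction b, hab using Nat.le_induction with
  | base => simp
  | succ b hb ih =>
    rw [Finset.sum_Ico_succ_top hb]
    have hb2 : (2 : ℝ) ≤ b := by exact_mod_cast ha.trans hb
    have h1 : 1 / (b : ℝ) ^ 2 ≤ 1 / ((b : ℝ) - 1) - 1 / (((b + 1 : ℕ) : ℝ) - 1) := by
      push_cast
      have h2 : (0 : ℝ) < (b : ℝ) - 1 := by linarith
      have h3 : (0 : ℝ) < (b : ℝ) := by linarith
      rw [show (b : ℝ) + 1 - 1 = b by ring, div_sub_div _ _ h2.ne' h3.ne', div_le_div_iff₀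
        (by positivity) (by positivity)]
      nlinarith
    linarith

/-- Sum of `2^{-k}` over a block. -/
theorem sum_geo (a b : ℕ) (hab : a ≤ b) :
    ∑ k ∈ Ico a b, 1 / (2 : ℝ) ^ k ≤ 2 / 2 ^ a - 2 / 2 ^ b := by
  induction b, hab using Nat.le_induction with
  | base => simp
  | succ b hb ih =>
    rw [Finset.sum_Ico_succ_top hb]
    have h1 : 1 / (2 : ℝ) ^ b = 2 / 2 ^ b - 2 / 2 ^ (b + 1) := by
      rw [pow_succ]
      field_simp
      norm_num
    linarith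

theorem exists_signs (n₀ : ℕ) : ∃ (ω : ℕ → ℤˣ) (A : ℝ) (k₁ : ℕ), 1 ≤ k₁ ∧
    ∀ k : ℕ, k₁ ≤ k → HH A k ω ∧ GG n₀ k ω := by
  classical
  obtain ⟨A, a, hA, hHH⟩ := HH_fr
  obtain ⟨C, b, hC, hb, hGG⟩ := GG_fr n₀
  -- a large starting point
  obtain ⟨m, hm⟩ := exists_nat_gt (2 * C + 4)
  set k₁ : ℕ := max (max a b) (m + 2) with hk₁
  have hk1m : m + 2 ≤ k₁ := le_max_right _ _
  have hk1a : a ≤ k₁ := (le_max_left _ _).trans (le_max_left _ _)
  have hk1b : b ≤ k₁ := (le_max_right _ _).trans (le_max_left _ _)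
  have hk1R : (m : ℝ) + 2 ≤ k₁ := by exact_mod_cast hk1m
  have hpos : (0 : ℝ) < (k₁ : ℝ) - 1 := by
    have : (0 : ℝ) ≤ m := Nat.cast_nonneg m
    linarith
  have hC1 : C * (1 / ((k₁ : ℝ) - 1)) < 1 / 2 := by
    rw [mul_one_div, div_lt_div_iff₀ hpos (by norm_num)]
    linarith
  have hG1 : 2 / (2 : ℝ) ^ k₁ ≤ 1 / 2 := by
    have h2 : (2 : ℝ) ^ 2 ≤ 2 ^ k₁ := pow_le_pow_right₀ (by norm_num) (by omega)
    rw [div_le_div_iff₀ (by positivity) (by norm_num)]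
    linarith
  have hfin : ∀ K : ℕ, ∃ ω : ℕ → ℤˣ, ∀ k < K, HH A (k + k₁) ω ∧ GG n₀ (k + k₁) ω := by
    intro K
    have hsum : ∑ k ∈ Ico k₁ (k₁ + K), fr (2 ^ (k₁ + K)) (fun ω => ¬ HH A k ω ∨ ¬ GG n₀ k ω) < 1 := by
      have h1 : ∑ k ∈ Ico k₁ (k₁ + K), fr (2 ^ (k₁ + K)) (fun ω => ¬ HH A k ω ∨ ¬ GG n₀ k ω) ≤
          ∑ k ∈ Ico k₁ (k₁ + K), (1 / (2 : ℝ) ^ k + C * (1 / (k : ℝ) ^ 2)) := by
        refine Finset.sum_le_sum fun k hk => ?_
        obtain ⟨h2, h3⟩ := mem_Ico.1 hk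
        have h4 : 2 ^ (k + 1) ≤ 2 ^ (k₁ + K) := Nat.pow_le_pow_right (by norm_num) (by omega)
        refine (fr_or _ _ _).trans (add_le_add (hHH k (by omega) _ h4) ?_)
        refine (hGG k (by omega) _ h4).trans (le_of_eq ?_)
        rw [mul_one_div]
      rw [Finset.sum_add_distrib, ← Finset.mul_sum] at h1
      have h5 := sum_geo k₁ (k₁ + K) (by omega)
      have h6 := sum_sq k₁ (k₁ + K) (by omega) (by omega)
      have h7 : (0 : ℝ) < 2 / 2 ^ (k₁ + K) := by positivity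
      have h8 : (0 : ℝ) ≤ 1 / (((k₁ + K : ℕ) : ℝ) - 1) := by
        apply div_nonneg (by norm_num)
        push_cast
        have : (0 : ℝ) ≤ K := Nat.cast_nonneg K
        linarith
      have h9 : C * ∑ k ∈ Ico k₁ (k₁ + K), 1 / (k : ℝ) ^ 2 ≤ C * (1 / ((k₁ : ℝ) - 1)) :=
        mul_le_mul_of_nonneg_left (by linarith) hC.le
      linarith
    obtain ⟨ω, hω⟩ := union_bound _ _ _ hsum
    refine ⟨exd ω, fun k hk => ?_⟩
    have h1 := hω (k + k₁) (mem_Ico.2 ⟨by omega, by omega⟩)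
    push Not at h1
    exact h1
  obtain ⟨ω, hω⟩ := compact (fun k ω => HH A (k + k₁) ω ∧ GG n₀ (k + k₁) ω)
    (fun k => 2 ^ (k + k₁ + 1))
    (fun k ω ω' h1 h2 => ⟨HH_local A (k + k₁) ω ω' h1 h2.1, GG_local n₀ (k + k₁) ω ω' h1 h2.2⟩) hfin
  refine ⟨ω, A, k₁, by omega, fun k hk => ?_⟩
  have h1 := hω (k - k₁)
  simp only [Nat.sub_add_cancel hk] at h1
  exact h1

end Pool.Agent.Helper66.MB
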