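import Pool.Agent.Helper66.MB.Sqf

/-!
# Block MB-WX (MP_a499ba_nt)

The sum of `2^{ω(n)}` over `Wx x` is smaller than `x` by any power of the logarithm.

Proof. Put `L = log x`, `y = exp √L`. Let `n ∈ Wx x`: squarefree, `1 ≤ n ≤ x`, `p n ≤ x` for all `p ∣ n`.
(1) If `n ≤ x / y`: `∑ 2^ω(n) ≤ (x/y) ∑_{n ≤ x} 2^ω(n)/n ≤ (x/y) ∏_{p ≤ x} (1 + 2/p)` by `sum_sqf_le` with
`c p = 2/p` (`∏_{p | n} 1/p = 1/n`), and `∏ ≤ C (1 + L)^B` by `prod_prime 2`.
(2) If `n > x / y`: all primes `p ∣ n` satisfy `p ≤ x / n < y`. For `L ≥ 4` we have `n ≥ x / y ≥ √x`. With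
`η = 1/√L`: `1 ≤ (n / √x)^η`, so `∑ 2^ω(n) ≤ x ∑ 2^ω(n) n^{-1} (n/√x)^η ≤ x · x^{-η/2} ∏_{p ≤ y} (1 + 2 p^{-1+η})`
(`sum_sqf_le` with `c p = 2 p^(η-1)`), `p^η ≤ e` for `p ≤ y`, so the product is at most
`∏_{p ≤ x} (1 + 6/p) ≤ C' (1+L)^{B'}` (`prod_prime 6`), and `x^{-η/2} = exp (-√L/2)`.
Total: `≤ C'' x exp(-√L/2) (1+L)^{B''} ≤ C''' x / (1+L)^A`, since `(1+L)^(A+B'') exp(-√L/2)` is bounded.
For `L < 4` the sum is at most a constant (`≤ 2^x x`, `x < e^4`).
-/

set_option autoImplicit false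

namespace Pool.Agent.Helper66.MB

open Finset Pool.Agent.Helper92.GB

theorem Wx_mem {x n : ℕ} : n ∈ Wx x ↔
    (1 ≤ n ∧ n ≤ x) ∧ Squarefree n ∧ ∀ p ∈ n.primeFactors, p * n ≤ x := by
  unfold Wx
  rw [mem_filter, mem_Icc]

theorem Wx_sub {x n : ℕ} (h : n ∈ Wx x) : n.primeFactors ⊆ (Icc 1 x).filter Nat.Prime := by
  rw [Wx_mem] at h
  intro p hp
  rw [mem_filter, mem_Icc]
  have hpp := Nat.prime_of_mem_primeFactors hp
  exact ⟨⟨hpp.one_lt.le, (Nat.le_of_dvd (by omega) (Nat.dvd_of_mem_primeFactors hp)).trans h.1.2⟩,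
    hpp⟩

theorem Wx_prod1 {n : ℕ} (h : Squarefree n) :
    ∏ p ∈ n.primeFactors, (2 : ℝ) / p = (2 : ℝ) ^ n.primeFactors.card / n := by
  rw [prod_div_distrib, prod_const]
  congr 1
  rw [← Nat.cast_prod, Nat.prod_primeFactors_of_squarefree h]

theorem Wx_prod2 {n : ℕ} (h : Squarefree n) (r : ℝ) :
    ∏ p ∈ n.primeFactors, (2 : ℝ) * (p : ℝ) ^ r = (2 : ℝ) ^ n.primeFactors.card * (n : ℝ) ^ r := by
  rw [prod_mul_distrib, prod_const, Real.finsetProd_rpow _ _ (fun i _ => Nat.cast_nonneg i)]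
  congr 2
  rw [← Nat.cast_prod, Nat.prod_primeFactors_of_squarefree h]

/-- powers of `1 + L` against `exp (√L / 2)` -/
theorem Wx_exp (N : ℕ) {L : ℝ} (hL : 4 ≤ L) :
    (1 + L) ^ N ≤ 8 ^ N * ((2 * N).factorial : ℝ) * Real.exp (√L / 2) := by
  have h0 : 0 ≤ √L := Real.sqrt_nonneg L
  have hsq : √L ^ 2 = L := Real.sq_sqrt (by linarith)
  have h1 := Real.pow_div_factorial_le_exp (√L / 2) (by positivity) (2 * N)
  rw [div_le_iff₀ (by positivity)] at h1
  have h2 : (1 + L) ^ N ≤ (2 * L) ^ N := pow_le_pow_left₀ (by linarith) (by linarith) N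
  have h3 : (2 * L) ^ N = 8 ^ N * (√L / 2) ^ (2 * N) := by
    rw [pow_mul, div_pow, hsq, ← mul_pow]
    congr 1
    ring
  rw [h3] at h2
  refine h2.trans ?_
  calc (8 : ℝ) ^ N * (√L / 2) ^ (2 * N) ≤ 8 ^ N * (Real.exp (√L / 2) * ((2 * N).factorial : ℝ)) :=
        mul_le_mul_of_nonneg_left h1 (by positivity)
    _ = _ := by ring

theorem Wx_bound (A : ℕ) : ∃ C : ℝ, 0 < C ∧ ∀ x : ℕ, 1 ≤ x →
    ∑ n ∈ Wx x, (2 : ℝ) ^ n.primeFactors.card ≤ C * x / (1 + Real.log x) ^ A := by
  obtain ⟨C1, B1, hC1, h1⟩ := prod_prime 2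
  obtain ⟨C2, B2, hC2, h2⟩ := prod_prime 6
  set D1 : ℝ := C1 * 5 ^ B1 * 5 ^ A with hD1
  set D2 : ℝ := C1 * (8 ^ (A + B1) * ((2 * (A + B1)).factorial : ℝ)) with hD2
  set D3 : ℝ := C2 * (8 ^ (A + B2) * ((2 * (A + B2)).factorial : ℝ)) with hD3
  have hD10 : 0 < D1 := by positivity
  have hD20 : 0 < D2 := by positivity
  have hD30 : 0 < D3 := by positivity
  refine ⟨D1 + D2 + D3, by positivity, fun x hx => ?_⟩
  have hx0 : (0 : ℝ) < x := by exact_mod_cast hx
  have hx1 : (1 : ℝ) ≤ x := by exact_mod_cast hx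
  set L := Real.log x with hL
  have hL0 : 0 ≤ L := Real.log_nonneg hx1
  have hLx : Real.exp L = x := Real.exp_log hx0
  rw [le_div_iff₀ (by positivity)]
  -- sums with weight `1 / n`
  have w1 : ∀ s ⊆ Wx x, ∑ n ∈ s, (2 : ℝ) ^ n.primeFactors.card / n ≤ C1 * (1 + L) ^ B1 := by
    intro s hs
    refine le_trans ?_ (h1 x hx)
    have := sum_sqf_le s ((Icc 1 x).filter Nat.Prime) (fun p => (2 : ℝ) / p)
      (fun p _ => by positivity) (fun n hn => ⟨(Wx_mem.1 (hs hn)).2.1, Wx_sub (hs hn)⟩)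
    refine le_trans (le_of_eq (sum_congr rfl fun n hn => ?_)) (this.trans (le_of_eq ?_))
    · exact (Wx_prod1 (Wx_mem.1 (hs hn)).2.1).symm
    · norm_num
  by_cases hL4 : L < 4
  · have e1 : ∑ n ∈ Wx x, (2 : ℝ) ^ n.primeFactors.card ≤ x * (C1 * (1 + L) ^ B1) := by
      refine le_trans ?_ (mul_le_mul_of_nonneg_left (w1 (Wx x) (Subset.refl _)) hx0.le)
      rw [mul_sum]
      refine sum_le_sum fun n hn => ?_
      have hn1 : (0 : ℝ) < n := by exact_mod_cast (Wx_mem.1 hn).1.1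
      have hn2 : (n : ℝ) ≤ x := by exact_mod_cast (Wx_mem.1 hn).1.2
      rw [mul_div_assoc', le_div_iff₀ hn1, mul_comm]
      exact mul_le_mul_of_nonneg_right hn2 (by positivity)
    have e2 : (1 + L) ^ B1 ≤ 5 ^ B1 := pow_le_pow_left₀ (by linarith) (by linarith) _
    have e3 : (1 + L) ^ A ≤ 5 ^ A := pow_le_pow_left₀ (by linarith) (by linarith) _
    calc (∑ n ∈ Wx x, (2 : ℝ) ^ n.primeFactors.card) * (1 + L) ^ A
        ≤ (x * (C1 * 5 ^ B1)) * 5 ^ A := by
          refine mul_le_mul (e1.trans ?_) e3 (by positivity) (by positivity)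
          exact mul_le_mul_of_nonneg_left (mul_le_mul_of_nonneg_left e2 hC1.le) hx0.le
      _ = D1 * x := by rw [hD1]; ring
      _ ≤ (D1 + D2 + D3) * x := mul_le_mul_of_nonneg_right (by linarith) hx0.le
  · push Not at hL4
    set s := √L with hs
    have hs0 : 0 < s := Real.sqrt_pos.2 (by linarith)
    have hsq : s * s = L := Real.mul_self_sqrt (by linarith)
    have hs2 : 2 ≤ s := by
      rw [hs]; exact Real.le_sqrt_of_sq_le (by linarith)
    set y := Real.exp s with hy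
    have hy0 : 0 < y := Real.exp_pos _
    -- split
    rw [← sum_filter_add_sum_filter_not (Wx x) (fun n : ℕ => (n : ℝ) * y ≤ x), add_mul]
    -- part 1
    have p1 : (∑ n ∈ (Wx x).filter (fun n : ℕ => (n : ℝ) * y ≤ x),
        (2 : ℝ) ^ n.primeFactors.card) * (1 + L) ^ A ≤ D2 * x := by
      have e1 : ∑ n ∈ (Wx x).filter (fun n : ℕ => (n : ℝ) * y ≤ x),
          (2 : ℝ) ^ n.primeFactors.card ≤ x / y * (C1 * (1 + L) ^ B1) := by
        refine le_trans ?_ (mul_le_mul_of_nonneg_left (w1 ((Wx x).filter (fun n : ℕ => (n : ℝ) * y ≤ x)) fun n hn => (mem_filter.1 hn).1)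
          (by positivity))
        rw [mul_sum]
        refine sum_le_sum fun n hn => ?_
        rw [mem_filter] at hn
        have hn1 : (0 : ℝ) < n := by exact_mod_cast (Wx_mem.1 hn.1).1.1
        rw [mul_div_assoc', le_div_iff₀ hn1, mul_comm]
        refine mul_le_mul_of_nonneg_right ?_ (by positivity)
        rw [le_div_iff₀ hy0]; exact hn.2
      have e2 := Wx_exp (A + B1) hL4
      have e3 : Real.exp (s / 2) ≤ y := Real.exp_le_exp.2 (by linarith)
      calc _ ≤ x / y * (C1 * (1 + L) ^ B1) * (1 + L) ^ A :=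
            mul_le_mul_of_nonneg_right e1 (by positivity)
        _ = x / y * C1 * (1 + L) ^ (A + B1) := by rw [pow_add]; ring
        _ ≤ x / y * C1 * (8 ^ (A + B1) * ((2 * (A + B1)).factorial : ℝ) * Real.exp (s / 2)) :=
            mul_le_mul_of_nonneg_left e2 (by positivity)
        _ ≤ x / y * C1 * (8 ^ (A + B1) * ((2 * (A + B1)).factorial : ℝ) * y) :=
            mul_le_mul_of_nonneg_left (mul_le_mul_of_nonneg_left e3 (by positivity))
              (by positivity)
        _ = D2 * x := by rw [hD2]; field_simp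
    -- part 2
    have p2 : (∑ n ∈ (Wx x).filter (fun n : ℕ => ¬ (n : ℝ) * y ≤ x),
        (2 : ℝ) ^ n.primeFactors.card) * (1 + L) ^ A ≤ D3 * x := by
      set η : ℝ := 1 / s with hη
      have hη0 : 0 < η := by positivity
      set c : ℕ → ℝ := fun p => if (p : ℝ) < y then 2 * (p : ℝ) ^ (η - 1) else 0 with hc
      have hc0 : ∀ p, 0 ≤ c p := by
        intro p; simp only [hc]; split_ifs <;> positivity
      have hcQ : ∏ p ∈ (Icc 1 x).filter Nat.Prime, (1 + c p) ≤ C2 * (1 + L) ^ B2 := by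
        refine le_trans (prod_le_prod (fun p _ => by have := hc0 p; linarith) fun p hp => ?_)
          (h2 x hx)
        have hp1 : (0 : ℝ) < p := by exact_mod_cast (mem_filter.1 hp).2.pos
        simp only [hc]
        split_ifs with hpy
        · have : (p : ℝ) ^ (η - 1) = (p : ℝ) ^ η / p := Real.rpow_sub_one hp1.ne' η
          rw [this]
          have h3 : (p : ℝ) ^ η ≤ 3 := by
            calc (p : ℝ) ^ η ≤ y ^ η := Real.rpow_le_rpow hp1.le hpy.le hη0.le
              _ = Real.exp 1 := by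
                rw [hy, ← Real.exp_mul, hη]
                congr 1
                field_simp
              _ ≤ 3 := Real.exp_one_lt_three.le
          have h4 : 2 * ((p : ℝ) ^ η / p) ≤ ((6 : ℕ) : ℝ) / p := by
            rw [mul_div_assoc', div_le_div_iff_of_pos_right hp1]
            push_cast
            linarith
          linarith
        · have : (0 : ℝ) ≤ ((6 : ℕ) : ℝ) / p := by positivity
          linarith
      have e0 : ∀ n ∈ (Wx x).filter (fun n : ℕ => ¬ (n : ℝ) * y ≤ x),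
          ∏ p ∈ n.primeFactors, c p = (2 : ℝ) ^ n.primeFactors.card * (n : ℝ) ^ (η - 1) := by
        intro n hn
        rw [mem_filter] at hn
        have hm := Wx_mem.1 hn.1
        rw [← Wx_prod2 hm.2.1]
        refine prod_congr rfl fun p hp => ?_
        simp only [hc]
        rw [if_pos]
        have h3 := hm.2.2 p hp
        have h4 : (p : ℝ) * n ≤ x := by exact_mod_cast h3
        have hn1 : (0 : ℝ) < n := by exact_mod_cast hm.1.1
        by_contra h5
        push Not at h5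
        apply hn.2
        nlinarith
      have e1 : ∑ n ∈ (Wx x).filter (fun n : ℕ => ¬ (n : ℝ) * y ≤ x),
          (2 : ℝ) ^ n.primeFactors.card ≤ x * Real.exp (-(s / 2)) * (C2 * (1 + L) ^ B2) := by
        have := sum_sqf_le ((Wx x).filter (fun n : ℕ => ¬ (n : ℝ) * y ≤ x))
          ((Icc 1 x).filter Nat.Prime) c (fun p _ => hc0 p)
          (fun n hn => ⟨(Wx_mem.1 (mem_filter.1 hn).1).2.1, Wx_sub (mem_filter.1 hn).1⟩)
        refine le_trans ?_ (mul_le_mul_of_nonneg_left (this.trans hcQ) (by positivity))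
        rw [mul_sum]
        refine sum_le_sum fun n hn => ?_
        rw [e0 n hn]
        rw [mem_filter] at hn
        have hm := Wx_mem.1 hn.1
        have hn1 : (0 : ℝ) < n := by exact_mod_cast hm.1.1
        have hn2 : (n : ℝ) ≤ x := by exact_mod_cast hm.1.2
        have hn3 : Real.exp (L / 2) ≤ n := by
          have a1 : (x : ℝ) < n * y := not_le.1 hn.2
          have a2 : Real.exp (L / 2) * y ≤ x := by
            rw [hy, ← Real.exp_add, ← hLx]
            exact Real.exp_le_exp.2 (by nlinarith)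
          have a3 : Real.exp (L / 2) * y < n * y := lt_of_le_of_lt a2 a1
          exact (lt_of_mul_lt_mul_right a3 hy0.le).le
        have b1 : (1 : ℝ) ≤ x * Real.exp (-(s / 2)) * (n : ℝ) ^ (η - 1) := by
          rw [Real.rpow_sub_one hn1.ne']
          have c1 : Real.exp (s / 2) ≤ (n : ℝ) ^ η := by
            calc Real.exp (s / 2) = Real.exp (L / 2) ^ η := by
                  rw [← Real.exp_mul, hη, ← hsq]
                  congr 1
                  field_simp
              _ ≤ _ := Real.rpow_le_rpow (Real.exp_pos _).le hn3 hη0.le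
          have c2 : x * Real.exp (-(s / 2)) * ((n : ℝ) ^ η / n) =
              (x / n) * (Real.exp (-(s / 2)) * (n : ℝ) ^ η) := by ring
          rw [c2]
          have c3 : (1 : ℝ) ≤ x / n := by rwa [one_le_div hn1]
          have c4 : (1 : ℝ) ≤ Real.exp (-(s / 2)) * (n : ℝ) ^ η := by
            calc (1 : ℝ) = Real.exp (-(s / 2)) * Real.exp (s / 2) := by
                  rw [← Real.exp_add]; simp
              _ ≤ _ := mul_le_mul_of_nonneg_left c1 (Real.exp_pos _).le
          nlinarith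
        calc (2 : ℝ) ^ n.primeFactors.card = (2 : ℝ) ^ n.primeFactors.card * 1 := by ring
          _ ≤ (2 : ℝ) ^ n.primeFactors.card * (x * Real.exp (-(s / 2)) * (n : ℝ) ^ (η - 1)) :=
              mul_le_mul_of_nonneg_left b1 (by positivity)
          _ = _ := by ring
      have e2 := Wx_exp (A + B2) hL4
      calc _ ≤ x * Real.exp (-(s / 2)) * (C2 * (1 + L) ^ B2) * (1 + L) ^ A :=
            mul_le_mul_of_nonneg_right e1 (by positivity)
        _ = x * Real.exp (-(s / 2)) * C2 * (1 + L) ^ (A + B2) := by rw [pow_add]; ring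
        _ ≤ x * Real.exp (-(s / 2)) * C2 *
              (8 ^ (A + B2) * ((2 * (A + B2)).factorial : ℝ) * Real.exp (s / 2)) :=
            mul_le_mul_of_nonneg_left e2 (by positivity)
        _ = D3 * x * (Real.exp (-(s / 2)) * Real.exp (s / 2)) := by rw [hD3]; ring
        _ = D3 * x := by rw [← Real.exp_add]; simp
    calc _ ≤ D2 * x + D3 * x := add_le_add p1 p2
      _ ≤ (D1 + D2 + D3) * x := by nlinarith

end Pool.Agent.Helper66.MB
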