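import Pool.Agent.Helper66.MB.Basic

/-!
# Block MB-SH (MP_a499ba_nt)

Proof. By `Sm_diff`, `Sm y (dT T) - Sm x (dT T) = ∑_{x < n ≤ y} (dT T).coeff n`; by `abs_coeff_dT` its
absolute value is at most `N = |spt T ∩ Ioc x y|`, and `N ≤ 2 ^ |T|` (`card_spt_le`), so the square is at
most `2^|T| N`. Hence the left side is at most `∑_T 6^|T| |spt T ∩ Ioc x y| = ∑_T ∑_{n ∈ spt T ∩ Ioc x y} 6^{ω(n)}`
(`mem_spt`: `n` squarefree, `n.primeFactors.card = T.card`), and every `n` is in `spt T` for at most one `T`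
(`spt_unique`).
-/

set_option autoImplicit false

namespace Pool.Agent.Helper66.MB

open Finset Pool.Agent.Helper92.GB

open Classical in
/-- The integers of the support of `dT T` in `(x, y]`. -/
noncomputable def sptI (T : Finset ℕ) (x y : ℕ) : Finset ℕ := (Ioc x y).filter (· ∈ spt T)

theorem abs_diff_dT (T : Finset ℕ) (x y : ℕ) (h : x ≤ y) :
    |Sm y (dT T) - Sm x (dT T)| ≤ ((sptI T x y).card : ℝ) := by
  classical
  rw [Sm_diff h]
  refine (abs_sum_le_sum_abs _ _).trans ?_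
  refine (sum_le_sum fun n _ => abs_coeff_dT T n).trans ?_
  rw [sum_ite, sum_const_zero, add_zero, sum_const, nsmul_eq_mul, mul_one]
  exact le_of_eq (by unfold sptI; congr!)

theorem card_sptI_le (T : Finset ℕ) (x y : ℕ) : (sptI T x y).card ≤ 2 ^ T.card := by
  classical
  refine le_trans (card_le_card ?_) (card_spt_le T)
  intro n hn
  exact (mem_filter.1 hn).2

theorem sptI_disjoint (P : Finset (Finset ℕ)) (x y : ℕ) :
    (P : Set (Finset ℕ)).PairwiseDisjoint (fun T => sptI T x y) := by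
  classical
  intro T _ T' _ hne
  change Disjoint (sptI T x y) (sptI T' x y)
  rw [Finset.disjoint_left]
  intro n hn hn'
  exact hne (spt_unique (mem_filter.1 hn).2 (mem_filter.1 hn').2)

theorem short_four (I : Finset ℕ) (x y : ℕ) (h : x ≤ y) :
    ∑ T ∈ I.powerset, (3 : ℝ) ^ T.card * (Sm y (dT T) - Sm x (dT T)) ^ 2 ≤
      ∑ n ∈ (Ioc x y).filter Squarefree, (6 : ℝ) ^ n.primeFactors.card := by
  classical
  have h1 : ∀ T ∈ I.powerset, (3 : ℝ) ^ T.card * (Sm y (dT T) - Sm x (dT T)) ^ 2 ≤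
      ∑ n ∈ sptI T x y, (6 : ℝ) ^ n.primeFactors.card := by
    intro T _
    have e1 := abs_diff_dT T x y h
    have e2 : ((sptI T x y).card : ℝ) ≤ 2 ^ T.card := by exact_mod_cast card_sptI_le T x y
    have e3 : (Sm y (dT T) - Sm x (dT T)) ^ 2 ≤ 2 ^ T.card * ((sptI T x y).card : ℝ) := by
      rw [← sq_abs]
      have e4 := abs_nonneg (Sm y (dT T) - Sm x (dT T))
      nlinarith
    have e5 : ∑ n ∈ sptI T x y, (6 : ℝ) ^ n.primeFactors.card = (6 : ℝ) ^ T.card * ((sptI T x y).card : ℝ) := by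
      have : ∀ n ∈ sptI T x y, (6 : ℝ) ^ n.primeFactors.card = (6 : ℝ) ^ T.card := by
        intro n hn
        rw [(mem_spt (mem_filter.1 hn).2).2.2.1]
      rw [sum_congr rfl this, sum_const, nsmul_eq_mul, mul_comm]
    rw [e5, show (6 : ℝ) = 3 * 2 by norm_num, mul_pow, mul_assoc]
    exact mul_le_mul_of_nonneg_left e3 (by positivity)
  refine (sum_le_sum h1).trans ?_
  rw [← sum_biUnion (sptI_disjoint _ x y)]
  refine sum_le_sum_of_subset_of_nonneg ?_ fun n _ _ => by positivity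
  intro n hn
  obtain ⟨T, _, hT⟩ := mem_biUnion.1 hn
  have h2 := mem_filter.1 hT
  exact mem_filter.2 ⟨h2.1, (mem_spt h2.2).2.1⟩

/-- Trivial bound for short intervals. -/
theorem star_trivial (ω : ℕ → ℤˣ) (I : Finset ℕ) (x y : ℕ) (h : x ≤ y) :
    |Sm y (star ω I) - Sm x (star ω I)| ≤ (y - x : ℕ) := by
  classical
  rw [Sm_star_eq_sum, Sm_star_eq_sum, ← sum_sub_distrib]
  refine (abs_sum_le_sum_abs _ _).trans ?_
  have h1 : ∀ T ∈ I.powerset, |Sm y (dT T) * ∏ i ∈ T, ((ω i : ℤ) : ℝ) -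
      Sm x (dT T) * ∏ i ∈ T, ((ω i : ℤ) : ℝ)| ≤ ((sptI T x y).card : ℝ) := by
    intro T _
    rw [← sub_mul, abs_mul]
    have e1 : |∏ i ∈ T, ((ω i : ℤ) : ℝ)| = 1 := by
      rw [abs_prod]
      refine prod_eq_one fun i _ => ?_
      rcases Int.units_eq_one_or (ω i) with h | h <;> simp [h]
    rw [e1, mul_one]
    exact abs_diff_dT T x y h
  refine (sum_le_sum h1).trans ?_
  rw [← Nat.cast_sum, ← card_biUnion (fun T hT T' hT' hne => sptI_disjoint I.powerset x y hT hT' hne)]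
  have h2 : (I.powerset.biUnion fun T => sptI T x y).card ≤ y - x := by
    rw [← Nat.card_Ioc]
    refine card_le_card ?_
    intro n hn
    obtain ⟨T, _, hT⟩ := mem_biUnion.1 hn
    exact (mem_filter.1 hT).1
  exact_mod_cast h2

end Pool.Agent.Helper66.MB
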