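import Pool.Agent.Helper66.MB.Basic

/-!
# Block MB-SV (MP_a499ba_nt)

Integers without a prime factor `pb i` (every second prime) have density zero, with a rate.

Proof. Mertens lower bound: `∑_{p ≤ w} 1/p ≥ log log w - C` (for example from `∏_{p ≤ w} (1 - 1/p)^{-1} ≥ ∑_{n ≤ w} 1/n ≥ log w`,
or by partial summation from `mertens` in `Pool.Agent.Helper57.LS.Mertens`; `Pool.Agent.Helper53.OM.Mert` does this
partial summation for the primes `1 mod 4`). As `pb j < pa (j+1)`,
`2 ∑_{pb j ≤ w} 1/pb j ≥ ∑_{pb j ≤ w} 1/pb j + ∑_{pa (j+1) ≤ w} 1/pa (j+1) = ∑_{p ≤ w} 1/p - 1/2`. Let `Q` be the product of the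
`pb j ≤ w`: `Q ≤ primorial w ≤ 4^w` and `φ(Q)/Q = ∏ (1 - 1/pb j) ≤ exp (-∑ 1/pb j) ≤ C' (log w)^{-1/2}`.
The set in the statement is contained in the set of `m ≤ z` coprime to `Q`, of size at most `φ(Q) (z/Q + 1)`
(`Nat.Ico_filter_coprime_le`), that is at most `z φ(Q)/Q + Q`. Take `w = ⌊log z / (2 log 4)⌋`, so `Q ≤ √z`, for `z` large;
then `log w ≥ c (1 + log (1 + log z))` and `√z ≤ C z rho z`. For small `z` the bound is trivial
(`rho z ≥ rho z₁ > 0` for `z ≤ z₁`; the set has at most `z` elements).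
-/

set_option autoImplicit false

namespace Pool.Agent.Helper66.MB

open Finset Pool.Agent.Helper92.GB

/-- `n ↦ 1 / n` as a monoid homomorphism. -/
noncomputable def invHomSV : ℕ →* ℝ where
  toFun n := (n : ℝ)⁻¹
  map_one' := by simp
  map_mul' a b := by push_cast; rw [mul_inv]

lemma invHomSV_apply (n : ℕ) : invHomSV n = (n : ℝ)⁻¹ := rfl

/-- `log N ≤ ∏_{p < N} (1 - 1/p)^{-1}`. -/
lemma log_le_prodSV (N : ℕ) (hN : 2 ≤ N) :
    Real.log N ≤ ∏ p ∈ N.primesBelow, (1 - (p : ℝ)⁻¹)⁻¹ := by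
  classical
  have h := EulerProduct.summable_and_hasSum_smoothNumbers_prod_primesBelow_geometric
    (f := invHomSV) (fun {p} hp => by
      rw [invHomSV_apply, norm_inv, Real.norm_natCast]
      exact inv_lt_one_of_one_lt₀ (by exact_mod_cast hp.one_lt)) N
  have h2 := h.2
  have h3 : ∑ m ∈ (Icc 1 (N - 1)).subtype (· ∈ N.smoothNumbers), invHomSV (m : ℕ)
      ≤ ∏ p ∈ N.primesBelow, (1 - invHomSV p)⁻¹ := by
    refine sum_le_hasSum _ (fun m _ => ?_) h2
    rw [invHomSV_apply]; positivity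
  rw [Finset.sum_subtype_eq_sum_filter, Finset.filter_true_of_mem] at h3
  · refine le_trans ?_ h3
    have h4 := log_add_one_le_harmonic (N - 1)
    rw [show N - 1 + 1 = N by omega, harmonic_eq_sum_Icc] at h4
    refine h4.trans (le_of_eq ?_)
    push_cast
    rfl
  · intro m hm
    rw [mem_Icc] at hm
    exact Nat.mem_smoothNumbers_of_lt (by omega) (by omega)

lemma telescSV (n : ℕ) : ∑ k ∈ range n, (1 : ℝ) / ((k + 2 : ℝ) * (k + 1)) ≤ 1 := by
  have h : ∀ n : ℕ, ∑ k ∈ range n, (1 : ℝ) / ((k + 2 : ℝ) * (k + 1)) = 1 - 1 / (n + 1 : ℝ) := by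
    intro n
    induction n with
    | zero => simp
    | succ n ih =>
      rw [sum_range_succ, ih]
      push_cast
      field_simp
      ring
  rw [h]
  have : (0 : ℝ) ≤ 1 / (n + 1 : ℝ) := by positivity
  linarith

/-- Mertens lower bound. -/
lemma mertensSV (N : ℕ) (hN : 2 ≤ N) :
    Real.log (Real.log N) - 1 ≤ ∑ p ∈ N.primesBelow, (p : ℝ)⁻¹ := by
  have h1 := log_le_prodSV N hN
  have hpos : 0 < Real.log N := Real.log_pos (by exact_mod_cast (by omega : 1 < N))
  have h2 := Real.log_le_log hpos h1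
  have hp2 : ∀ p ∈ N.primesBelow, (2 : ℝ) ≤ p := fun p hp => by
    exact_mod_cast (Nat.prime_of_mem_primesBelow hp).two_le
  rw [Real.log_prod (fun p hp => by
    have := hp2 p hp
    have h3 : (p : ℝ)⁻¹ ≤ 2⁻¹ := by gcongr
    have : 0 < 1 - (p : ℝ)⁻¹ := by norm_num at h3 ⊢; linarith
    positivity)] at h2
  have h3 : ∑ p ∈ N.primesBelow, Real.log (1 - (p : ℝ)⁻¹)⁻¹ ≤
      ∑ p ∈ N.primesBelow, ((p : ℝ)⁻¹ + 1 / ((p : ℝ) * (p - 1))) := by
    refine sum_le_sum fun p hp => ?_
    have h4 := hp2 p hp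
    have h5 : (1 - (p : ℝ)⁻¹)⁻¹ = 1 + 1 / (p - 1) := by
      have : (p : ℝ) - 1 ≠ 0 := by linarith
      field_simp
      ring
    rw [h5]
    have h6 : (0 : ℝ) < p - 1 := by linarith
    have h7 := Real.log_le_sub_one_of_pos (x := 1 + 1 / ((p : ℝ) - 1)) (by positivity)
    refine h7.trans (le_of_eq ?_)
    field_simp
    ring
  rw [sum_add_distrib] at h3
  have h4 : ∑ p ∈ N.primesBelow, 1 / ((p : ℝ) * (p - 1)) ≤ 1 := by
    refine le_trans ?_ (telescSV N)
    have : ∑ k ∈ range N, (1 : ℝ) / ((k + 2 : ℝ) * (k + 1)) =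
        ∑ p ∈ (range N).map (addRightEmbedding 2), 1 / ((p : ℝ) * (p - 1)) := by
      rw [sum_map]
      refine sum_congr rfl fun k _ => ?_
      rw [addRightEmbedding_apply]
      push_cast
      congr 1
      ring
    rw [this]
    refine sum_le_sum_of_subset_of_nonneg ?_ ?_
    · intro p hp
      rw [mem_map]
      have h5 := (Nat.prime_of_mem_primesBelow hp).two_le
      have h6 := Nat.lt_of_mem_primesBelow hp
      exact ⟨p - 2, mem_range.2 (by omega), by rw [addRightEmbedding_apply]; omega⟩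
    · intro p hp _
      rw [mem_map] at hp
      obtain ⟨k, _, rfl⟩ := hp
      rw [addRightEmbedding_apply]
      push_cast
      have : (0 : ℝ) ≤ k := Nat.cast_nonneg k
      have h8 : (0 : ℝ) ≤ (k : ℝ) + 2 - 1 := by linarith
      positivity
  linarith

/-- Sum over the odd indices of an antitone sequence. -/
lemma oddSV (u : ℕ → ℝ) (hu : Antitone u) (h0 : ∀ k, 0 ≤ u k) (J : ℕ) :
    ∑ k ∈ range (2 * J), u k ≤ u 0 + 2 * ∑ i ∈ range J, u (2 * i + 1) := by
  have h1 : ∀ J, ∑ k ∈ range (2 * J), u k =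
      ∑ i ∈ range J, u (2 * i) + ∑ i ∈ range J, u (2 * i + 1) := by
    intro J
    induction J with
    | zero => simp
    | succ J ih =>
      rw [show 2 * (J + 1) = 2 * J + 1 + 1 by ring, sum_range_succ, sum_range_succ, ih,
        sum_range_succ, sum_range_succ]
      ring
  have h2 : ∑ i ∈ range J, u (2 * i) ≤ u 0 + ∑ i ∈ range J, u (2 * i + 1) := by
    have h3 : ∑ i ∈ range J, u (2 * i) ≤ ∑ i ∈ range (J + 1), u (2 * i) :=
      sum_le_sum_of_subset_of_nonneg (range_subset_range.2 (Nat.le_succ J)) fun i _ _ => h0 _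
    rw [sum_range_succ' (fun i => u (2 * i))] at h3
    have : ∑ i ∈ range J, u (2 * (i + 1)) ≤ ∑ i ∈ range J, u (2 * i + 1) :=
      sum_le_sum fun i _ => hu (by omega)
    simp only [mul_zero] at h3
    linarith
  rw [h1]
  linarith

/-- The number of `pb i ≤ w`. -/
noncomputable def JSV (w : ℕ) : ℕ := Nat.count Nat.Prime (w + 1) / 2

lemma pb_leSV {w i : ℕ} (hi : i < JSV w) : pb i ≤ w := by
  unfold JSV at hi
  have h : 2 * i + 1 < Nat.count Nat.Prime (w + 1) := by omega
  have := Nat.nth_lt_of_lt_count h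
  unfold pb; omega

/-- Sum of `1 / pb i` over `pb i ≤ w`. -/
lemma sum_pbSV (w : ℕ) (hw : 2 ≤ w) :
    (Real.log (Real.log w) - 2) / 2 ≤ ∑ i ∈ range (JSV w), ((pb i : ℕ) : ℝ)⁻¹ := by
  set u : ℕ → ℝ := fun k => ((Nat.nth Nat.Prime k : ℕ) : ℝ)⁻¹ with hu
  have hanti : Antitone u := by
    intro a b hab
    have h1 : 0 < Nat.nth Nat.Prime a := (Nat.prime_nth_prime a).pos
    have h2 := Nat.nth_monotone Nat.infinite_setOfPred_prime hab
    simp only [hu]
    gcongr
  have h0 : ∀ k, 0 ≤ u k := fun k => by positivity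
  have h1 := oddSV u hanti h0 (JSV w)
  have h2 : ∑ p ∈ (w + 1).primesBelow, (p : ℝ)⁻¹ = ∑ k ∈ range (Nat.count Nat.Prime (w + 1)), u k := by
    have : (w + 1).primesBelow = (range (Nat.count Nat.Prime (w + 1))).image (Nat.nth Nat.Prime) := by
      ext p
      rw [Nat.mem_primesBelow, mem_image]
      constructor
      · rintro ⟨h3, h4⟩
        refine ⟨Nat.count Nat.Prime p, mem_range.2 ?_, Nat.nth_count h4⟩
        exact Nat.count_strict_mono h4 h3
      · rintro ⟨k, hk, rfl⟩
        exact ⟨Nat.nth_lt_of_lt_count (mem_range.1 hk), Nat.prime_nth_prime k⟩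
    rw [this, sum_image]
    intro a _ b _ h
    exact Nat.nth_injective Nat.infinite_setOfPred_prime h
  have h3 := mertensSV (w + 1) (by omega)
  rw [h2] at h3
  have h4 : ∑ k ∈ range (Nat.count Nat.Prime (w + 1)), u k ≤ ∑ k ∈ range (2 * JSV w), u k + u 0 := by
    have h5 : Nat.count Nat.Prime (w + 1) = 2 * JSV w ∨ Nat.count Nat.Prime (w + 1) = 2 * JSV w + 1 := by
      unfold JSV; omega
    rcases h5 with h5 | h5
    · rw [h5]; linarith [h0 0]
    · rw [h5, sum_range_succ]; linarith [hanti (Nat.zero_le (2 * JSV w))]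
  have h5 : u 0 = 1 / 2 := by simp [hu, Nat.nth_prime_zero_eq_two]
  have h6 : Real.log (Real.log w) ≤ Real.log (Real.log ((w + 1 : ℕ) : ℝ)) := by
    have : 0 < Real.log w := Real.log_pos (by exact_mod_cast (by omega : 1 < w))
    refine Real.log_le_log this (Real.log_le_log (by positivity) ?_)
    push_cast; linarith
  have h7 : ∑ i ∈ range (JSV w), u (2 * i + 1) = ∑ i ∈ range (JSV w), ((pb i : ℕ) : ℝ)⁻¹ := rfl
  rw [h7] at h1
  linarith

/-- The product of the `pb i ≤ w`. -/
noncomputable def QSV (w : ℕ) : ℕ := ∏ p ∈ (range (JSV w)).image pb, p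

lemma QSV_le (w : ℕ) : QSV w ≤ 4 ^ w := by
  refine le_trans ?_ (primorial_le_four_pow w)
  unfold QSV primorial
  refine prod_le_prod_of_subset_of_one_le' ?_ ?_
  · intro p hp
    rw [mem_image] at hp
    obtain ⟨i, hi, rfl⟩ := hp
    rw [mem_filter, mem_range]
    exact ⟨by have := pb_leSV (mem_range.1 hi); omega, pb_prime i⟩
  · intro p hp _
    exact (mem_filter.1 hp).2.pos

lemma QSV_pos (w : ℕ) : 0 < QSV w := by
  unfold QSV
  refine prod_pos fun p hp => ?_
  rw [mem_image] at hp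
  obtain ⟨i, _, rfl⟩ := hp
  exact (pb_prime i).pos

/-- `φ(Q) / Q` is small. -/
lemma totSV (w : ℕ) (hw : 3 ≤ w) :
    (Nat.totient (QSV w) : ℝ) ≤ QSV w * (Real.exp 1 / Real.sqrt (Real.log w)) := by
  have h1 := Nat.totient_eq_mul_prod_factors (QSV w)
  have hpr : ∀ p ∈ (range (JSV w)).image pb, p.Prime := by
    intro p hp
    rw [mem_image] at hp
    obtain ⟨i, _, rfl⟩ := hp
    exact pb_prime i
  rw [show (QSV w).primeFactors = (range (JSV w)).image pb from Nat.primeFactors_prod hpr,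
    prod_image (fun a _ b _ h => pb_strictMono.injective h)] at h1
  have h2 : (Nat.totient (QSV w) : ℝ) = QSV w * ∏ i ∈ range (JSV w), (1 - ((pb i : ℕ) : ℝ)⁻¹) := by
    have h3 := congrArg (fun q : ℚ => (q : ℝ)) h1
    push_cast at h3
    exact h3
  rw [h2]
  refine mul_le_mul_of_nonneg_left ?_ (Nat.cast_nonneg _)
  have h3 : ∏ i ∈ range (JSV w), (1 - ((pb i : ℕ) : ℝ)⁻¹) ≤
      ∏ i ∈ range (JSV w), Real.exp (-((pb i : ℕ) : ℝ)⁻¹) := by
    refine prod_le_prod (fun i _ => ?_) fun i _ => ?_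
    · have : (1 : ℝ) ≤ pb i := by exact_mod_cast (pb_prime i).one_lt.le
      have := inv_le_one_of_one_le₀ this
      linarith
    · have := Real.add_one_le_exp (-((pb i : ℕ) : ℝ)⁻¹)
      linarith
  refine h3.trans ?_
  rw [← Real.exp_sum, sum_neg_distrib]
  have h4 := sum_pbSV w (by omega)
  have hlog : 0 < Real.log w := Real.log_pos (by exact_mod_cast (by omega : 1 < w))
  have h5 : Real.exp 1 / Real.sqrt (Real.log w) = Real.exp (1 - Real.log (Real.log w) / 2) := by
    rw [Real.exp_sub, Real.sqrt_eq_rpow, Real.rpow_def_of_pos hlog]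
    congr 2
    ring
  rw [h5]
  exact Real.exp_le_exp.2 (by linarith)

theorem sieve : ∃ C : ℝ, 0 < C ∧ ∀ z : ℕ, 1 ≤ z →
    open Classical in
    (((Icc 1 z).filter (fun m => ∀ i, ¬ pb i ∣ m)).card : ℝ) ≤ C * z * rho z := by
  classical
  refine ⟨2 * Real.exp 1 + 2, by positivity, fun z hz => ?_⟩
  have hz1 : (1 : ℝ) ≤ z := by exact_mod_cast hz
  have hL0 : 0 ≤ Real.log z := Real.log_nonneg hz1
  have hin : 0 < 1 + Real.log (1 + Real.log z) := by
    have := Real.log_nonneg (x := 1 + Real.log z) (by linarith)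
    linarith
  have hs : 0 < Real.sqrt (1 + Real.log (1 + Real.log z)) := Real.sqrt_pos.2 hin
  have hrho : rho z = 1 / Real.sqrt (1 + Real.log (1 + Real.log z)) := by
    unfold rho; rw [one_div]
  rcases le_or_gt (Real.log z) 10 with hL | hL
  · -- small z
    have h1 : (((Icc 1 z).filter (fun m => ∀ i, ¬ pb i ∣ m)).card : ℝ) ≤ z := by
      have := card_filter_le (Icc 1 z) (fun m => ∀ i, ¬ pb i ∣ m)
      rw [Nat.card_Icc] at this
      exact_mod_cast this.trans (by omega)
    have h2 : Real.sqrt (1 + Real.log (1 + Real.log z)) ≤ 2 := by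
      rw [show (2 : ℝ) = Real.sqrt 4 by
        rw [show (4 : ℝ) = 2 ^ 2 by norm_num, Real.sqrt_sq (by norm_num)]]
      refine Real.sqrt_le_sqrt ?_
      have h3 : Real.log (1 + Real.log z) ≤ Real.log 20 :=
        Real.log_le_log (by linarith) (by linarith)
      have h4 : Real.log 20 ≤ 3 := by
        rw [Real.log_le_iff_le_exp (by norm_num)]
        have h5 : (2.7182818283 : ℝ) < Real.exp 1 := Real.exp_one_gt_d9
        have h6 : Real.exp 3 = Real.exp 1 ^ 3 := by rw [← Real.exp_nat_mul]; norm_num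
        rw [h6]
        calc (20 : ℝ) ≤ 2.7182818283 ^ 3 := by norm_num
          _ ≤ _ := by gcongr
      linarith
    have h3 : 1 / 2 ≤ rho z := by
      rw [hrho]
      exact one_div_le_one_div_of_le hs h2
    have he : 0 < Real.exp 1 := Real.exp_pos 1
    calc (((Icc 1 z).filter (fun m => ∀ i, ¬ pb i ∣ m)).card : ℝ) ≤ z := h1
      _ = 2 * z * (1 / 2) := by ring
      _ ≤ 2 * z * rho z := by gcongr
      _ ≤ (2 * Real.exp 1 + 2) * z * rho z := by
        have : 0 ≤ rho z := by linarith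
        gcongr
        linarith
  · -- large z
    set L := Real.log z with hLdef
    set w : ℕ := ⌊L / (2 * Real.log 4)⌋₊ with hw
    have hl4 : Real.log 4 = 2 * Real.log 2 := by
      rw [show (4 : ℝ) = 2 ^ 2 by norm_num, Real.log_pow]; norm_num
    have hl4a : Real.log 4 < 1.3863 := by rw [hl4]; linarith [Real.log_two_lt_d9]
    have hl4b : 0 < Real.log 4 := Real.log_pos (by norm_num)
    have hw1 : (w : ℝ) ≤ L / (2 * Real.log 4) := Nat.floor_le (by positivity)
    have hw2 : L / 4 ≤ w := by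
      have h1 : L / (2 * Real.log 4) < w + 1 := Nat.lt_floor_add_one _
      have h2 : L / (2 * 1.3863) ≤ L / (2 * Real.log 4) := by gcongr
      have h3 : L / 4 + 1 ≤ L / (2 * 1.3863) := by
        rw [le_div_iff₀ (by norm_num)]; nlinarith
      linarith
    have hw3 : 3 ≤ w := by
      have : (2 : ℝ) < w := by linarith
      exact_mod_cast this
    have hQ : (QSV w : ℝ) ≤ Real.sqrt z := by
      have h1 : (QSV w : ℝ) ≤ 4 ^ w := by exact_mod_cast QSV_le w
      refine h1.trans ?_
      rw [← Real.rpow_natCast, Real.rpow_def_of_pos (by norm_num), Real.sqrt_eq_rpow,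
        Real.rpow_def_of_pos (by linarith)]
      refine Real.exp_le_exp.2 ?_
      rw [le_div_iff₀ (by positivity)] at hw1
      rw [← hLdef]
      linarith
    have hcount : (((Icc 1 z).filter (fun m => ∀ i, ¬ pb i ∣ m)).card : ℝ) ≤
        z * (Real.exp 1 / Real.sqrt (Real.log w)) + QSV w := by
      have h1 : ((Icc 1 z).filter (fun m => ∀ i, ¬ pb i ∣ m)).card ≤
          Nat.totient (QSV w) * (z / QSV w + 1) := by
        refine le_trans (card_le_card ?_) (Nat.Ico_filter_coprime_le 1 z (QSV_pos w).ne')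
        intro m hm
        rw [mem_filter, mem_Icc] at hm
        rw [mem_filter, mem_Ico]
        refine ⟨by omega, ?_⟩
        unfold QSV
        refine Nat.Coprime.prod_left fun p hp => ?_
        rw [mem_image] at hp
        obtain ⟨i, _, rfl⟩ := hp
        exact (Nat.Prime.coprime_iff_not_dvd (pb_prime i)).2 (hm.2 i)
      have h2 : (((Icc 1 z).filter (fun m => ∀ i, ¬ pb i ∣ m)).card : ℝ) ≤
          Nat.totient (QSV w) * ((z / QSV w : ℕ) + 1) := by exact_mod_cast h1
      have hQp : (0 : ℝ) < QSV w := by exact_mod_cast QSV_pos w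
      have h3 : ((z / QSV w : ℕ) : ℝ) ≤ z / QSV w := Nat.cast_div_le
      have h4 := totSV w hw3
      have h5 : (Nat.totient (QSV w) : ℝ) ≤ QSV w := by exact_mod_cast Nat.totient_le _
      have h6 : (0 : ℝ) ≤ z / QSV w := by positivity
      calc _ ≤ (Nat.totient (QSV w) : ℝ) * ((z / QSV w : ℕ) + 1) := h2
        _ ≤ Nat.totient (QSV w) * (z / QSV w + 1) := by gcongr
        _ = Nat.totient (QSV w) * (z / QSV w) + Nat.totient (QSV w) := by ring
        _ ≤ QSV w * (Real.exp 1 / Real.sqrt (Real.log w)) * (z / QSV w) + QSV w := by gcongr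
        _ = z * (Real.exp 1 / Real.sqrt (Real.log w)) + QSV w := by field_simp
    have hlogw : (1 + Real.log (1 + L)) / 4 ≤ Real.log w := by
      have h1 : Real.log (L / 4) ≤ Real.log w := Real.log_le_log (by positivity) hw2
      have h2 : 1 + Real.log (1 + L) ≤ 4 * Real.log (L / 4) := by
        have h3 : 4 * Real.log (L / 4) = Real.log ((L / 4) ^ 4) := by rw [Real.log_pow]; norm_num
        have h4 : 1 + Real.log (1 + L) = Real.log (Real.exp 1 * (1 + L)) := by
          rw [Real.log_mul (Real.exp_pos 1).ne' (by linarith), Real.log_exp]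
        rw [h3, h4]
        refine Real.log_le_log (by positivity) ?_
        have h5 : Real.exp 1 < 2.7182818286 := Real.exp_one_lt_d9
        have h6 : (15 : ℝ) ≤ (L / 4) ^ 3 := by
          calc (15 : ℝ) ≤ (2.5 : ℝ) ^ 3 := by norm_num
            _ ≤ (L / 4) ^ 3 := by gcongr; linarith
        calc Real.exp 1 * (1 + L) ≤ 2.7182818286 * (1 + L) := by gcongr
          _ ≤ (L / 4) * 15 := by nlinarith
          _ ≤ (L / 4) * (L / 4) ^ 3 := by gcongr
          _ = (L / 4) ^ 4 := by ring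
      linarith
    have hsq : 1 / Real.sqrt (Real.log w) ≤ 2 * rho z := by
      have h1 : Real.sqrt ((1 + Real.log (1 + L)) / 4) ≤ Real.sqrt (Real.log w) :=
        Real.sqrt_le_sqrt hlogw
      have h2 : Real.sqrt ((1 + Real.log (1 + L)) / 4) = Real.sqrt (1 + Real.log (1 + L)) / 2 := by
        rw [Real.sqrt_div hin.le, show (4 : ℝ) = 2 ^ 2 by norm_num, Real.sqrt_sq (by norm_num)]
      rw [h2] at h1
      rw [hrho]
      calc 1 / Real.sqrt (Real.log w) ≤ 1 / (Real.sqrt (1 + Real.log (1 + L)) / 2) :=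
            one_div_le_one_div_of_le (by positivity) h1
        _ = 2 * (1 / Real.sqrt (1 + Real.log (1 + L))) := by field_simp
    have hsz : Real.sqrt z ≤ z * rho z := by
      rw [hrho, mul_one_div, le_div_iff₀ hs, ← Real.sqrt_mul (by linarith)]
      have h1 : 1 + Real.log (1 + L) ≤ z := by
        have h2 : Real.log (1 + L) ≤ L := by
          have := Real.log_le_sub_one_of_pos (x := 1 + L) (by linarith)
          linarith
        have h3 : L + 1 ≤ z := by
          have := Real.add_one_le_exp L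
          rwa [hLdef, Real.exp_log (by linarith)] at this
        linarith
      calc Real.sqrt (z * (1 + Real.log (1 + L))) ≤ Real.sqrt (z * z) := by gcongr
        _ = z := Real.sqrt_mul_self (by linarith)
    have he : 0 < Real.exp 1 := Real.exp_pos 1
    have hr0 : 0 ≤ rho z := by rw [hrho]; positivity
    calc (((Icc 1 z).filter (fun m => ∀ i, ¬ pb i ∣ m)).card : ℝ)
        ≤ z * (Real.exp 1 / Real.sqrt (Real.log w)) + QSV w := hcount
      _ = z * (Real.exp 1 * (1 / Real.sqrt (Real.log w))) + QSV w := by rw [mul_one_div]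
      _ ≤ z * (Real.exp 1 * (2 * rho z)) + z * rho z := by
        have := hQ.trans hsz
        gcongr
      _ ≤ (2 * Real.exp 1 + 2) * z * rho z := by nlinarith [mul_nonneg (by linarith : (0:ℝ) ≤ z) hr0]

end Pool.Agent.Helper66.MB
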