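import Pool.Agent.Helper66.MB.Basic

/-!
# Block MB-PS (MP_a499ba_nt)

From the blocks `HH A k` to the property `PS` of the sign function `sgn ω`.

Proof. Every prime is `pa i` or `pb i` for exactly one `i` (`prime_cases`, `pa_ne_pb`, strict monotonicity), and
`sgn ω (pa i) = ω i`, `sgn ω (pb i) = - ω i`. So for every `y`, with `v i = (if pa i ≤ y then χ (pa i) * npi (pa i) t else 0)
- (if pb i ≤ y then ... )`, `∑_{p ≤ y prime} sgn ω p χ(p) p^{it} = ∑_{i < y} ω i v i` (pairs with `i ≥ y` have `pa i > y`,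
`lt_pa`) `= ∑_{k : 2^k < y} ∑_{i ∈ S_k} ω i v i`, `S_k` the index set in `HH` (`2^k < pa i ≤ 2^(k+1)`, every `i` is in
exactly one `S_k` because `pa i ≥ 2`; `S_k ⊆ range (2^(k+1))` by `lt_pa`). For `k < k₁` use the trivial bound
`2 |S_k| ≤ 2 * 2^(k+1)`; for `k₁ ≤ k`, `2^k < y`, use `HH`: `≤ A √(2^k) √(log(q(2+|t|))) √(k+1)`. The sum over `k` with
`2^k < y` is at most `A √(log(q(2+|t|))) √(1 + log₂ y) · 4 √y`. Since `log(q(2+|t|)) ≥ log 2 > 0`, `√l ≤ l/√(log 2)` for
`l ≥ log 2`, and `√(1+log₂ y) ≤ C_ε y^ε`, this gives `PS`. For `y = 0` both sides are `0`.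
-/

set_option autoImplicit false

namespace Pool.Agent.Helper66.MB

open Finset Pool.Agent.Helper92.GB

namespace PS30

lemma norm_npi {n : ℕ} (hn : 1 ≤ n) (t : ℝ) : ‖npi n t‖ = 1 := by
  unfold npi
  rw [Complex.norm_natCast_cpow_of_pos hn]
  simp

/-- sum over the primes up to `y` in pairs -/
lemma sum_primes (G : ℕ → ℂ) (y : ℕ) :
    ∑ p ∈ (Icc 1 y).filter Nat.Prime, G p =
      ∑ i ∈ range y, ((if pa i ≤ y then G (pa i) else 0) + (if pb i ≤ y then G (pb i) else 0)) := by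
  classical
  have h1 : (Icc 1 y).filter Nat.Prime =
      ((range y).filter fun i => pa i ≤ y).image pa ∪ ((range y).filter fun i => pb i ≤ y).image pb := by
    ext p
    simp only [mem_filter, mem_Icc, mem_union, mem_image, mem_range]
    constructor
    · rintro ⟨⟨h1, h2⟩, hp⟩
      obtain ⟨i, rfl | rfl⟩ := prime_cases hp
      · exact Or.inl ⟨i, ⟨by have := lt_pa i; omega, h2⟩, rfl⟩
      · exact Or.inr ⟨i, ⟨by have := lt_pa i; have := pa_lt_pb i; omega, h2⟩, rfl⟩
    · rintro (⟨i, ⟨h1, h2⟩, rfl⟩ | ⟨i, ⟨h1, h2⟩, rfl⟩)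
      · exact ⟨⟨(pa_prime i).pos, h2⟩, pa_prime i⟩
      · exact ⟨⟨(pb_prime i).pos, h2⟩, pb_prime i⟩
  have h2 : Disjoint (((range y).filter fun i => pa i ≤ y).image pa)
      (((range y).filter fun i => pb i ≤ y).image pb) := by
    rw [Finset.disjoint_left]
    intro p hp hp'
    obtain ⟨i, -, rfl⟩ := mem_image.1 hp
    obtain ⟨j, -, h⟩ := mem_image.1 hp'
    exact pa_ne_pb i j h.symm
  rw [h1, sum_union h2, sum_image (fun a _ b _ h => pa_strictMono.injective h),
    sum_image (fun a _ b _ h => pb_strictMono.injective h), sum_filter, sum_filter,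
    ← sum_add_distrib]

lemma geo (K : ℕ) : ∑ k ∈ range K, Real.sqrt 2 ^ k ≤ 3 * Real.sqrt 2 ^ K := by
  induction K with
  | zero => simp
  | succ K ih =>
    rw [sum_range_succ]
    have h1 : (4 / 3 : ℝ) ≤ Real.sqrt 2 := by
      rw [Real.le_sqrt (by norm_num) (by norm_num)]
      norm_num
    have h2 : 0 ≤ Real.sqrt 2 ^ K := by positivity
    have h3 : Real.sqrt 2 ^ K * (4 / 3) ≤ Real.sqrt 2 ^ K * Real.sqrt 2 :=
      mul_le_mul_of_nonneg_left h1 h2
    rw [pow_succ]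
    linarith

lemma sqrt_two_pow (k : ℕ) : Real.sqrt (2 ^ k) = Real.sqrt 2 ^ k := by
  rw [Real.sqrt_eq_iff_mul_self_eq (by positivity) (by positivity), ← mul_pow,
    Real.mul_self_sqrt (by norm_num)]

end PS30

open PS30 in
theorem PS_of_HH (A : ℝ) (k₁ : ℕ) (ω : ℕ → ℤˣ) (h : ∀ k : ℕ, k₁ ≤ k → HH A k ω) : PS (sgn ω) := by
  classical
  intro ε hε
  set B : ℝ := |A| + 8 * 2 ^ k₁ with hB
  have hB0 : 0 ≤ B := by positivity
  have hlog2 : (1 / 2 : ℝ) ≤ Real.log 2 := by
    have := Real.log_two_gt_d9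
    linarith
  set D : ℝ := Real.sqrt (2 * ε * Real.log 2) with hD
  have hD0 : 0 < D := Real.sqrt_pos.2 (by positivity)
  refine ⟨B * (3 * Real.sqrt 2) * 2 * (2 ^ ε / D), fun q χ t y hq => ?_⟩
  set L : ℝ := Real.log (q * (2 + |t|)) with hL
  have hL2 : Real.log 2 ≤ L := by
    refine Real.log_le_log (by norm_num) ?_
    have h1 : (1 : ℝ) ≤ q := by exact_mod_cast hq
    have h2 := abs_nonneg t
    have h3 : 1 * 2 ≤ (q : ℝ) * (2 + |t|) := mul_le_mul h1 (by linarith) (by norm_num) (by linarith)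
    linarith
  have hL0 : 0 < L := by linarith
  rcases Nat.eq_zero_or_pos y with hy | hy
  · subst hy
    simp only [Nat.cast_zero, zero_lt_one, Icc_eq_empty_of_lt, filter_empty, sum_empty, norm_zero]
    positivity
  have hyR : (1 : ℝ) ≤ y := by exact_mod_cast hy
  set v : ℕ → ℂ := fun i => (if pa i ≤ y then χ (pa i : ZMod q) * npi (pa i) t else 0) -
          (if pb i ≤ y then χ (pb i : ZMod q) * npi (pb i) t else 0) with hv
  have hv0 : ∀ i, y < pa i → v i = 0 := by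
    intro i hi
    have h1 := pa_lt_pb i
    simp only [hv]
    rw [if_neg (by omega), if_neg (by omega), sub_zero]
  have hterm : ∀ n : ℕ, 1 ≤ n → ‖(if n ≤ y then χ (n : ZMod q) * npi n t else 0)‖ ≤ 1 := by
    intro n hn
    split_ifs
    · rw [norm_mul, norm_npi hn, mul_one]
      exact DirichletCharacter.norm_le_one χ _
    · simp
  have hv2 : ∀ i, ‖((ω i : ℤ) : ℂ) * v i‖ ≤ 2 := by
    intro i
    have h1 : ‖((ω i : ℤ) : ℂ)‖ = 1 := by
      rcases Int.units_eq_one_or (ω i) with h | h <;> simp [h]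
    rw [norm_mul, h1, one_mul]
    simp only [hv]
    refine (norm_sub_le _ _).trans ?_
    have h2 := hterm (pa i) (pa_prime i).pos
    have h3 := hterm (pb i) (pb_prime i).pos
    linarith
  -- the sum in pairs
  have h1 : ∑ p ∈ (Icc 1 y).filter Nat.Prime, ((sgn ω p : ℤ) : ℂ) * χ (p : ZMod q) * npi p t =
      ∑ i ∈ range y, ((ω i : ℤ) : ℂ) * v i := by
    rw [sum_primes (fun p => ((sgn ω p : ℤ) : ℂ) * χ (p : ZMod q) * npi p t)]
    refine sum_congr rfl fun i _ => ?_
    simp only [hv, sgn_pa, sgn_pb]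
    split_ifs <;> push_cast <;> ring
  rw [h1]
  set K : ℕ := Nat.clog 2 y with hK
  have hyK : y ≤ 2 ^ K := Nat.le_pow_clog (by norm_num) y
  have hKy : 2 ^ K < 2 * y := by
    rcases Nat.lt_or_ge 1 y with h2 | h2
    · have h3 := Nat.pow_pred_clog_lt_self (b := 2) (by norm_num) h2
      rw [← hK] at h3
      have h4 : 0 < K := Nat.clog_pos (by norm_num) h2
      obtain ⟨m, hm⟩ : ∃ m, K = m + 1 := ⟨K - 1, by omega⟩
      rw [hm] at h3 ⊢
      rw [Nat.pred_succ] at h3
      rw [pow_succ]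
      omega
    · have h3 : y = 1 := by omega
      rw [hK, h3]
      simp
  set S : ℕ → Finset ℕ := fun k =>
    (range (2 ^ (k + 1))).filter (fun i => 2 ^ k < pa i ∧ pa i ≤ 2 ^ (k + 1)) with hS
  have hmemS : ∀ k i, i ∈ S k ↔ 2 ^ k < pa i ∧ pa i ≤ 2 ^ (k + 1) := by
    intro k i
    simp only [hS, mem_filter, mem_range]
    constructor
    · exact fun h => h.2
    · intro h
      have := lt_pa i
      exact ⟨by omega, h⟩
  have hdisj : ∀ k ∈ range K, ∀ k' ∈ range K, k ≠ k' → Disjoint (S k) (S k') := by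
    intro k _ k' _ hkk
    rw [Finset.disjoint_left]
    intro i hi hi'
    rw [hmemS] at hi hi'
    have a1 : (2 : ℕ) ^ k < 2 ^ (k' + 1) := by omega
    have a2 : (2 : ℕ) ^ k' < 2 ^ (k + 1) := by omega
    rw [Nat.pow_lt_pow_iff_right (by norm_num)] at a1 a2
    omega
  have hsplit : ∑ i ∈ range y, ((ω i : ℤ) : ℂ) * v i =
      ∑ k ∈ range K, ∑ i ∈ S k, ((ω i : ℤ) : ℂ) * v i := by
    rw [← sum_biUnion hdisj]
    refine sum_congr_of_eq_on_inter ?_ ?_ ?_
    · intro i _ hi2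
      have h3 : y < pa i := by
        by_contra h4
        rw [not_lt] at h4
        refine hi2 ?_
        rw [mem_biUnion]
        have h5 : 1 < pa i := two_le_pa i
        have h6 := Nat.pow_pred_clog_lt_self (b := 2) (by norm_num) h5
        have h7 := Nat.le_pow_clog (b := 2) (by norm_num) (pa i)
        have h8 : 0 < Nat.clog 2 (pa i) := Nat.clog_pos (by norm_num) h5
        obtain ⟨m, hm⟩ : ∃ m, Nat.clog 2 (pa i) = m + 1 := ⟨Nat.clog 2 (pa i) - 1, by omega⟩
        rw [hm] at h6 h7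
        rw [Nat.pred_succ] at h6
        refine ⟨m, ?_, (hmemS m i).2 ⟨h6, h7⟩⟩
        rw [mem_range]
        have h9 : (2 : ℕ) ^ m < 2 ^ K := by omega
        exact (Nat.pow_lt_pow_iff_right (by norm_num)).1 h9
      rw [hv0 i h3, mul_zero]
    · intro i _ hi2
      rw [mem_range] at hi2
      have := lt_pa i
      rw [hv0 i (by omega), mul_zero]
    · intro i _ _
      rfl
  rw [hsplit]
  have hblock : ∀ k, ‖∑ i ∈ S k, ((ω i : ℤ) : ℂ) * v i‖ ≤
      B * Real.sqrt 2 ^ k * Real.sqrt (L * (k + 1)) := by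
    intro k
    have hk0 : (0 : ℝ) ≤ k := Nat.cast_nonneg k
    have hLk : 1 / 2 ≤ L * (k + 1) := by
      have : L * 1 ≤ L * (k + 1) := mul_le_mul_of_nonneg_left (by linarith) hL0.le
      linarith
    have hs0 : 0 < Real.sqrt 2 ^ k := by positivity
    rcases lt_or_ge k k₁ with hk | hk
    · have a1 : ‖∑ i ∈ S k, ((ω i : ℤ) : ℂ) * v i‖ ≤ (S k).card * 2 := by
        refine (norm_sum_le _ _).trans ?_
        refine (sum_le_card_nsmul _ _ 2 fun i _ => hv2 i).trans ?_
        rw [nsmul_eq_mul]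
      have a2 : ((S k).card : ℝ) ≤ 2 ^ (k + 1) := by
        have : (S k).card ≤ 2 ^ (k + 1) := (card_filter_le _ _).trans (card_range _).le
        exact_mod_cast this
      have a3 : (1 / 2 : ℝ) ≤ Real.sqrt (L * (k + 1)) := by
        rw [Real.le_sqrt (by norm_num) (by linarith)]
        linarith
      have a4 : (2 : ℝ) ^ k = Real.sqrt 2 ^ k * Real.sqrt 2 ^ k := by
        rw [← mul_pow, Real.mul_self_sqrt (by norm_num)]
      have a5 : Real.sqrt 2 ^ k ≤ 2 ^ k₁ := by
        calc Real.sqrt 2 ^ k ≤ 2 ^ k := by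
              refine pow_le_pow_left₀ (Real.sqrt_nonneg _) ?_ k
              rw [Real.sqrt_le_left (by norm_num)]
              norm_num
          _ ≤ 2 ^ k₁ := pow_le_pow_right₀ (by norm_num) hk.le
      have a6 : (2 : ℝ) ^ k ≤ 2 ^ k₁ * Real.sqrt 2 ^ k := by
        rw [a4]
        exact mul_le_mul_of_nonneg_right a5 hs0.le
      have a7 : 8 * 2 ^ k₁ * Real.sqrt 2 ^ k ≤ B * Real.sqrt 2 ^ k := by
        refine mul_le_mul_of_nonneg_right ?_ hs0.le
        rw [hB]
        have := abs_nonneg A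
        linarith
      calc ‖∑ i ∈ S k, ((ω i : ℤ) : ℂ) * v i‖ ≤ (S k).card * 2 := a1
        _ ≤ 4 * 2 ^ k := by rw [pow_succ] at a2; linarith
        _ ≤ 8 * 2 ^ k₁ * Real.sqrt 2 ^ k * (1 / 2) := by linarith
        _ ≤ B * Real.sqrt 2 ^ k * (1 / 2) := mul_le_mul_of_nonneg_right a7 (by norm_num)
        _ ≤ B * Real.sqrt 2 ^ k * Real.sqrt (L * (k + 1)) :=
            mul_le_mul_of_nonneg_left a3 (by positivity)
    · have a1 := h k hk q χ t y hq
      refine a1.trans ?_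
      rw [sqrt_two_pow]
      refine mul_le_mul_of_nonneg_right (mul_le_mul_of_nonneg_right ?_ hs0.le)
        (Real.sqrt_nonneg _)
      rw [hB]
      have a2 := le_abs_self A
      have a3 : (0 : ℝ) ≤ 8 * 2 ^ k₁ := by positivity
      linarith
  -- sum over `k`
  have hsum : ‖∑ k ∈ range K, ∑ i ∈ S k, ((ω i : ℤ) : ℂ) * v i‖ ≤
      B * (3 * Real.sqrt 2 ^ K) * Real.sqrt (L * K) := by
    refine (norm_sum_le _ _).trans ?_
    calc ∑ k ∈ range K, ‖∑ i ∈ S k, ((ω i : ℤ) : ℂ) * v i‖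
        ≤ ∑ k ∈ range K, (B * Real.sqrt (L * K)) * Real.sqrt 2 ^ k := by
          refine sum_le_sum fun k hk => ?_
          refine (hblock k).trans ?_
          have b1 : (k : ℝ) + 1 ≤ K := by
            rw [mem_range] at hk
            exact_mod_cast hk
          have b2 : Real.sqrt (L * (k + 1)) ≤ Real.sqrt (L * K) :=
            Real.sqrt_le_sqrt (mul_le_mul_of_nonneg_left b1 hL0.le)
          calc B * Real.sqrt 2 ^ k * Real.sqrt (L * (k + 1))
              ≤ B * Real.sqrt 2 ^ k * Real.sqrt (L * K) :=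
                mul_le_mul_of_nonneg_left b2 (by positivity)
            _ = (B * Real.sqrt (L * K)) * Real.sqrt 2 ^ k := by ring
      _ = (B * Real.sqrt (L * K)) * ∑ k ∈ range K, Real.sqrt 2 ^ k := by rw [mul_sum]
      _ ≤ (B * Real.sqrt (L * K)) * (3 * Real.sqrt 2 ^ K) :=
          mul_le_mul_of_nonneg_left (geo K) (by positivity)
      _ = _ := by ring
  refine hsum.trans ?_
  have h2yp : (0 : ℝ) < 2 * y := by linarith
  have hKy' : (2 : ℝ) ^ K ≤ 2 * y := by exact_mod_cast hKy.le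
  have c1 : Real.sqrt 2 ^ K ≤ Real.sqrt 2 * Real.sqrt y := by
    rw [← sqrt_two_pow, ← Real.sqrt_mul (by norm_num)]
    exact Real.sqrt_le_sqrt hKy'
  have c2 : (K : ℝ) ≤ (2 * y) ^ (2 * ε) / (2 * ε * Real.log 2) := by
    rw [le_div_iff₀ (by positivity)]
    have d1 : (K : ℝ) * Real.log 2 ≤ Real.log (2 * y) := by
      rw [← Real.log_pow]
      exact Real.log_le_log (by positivity) hKy'
    have d2 := Real.log_le_rpow_div (x := 2 * (y : ℝ)) h2yp.le (ε := 2 * ε) (by linarith)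
    rw [le_div_iff₀ (by linarith)] at d2
    have d3 : (K : ℝ) * Real.log 2 * (2 * ε) ≤ Real.log (2 * y) * (2 * ε) :=
      mul_le_mul_of_nonneg_right d1 (by linarith)
    linarith
  have c3 : Real.sqrt K ≤ 2 ^ ε * (y : ℝ) ^ ε / D := by
    have d1 := Real.sqrt_le_sqrt c2
    rw [Real.sqrt_div (by positivity), ← hD] at d1
    have d2 : Real.sqrt ((2 * (y : ℝ)) ^ (2 * ε)) = 2 ^ ε * (y : ℝ) ^ ε := by
      rw [Real.sqrt_eq_rpow, ← Real.rpow_mul h2yp.le, ← Real.mul_rpow (by norm_num) (by linarith)]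
      congr 1
      ring
    rwa [d2] at d1
  have c4 : Real.sqrt L ≤ 2 * L := by
    rw [Real.sqrt_le_left (by linarith)]
    have : (1 / 2) * L ≤ L * L := mul_le_mul_of_nonneg_right (by linarith) hL0.le
    have e1 : (2 * L) ^ 2 = 4 * (L * L) := by ring
    rw [e1]
    linarith
  have c5 : (y : ℝ) ^ (1 / 2 + ε) = Real.sqrt y * (y : ℝ) ^ ε := by
    rw [Real.rpow_add (by linarith), Real.sqrt_eq_rpow]
  rw [Real.sqrt_mul hL0.le, c5]
  calc B * (3 * Real.sqrt 2 ^ K) * (Real.sqrt L * Real.sqrt K)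
      ≤ B * (3 * (Real.sqrt 2 * Real.sqrt y)) * ((2 * L) * (2 ^ ε * (y : ℝ) ^ ε / D)) := by
        refine mul_le_mul ?_ ?_ (by positivity) (by positivity)
        · exact mul_le_mul_of_nonneg_left (mul_le_mul_of_nonneg_left c1 (by norm_num)) hB0
        · exact mul_le_mul c4 c3 (Real.sqrt_nonneg _) (by linarith)
    _ = B * (3 * Real.sqrt 2) * 2 * (2 ^ ε / D) * (Real.sqrt y * (y : ℝ) ^ ε) * L := by ring

end Pool.Agent.Helper66.MB
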