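import Pool.Agent.Helper66.MB.CountU

/-!
# Block MB-SU (MP_a499ba_nt)

(Imported statements may be used while they are still `sorry`.)

Proof. Write `q(U) = ∏_{i ∈ U} pa i pb i` and `w(U) = ∏ (1 + 2 tht i)`. For `j = 0, 1, 2, ...` with `2^j ≤ x` let the shell `j` consist of the
`U` with `2^j ≤ x / q(U) < 2^(j+1)`. On the shell `√(x/q) kap(x/q) ≤ √(2^(j+1)) kap(2^j)`, `kap(2^j) = (1 + j log 2)^{-2}`, and
`q(U) ≤ x / 2^j`, so by `countU` the sum of `w` over the shell is at most `C √(x/2^j) rho(x/2^j)`, and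
by `rho_div'` with `m = 2^j`,
`rho(x/m) ≤ rho x · √(1 + log (1 + log (2m))) ≤ C rho x (1 + j log 2)^{1/2}`. The shell contributes at most
`C' √x rho x (1 + j log 2)^{-3/2}`, and the sum over `j` converges.
-/

set_option autoImplicit false

namespace Pool.Agent.Helper66.MB

open Finset Pool.Agent.Helper92.GB

lemma su_kap_anti {a b : ℕ} (ha : 1 ≤ a) (hab : a ≤ b) : kap b ≤ kap a := by
  unfold kap
  have h1 : (1 : ℝ) ≤ (a : ℝ) := by exact_mod_cast ha
  have h2 : (a : ℝ) ≤ (b : ℝ) := by exact_mod_cast hab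
  have h3 : 0 ≤ Real.log (a : ℝ) := Real.log_nonneg h1
  have h4 : Real.log (a : ℝ) ≤ Real.log (b : ℝ) := Real.log_le_log (by linarith) h2
  gcongr

lemma su_kap_nonneg (a : ℕ) : 0 ≤ kap a := by unfold kap; positivity

lemma su_tht_nonneg (i : ℕ) : 0 ≤ tht i := by unfold tht; positivity

/-- the weight of the shell `j` -/
noncomputable def suG (j : ℕ) : ℝ :=
  kap (2 ^ j) * Real.sqrt (1 + Real.log (1 + Real.log (2 * ((2 ^ j : ℕ) : ℝ))))

lemma suG_nonneg (j : ℕ) : 0 ≤ suG j := mul_nonneg (su_kap_nonneg _) (Real.sqrt_nonneg _)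

lemma suG_le (j : ℕ) : suG j ≤ 4 * (1 / ((j + 1 : ℕ) : ℝ) ^ ((3 : ℝ) / 2)) := by
  have hl2 : (1 : ℝ) / 2 ≤ Real.log 2 := by linarith [Real.log_two_gt_d9]
  have hl2' : Real.log 2 ≤ 1 := by linarith [Real.log_two_lt_d9]
  set s : ℝ := (j : ℝ) + 2 with hs
  have hj : (0 : ℝ) ≤ j := Nat.cast_nonneg j
  have hs0 : 0 < s := by linarith
  have hk : kap (2 ^ j) ≤ 4 / s ^ 2 := by
    unfold kap
    rw [Nat.cast_pow, Nat.cast_ofNat, Real.log_pow]
    have h1 : s / 2 ≤ 1 + (j : ℝ) * Real.log 2 := by nlinarith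
    calc ((1 + (j : ℝ) * Real.log 2) ^ 2)⁻¹ ≤ ((s / 2) ^ 2)⁻¹ := by gcongr
      _ = 4 / s ^ 2 := by field_simp; norm_num
  have hr : Real.sqrt (1 + Real.log (1 + Real.log (2 * ((2 ^ j : ℕ) : ℝ)))) ≤ Real.sqrt s := by
    apply Real.sqrt_le_sqrt
    have e : (2 : ℝ) * ((2 ^ j : ℕ) : ℝ) = 2 ^ (j + 1) := by push_cast; ring
    rw [e, Real.log_pow]
    have h1 : (0 : ℝ) ≤ ((j + 1 : ℕ) : ℝ) * Real.log 2 := by positivity
    have h2 := Real.log_le_sub_one_of_pos (show 0 < 1 + ((j + 1 : ℕ) : ℝ) * Real.log 2 by linarith)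
    have h3 : ((j + 1 : ℕ) : ℝ) * Real.log 2 ≤ ((j + 1 : ℕ) : ℝ) * 1 := by gcongr
    push_cast at h2 h3 ⊢
    linarith
  have hss : Real.sqrt s * Real.sqrt s = s := Real.mul_self_sqrt hs0.le
  have hsq : 0 < Real.sqrt s := Real.sqrt_pos.2 hs0
  have e1 : 4 / s ^ 2 * Real.sqrt s = 4 * (1 / s ^ ((3 : ℝ) / 2)) := by
    have : s ^ ((3 : ℝ) / 2) = s * Real.sqrt s := by
      rw [show (3 : ℝ) / 2 = 1 + 1 / 2 by norm_num, Real.rpow_add hs0, Real.rpow_one,
        Real.sqrt_eq_rpow]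
    rw [this]
    have h2 : s ^ 2 = s * (Real.sqrt s * Real.sqrt s) := by rw [hss]; ring
    rw [h2]
    field_simp
  calc suG j ≤ 4 / s ^ 2 * Real.sqrt s := by
        unfold suG
        exact mul_le_mul hk hr (Real.sqrt_nonneg _) (by positivity)
    _ = 4 * (1 / s ^ ((3 : ℝ) / 2)) := e1
    _ ≤ 4 * (1 / ((j + 1 : ℕ) : ℝ) ^ ((3 : ℝ) / 2)) := by
        have h1 : (0 : ℝ) < ((j + 1 : ℕ) : ℝ) := by positivity
        have h2 : ((j + 1 : ℕ) : ℝ) ≤ s := by push_cast; linarith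
        gcongr

lemma suG_summable : Summable suG := by
  refine Summable.of_nonneg_of_le suG_nonneg suG_le ?_
  refine Summable.mul_left 4 ?_
  exact (summable_nat_add_iff (f := fun n : ℕ => 1 / (n : ℝ) ^ ((3 : ℝ) / 2)) 1).2
    (Real.summable_one_div_nat_rpow.2 (by norm_num))

theorem sumU (n₀ : ℕ) : ∃ C : ℝ, 0 < C ∧ ∀ J x : ℕ, 1 ≤ x →
    ∑ U ∈ (Ico n₀ J).powerset.filter (fun U => ∏ i ∈ U, pa i * pb i ≤ x),
      (∏ i ∈ U, (1 + 2 * tht i)) *
        (Real.sqrt ((x / ∏ i ∈ U, pa i * pb i : ℕ) : ℝ) * kap (x / ∏ i ∈ U, pa i * pb i))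
      ≤ C * Real.sqrt x * rho x := by
  obtain ⟨C0, hC0, hU⟩ := countU n₀
  have htsum : 0 ≤ ∑' j, suG j := tsum_nonneg suG_nonneg
  refine ⟨C0 * Real.sqrt 2 * (∑' j, suG j) + 1, by positivity, ?_⟩
  intro J x hx
  set q : Finset ℕ → ℕ := fun U => ∏ i ∈ U, pa i * pb i with hq
  set w : Finset ℕ → ℝ := fun U => ∏ i ∈ U, (1 + 2 * tht i) with hw
  have hq1 : ∀ U, 0 < q U := fun U =>
    prod_pos fun i _ => Nat.mul_pos (pa_prime i).pos (pb_prime i).pos
  have hw0 : ∀ U, 0 ≤ w U := fun U => prod_nonneg fun i _ => by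
    have := su_tht_nonneg i; linarith
  have hx1 : (1 : ℝ) ≤ (x : ℝ) := by exact_mod_cast hx
  have hrho : 0 < rho (x : ℝ) := rho_pos hx1
  set S := (Ico n₀ J).powerset.filter (fun U => q U ≤ x) with hS
  have hmaps : ∀ U ∈ S, Nat.log 2 (x / q U) ∈ range (Nat.log 2 x + 1) := by
    intro U _
    rw [mem_range, Nat.lt_succ_iff]
    exact Nat.log_mono_right (Nat.div_le_self _ _)
  have hshell : ∀ j ∈ range (Nat.log 2 x + 1),
      ∑ U ∈ S.filter (fun U => Nat.log 2 (x / q U) = j),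
        w U * (Real.sqrt ((x / q U : ℕ) : ℝ) * kap (x / q U))
      ≤ C0 * Real.sqrt 2 * Real.sqrt x * rho x * suG j := by
    intro j hj
    rw [mem_range, Nat.lt_succ_iff] at hj
    have hjx : 2 ^ j ≤ x := (Nat.pow_le_pow_right (by norm_num) hj).trans
      (Nat.pow_log_le_self 2 (by omega))
    have hm1 : 1 ≤ 2 ^ j := Nat.one_le_two_pow
    have hxm : 1 ≤ x / 2 ^ j := (Nat.one_le_div_iff (by positivity)).2 hjx
    -- each term
    have h1 : ∀ U ∈ S.filter (fun U => Nat.log 2 (x / q U) = j),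
        w U * (Real.sqrt ((x / q U : ℕ) : ℝ) * kap (x / q U)) ≤
          w U * (Real.sqrt (2 ^ (j + 1)) * kap (2 ^ j)) ∧ q U ≤ x / 2 ^ j := by
      intro U hU'
      rw [mem_filter, hS, mem_filter] at hU'
      obtain ⟨⟨-, h2⟩, h3⟩ := hU'
      have h4 : x / q U ≠ 0 := by
        have := (Nat.one_le_div_iff (hq1 U)).2 h2
        omega
      have h5 : 2 ^ j ≤ x / q U := by rw [← h3]; exact Nat.pow_log_le_self 2 h4
      have h6 : x / q U < 2 ^ (j + 1) := by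
        rw [← h3]; exact Nat.lt_pow_succ_log_self (by norm_num) _
      refine ⟨?_, ?_⟩
      · refine mul_le_mul_of_nonneg_left ?_ (hw0 U)
        refine mul_le_mul ?_ (su_kap_anti hm1 h5) (su_kap_nonneg _) (Real.sqrt_nonneg _)
        apply Real.sqrt_le_sqrt
        have : ((x / q U : ℕ) : ℝ) ≤ ((2 ^ (j + 1) : ℕ) : ℝ) := by exact_mod_cast h6.le
        simpa using this
      · rw [Nat.le_div_iff_mul_le (by positivity)]
        rw [Nat.le_div_iff_mul_le (hq1 U)] at h5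
        linarith
    have h2 : S.filter (fun U => Nat.log 2 (x / q U) = j) ⊆
        (Ico n₀ J).powerset.filter (fun U => q U ≤ x / 2 ^ j) := by
      intro U hU'
      rw [mem_filter]
      refine ⟨?_, (h1 U hU').2⟩
      rw [mem_filter, hS, mem_filter] at hU'
      exact hU'.1.1
    have h3 : ∑ U ∈ (Ico n₀ J).powerset.filter (fun U => q U ≤ x / 2 ^ j), w U ≤
        C0 * Real.sqrt ((x / 2 ^ j : ℕ) : ℝ) * rho ((x / 2 ^ j : ℕ) : ℝ) := hU J (x / 2 ^ j) hxm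
    have h4 := rho_div' hm1 hxm
    set R := Real.sqrt (1 + Real.log (1 + Real.log (2 * ((2 ^ j : ℕ) : ℝ)))) with hR
    have hA0 : 0 ≤ Real.sqrt (2 ^ (j + 1)) * kap (2 ^ j) :=
      mul_nonneg (Real.sqrt_nonneg _) (su_kap_nonneg _)
    have h5 : Real.sqrt (2 ^ (j + 1)) * Real.sqrt ((x / 2 ^ j : ℕ) : ℝ) ≤
        Real.sqrt 2 * Real.sqrt x := by
      rw [← Real.sqrt_mul (by positivity), ← Real.sqrt_mul (by positivity)]
      apply Real.sqrt_le_sqrt
      have h6 : ((x / 2 ^ j * 2 ^ j : ℕ) : ℝ) ≤ (x : ℝ) := by exact_mod_cast Nat.div_mul_le_self x (2 ^ j)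
      push_cast at h6
      rw [pow_succ]
      nlinarith
    calc ∑ U ∈ S.filter (fun U => Nat.log 2 (x / q U) = j),
          w U * (Real.sqrt ((x / q U : ℕ) : ℝ) * kap (x / q U))
        ≤ ∑ U ∈ S.filter (fun U => Nat.log 2 (x / q U) = j),
          w U * (Real.sqrt (2 ^ (j + 1)) * kap (2 ^ j)) := sum_le_sum fun U hU' => (h1 U hU').1
      _ ≤ ∑ U ∈ (Ico n₀ J).powerset.filter (fun U => q U ≤ x / 2 ^ j),
          w U * (Real.sqrt (2 ^ (j + 1)) * kap (2 ^ j)) :=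
          sum_le_sum_of_subset_of_nonneg h2 fun U _ _ => mul_nonneg (hw0 U) hA0
      _ = (∑ U ∈ (Ico n₀ J).powerset.filter (fun U => q U ≤ x / 2 ^ j), w U) *
          (Real.sqrt (2 ^ (j + 1)) * kap (2 ^ j)) := by rw [sum_mul]
      _ ≤ (C0 * Real.sqrt ((x / 2 ^ j : ℕ) : ℝ) * (rho x * R)) *
          (Real.sqrt (2 ^ (j + 1)) * kap (2 ^ j)) := by
          refine mul_le_mul_of_nonneg_right (h3.trans ?_) hA0
          exact mul_le_mul_of_nonneg_left h4 (by positivity)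
      _ = C0 * (rho x * (kap (2 ^ j) * R)) *
          (Real.sqrt (2 ^ (j + 1)) * Real.sqrt ((x / 2 ^ j : ℕ) : ℝ)) := by ring
      _ ≤ C0 * (rho x * (kap (2 ^ j) * R)) * (Real.sqrt 2 * Real.sqrt x) := by
          refine mul_le_mul_of_nonneg_left h5 ?_
          have := suG_nonneg j
          unfold suG at this
          rw [← hR] at this
          positivity
      _ = C0 * Real.sqrt 2 * Real.sqrt x * rho x * suG j := by
          unfold suG; rw [← hR]; ring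
  have hfin : ∑ j ∈ range (Nat.log 2 x + 1), suG j ≤ ∑' j, suG j :=
    suG_summable.sum_le_tsum _ (fun j _ => suG_nonneg j)
  calc ∑ U ∈ S, w U * (Real.sqrt ((x / q U : ℕ) : ℝ) * kap (x / q U))
      = ∑ j ∈ range (Nat.log 2 x + 1), ∑ U ∈ S.filter (fun U => Nat.log 2 (x / q U) = j),
          w U * (Real.sqrt ((x / q U : ℕ) : ℝ) * kap (x / q U)) :=
        (sum_fiberwise_of_maps_to hmaps _).symm
    _ ≤ ∑ j ∈ range (Nat.log 2 x + 1), C0 * Real.sqrt 2 * Real.sqrt x * rho x * suG j :=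
        sum_le_sum hshell
    _ = C0 * Real.sqrt 2 * Real.sqrt x * rho x * ∑ j ∈ range (Nat.log 2 x + 1), suG j := by
        rw [mul_sum]
    _ ≤ C0 * Real.sqrt 2 * Real.sqrt x * rho x * ∑' j, suG j := by gcongr
    _ ≤ (C0 * Real.sqrt 2 * (∑' j, suG j) + 1) * Real.sqrt x * rho x := by
        have : 0 ≤ Real.sqrt x * rho x := by positivity
        nlinarith

end Pool.Agent.Helper66.MB
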