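import Pool.Agent.Helper66.MB.Exist
import Pool.Agent.Helper66.MB.PSS
import Pool.Agent.Helper66.MB.SumU

/-!
# Block MB-BA (MP_a499ba_nt)

The base function: prime sums of square root size for all twists and `M(x) = O(√x rho x)`.
(Imported statements may be used while they are still `sorry`.)

Proofs. `Mf_full`: the factor `1 + ω i • dl i - mo (pa i * pb i)` is `(1 + ω i • mo (pa i)) * (1 - ω i • mo (pb i))` (as `(ω i)² = 1`), so
`full ω (range J) = ∏_{p ∈ Q} (1 + sgn ω p • mo p)` with `Q` the set of the `2 J` primes `pa i, pb i`, `i < J`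
(`sgn_pa`, `sgn_pb`), `= ∑_{T ⊆ Q} (∏_{p∈T} sgn ω p) • mo (∏_{p ∈ T} p)`; `Sm x` of it is the sum over `T` with `∏ T ≤ x`, and the
`T ⊆ Q` correspond to squarefree `n` with prime factors in `Q`; for `n ≤ x ≤ J` all prime factors are in `Q`
(`prime_cases`, `lt_pa`). Compare `tw_ext_eq` in `Pool.Agent.Helper92.GB.P3`.
`full_bound`: `full ω (Ico n₀ J) = ∑_{U ⊆ Ico n₀ J} (-1)^{|U|} • mo (∏_{i∈U} pa i * pb i) * star ω (Ico n₀ J \ U)`
(`Finset.prod_add` or `prod_sub`), so `|Sm x (full ω (Ico n₀ J))| ≤ ∑_U |Sm (x / q(U)) (star ω (Ico n₀ J \ U))|`, the terms with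
`q(U) > x` vanish (`coeff_zero_star`), then `remove` and `sumU`. The finitely many factors with `i < n₀`: if
`|Sm x F| ≤ C √x rho x` for `1 ≤ x ≤ J` and `Sm 0 F = 0` then the same holds for `(1 + ω i • dl i - mo (pa i * pb i)) * F` with another constant (four
terms `Sm (x / m) F`, `Sm_mo_mul`, `rho_div`); induct over `i < n₀`.
`base`: `exists_n₀`, `exists_signs`, `star_bound`, `PS_of_HH`.
-/

set_option autoImplicit false

namespace Pool.Agent.Helper66.MB

open Finset Pool.Agent.Helper92.GB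

/-- the factor of a pair splits over the two primes -/
lemma ba_factor (ω : ℕ → ℤˣ) (i : ℕ) :
    (1 + ((ω i : ℤ) : ℝ) • dl i - mo (pa i * pb i) : DP) =
      (1 + ((sgn ω (pa i) : ℤ) : ℝ) • mo (pa i)) * (1 + ((sgn ω (pb i) : ℤ) : ℝ) • mo (pb i)) := by
  rw [sgn_pa, sgn_pb, dl, ← mo_mul]
  have hsq : (((ω i : ℤ) : ℝ)) * ((ω i : ℤ) : ℝ) = 1 := by
    rcases Int.units_eq_one_or (ω i) with h | h <;> rw [h] <;> simp
  push_cast
  rw [mul_add, mul_one, add_mul, one_mul, smul_mul_smul_comm, neg_smul, smul_sub]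
  have : ((ω i : ℤ) : ℝ) * -((ω i : ℤ) : ℝ) = -1 := by rw [mul_neg, hsq]
  rw [this, neg_smul, one_smul]
  abel

/-- The primes of the first `J` pairs. -/
noncomputable def baQ (J : ℕ) : Finset ℕ := (range J).image pa ∪ (range J).image pb

lemma ba_mem_prime {J p : ℕ} (h : p ∈ baQ J) : p.Prime := by
  classical
  rcases mem_union.1 h with h | h
  · obtain ⟨i, -, rfl⟩ := mem_image.1 h
    exact pa_prime i
  · obtain ⟨i, -, rfl⟩ := mem_image.1 h
    exact pb_prime i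

lemma ba_full (ω : ℕ → ℤˣ) (J : ℕ) :
    full ω (range J) = ∏ p ∈ baQ J, (1 + ((sgn ω p : ℤ) : ℝ) • mo p) := by
  classical
  have hd : Disjoint ((range J).image pa) ((range J).image pb) := by
    rw [Finset.disjoint_left]
    intro p hp hp'
    obtain ⟨i, -, rfl⟩ := mem_image.1 hp
    obtain ⟨j, -, h⟩ := mem_image.1 hp'
    exact pa_ne_pb i j h.symm
  unfold full baQ
  rw [prod_union hd, prod_image (fun a _ b _ h => pa_strictMono.injective h),
    prod_image (fun a _ b _ h => pb_strictMono.injective h), ← prod_mul_distrib]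
  exact prod_congr rfl fun i _ => ba_factor ω i

lemma ba_mem {J x p : ℕ} (hp : p.Prime) (hpx : p ≤ x) (h : x ≤ J) : p ∈ baQ J := by
  classical
  obtain ⟨i, hi⟩ := prime_cases hp
  have h1 := lt_pa i
  have h2 := pa_lt_pb i
  rcases hi with rfl | rfl
  · exact mem_union_left _ (mem_image_of_mem _ (mem_range.2 (by omega)))
  · exact mem_union_right _ (mem_image_of_mem _ (mem_range.2 (by omega)))

lemma ba_sqf (T : Finset ℕ) (hT : ∀ p ∈ T, p.Prime) : Squarefree (∏ p ∈ T, p) := by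
  refine Finset.squarefree_prod_of_pairwise_isCoprime ?_ (fun p hp => (hT p hp).squarefree)
  intro p hp q hq hpq
  show IsRelPrime p q
  rw [← Nat.coprime_iff_isRelPrime]
  exact (Nat.coprime_primes (hT p hp) (hT q hq)).mpr hpq

theorem Mf_full (ω : ℕ → ℤˣ) (x J : ℕ) (h : x ≤ J) : Mf (sgn ω) x = Sm x (full ω (range J)) := by
  classical
  have h1 : Sm x (full ω (range J)) = ∑ T ∈ (baQ J).powerset.filter (fun T => ∏ p ∈ T, p ≤ x),
      ∏ p ∈ T, ((sgn ω p : ℤ) : ℝ) := by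
    rw [ba_full, prod_one_add, map_sum, sum_filter]
    refine sum_congr rfl fun T _ => ?_
    rw [prod_smul, prod_mo, map_smul, Sm_mo, smul_eq_mul]
    split_ifs <;> simp
  have h2 : Mf (sgn ω) x = ∑ n ∈ (Icc 1 x).filter Squarefree, ((ext (sgn ω) n : ℤ) : ℝ) := by
    rw [Mf, sum_filter]
    refine sum_congr rfl fun n _ => ?_
    by_cases hn : Squarefree n
    · simp [hn]
    · simp [Helper92.GB.ext, hn]
  rw [h1, h2]
  symm
  refine Finset.sum_nbij' (fun T => ∏ p ∈ T, p) (fun n => n.primeFactors) ?_ ?_ ?_ ?_ ?_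
  · intro T hT
    simp only [mem_filter, mem_powerset] at hT
    have hp : ∀ p ∈ T, p.Prime := fun p hp => ba_mem_prime (hT.1 hp)
    simp only [mem_filter, mem_Icc]
    refine ⟨⟨?_, hT.2⟩, ba_sqf T hp⟩
    exact Nat.one_le_iff_ne_zero.mpr (prod_ne_zero_iff.mpr fun p hp' => (hp p hp').ne_zero)
  · intro n hn
    simp only [mem_filter, mem_Icc] at hn
    simp only [mem_filter, mem_powerset]
    refine ⟨fun p hp => ?_, ?_⟩
    · exact ba_mem (Nat.prime_of_mem_primeFactors hp)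
        ((Nat.le_of_mem_primeFactors hp).trans hn.1.2) h
    · rw [Nat.prod_primeFactors_of_squarefree hn.2]
      exact hn.1.2
  · intro T hT
    simp only [mem_filter, mem_powerset] at hT
    exact Nat.primeFactors_prod (fun p hp => ba_mem_prime (hT.1 hp))
  · intro n hn
    simp only [mem_filter, mem_Icc] at hn
    exact Nat.prod_primeFactors_of_squarefree hn.2
  · intro T hT
    simp only [mem_filter, mem_powerset] at hT
    have hp : ∀ p ∈ T, p.Prime := fun p hp => ba_mem_prime (hT.1 hp)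
    have hsq := ba_sqf T hp
    rw [Helper92.GB.ext, if_pos hsq, Nat.primeFactors_prod hp, Int.cast_prod]

/-! ### The bound for the full product -/

lemma ba_Sm_factor (ω : ℕ → ℤˣ) (i x : ℕ) (f : DP) :
    Sm x ((1 + ((ω i : ℤ) : ℝ) • dl i - mo (pa i * pb i)) * f) =
      Sm x f + ((ω i : ℤ) : ℝ) * (Sm (x / pa i) f - Sm (x / pb i) f) -
        Sm (x / (pa i * pb i)) f := by
  rw [sub_mul, map_sub, Sm_factor, Sm_mo_mul (Nat.mul_pos (pa_prime i).pos (pb_prime i).pos)]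

lemma ba_full_insert (ω : ℕ → ℤˣ) {i : ℕ} {I : Finset ℕ} (h : i ∉ I) :
    full ω (insert i I) = (1 + ((ω i : ℤ) : ℝ) • dl i - mo (pa i * pb i)) * full ω I := by
  unfold full
  rw [prod_insert h]

lemma ba_zero (ω : ℕ → ℤˣ) (I : Finset ℕ) : Sm 0 (full ω I) = 0 := by
  classical
  induction I using Finset.induction_on with
  | empty =>
    have : full ω ∅ = 1 := prod_empty
    rw [this, Sm_zero_one]
  | insert i s hi ih =>
    rw [ba_full_insert ω hi, ba_Sm_factor]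
    simp [ih]

lemma ba_expand (ω : ℕ → ℤˣ) (I : Finset ℕ) (x : ℕ) :
    Sm x (full ω I) = ∑ U ∈ I.powerset, (-1 : ℝ) ^ U.card *
      Sm (x / ∏ i ∈ U, pa i * pb i) (star ω (I \ U)) := by
  classical
  have h1 : full ω I = ∏ i ∈ I, (-mo (pa i * pb i) + (1 + ((ω i : ℤ) : ℝ) • dl i)) := by
    unfold full
    refine prod_congr rfl fun i _ => ?_
    rw [sub_eq_add_neg, add_comm]
  rw [h1, prod_add, map_sum]
  refine sum_congr rfl fun U _ => ?_
  have h2 : ∏ i ∈ U, (-mo (pa i * pb i)) = (-1 : ℝ) ^ U.card • mo (∏ i ∈ U, pa i * pb i) := by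
    have h3 : ∀ i ∈ U, -mo (pa i * pb i) = (-1 : ℝ) • mo (pa i * pb i) := fun i _ => by simp
    rw [prod_congr rfl h3, prod_smul, prod_const, prod_mo]
  rw [h2, smul_mul_assoc, map_smul, smul_eq_mul, Sm_mo_mul]
  · rfl
  · exact prod_pos fun i _ => Nat.mul_pos (pa_prime i).pos (pb_prime i).pos

lemma ba_kap_nonneg (y : ℕ) : 0 ≤ kap y := by
  unfold kap
  positivity

lemma ba_tail (n₀ : ℕ) (hn₀ : ∀ i : ℕ, n₀ ≤ i → tht i ≤ 1 / 2) (ω : ℕ → ℤˣ) (C : ℝ) (hC : 0 < C)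
    (h : ∀ x : ℕ, 1 ≤ x → |Sm x (star ω (Ico n₀ x))| ≤ C * Real.sqrt x * kap x) :
    ∃ C' : ℝ, 0 < C' ∧ ∀ J x : ℕ, 1 ≤ x → x ≤ J →
      |Sm x (full ω (Ico n₀ J))| ≤ C' * Real.sqrt x * rho x := by
  classical
  obtain ⟨C1, hC1, hS⟩ := sumU n₀
  refine ⟨C * C1, by positivity, fun J x hx hxJ => ?_⟩
  rw [ba_expand]
  have h1 : ∀ U ∈ (Ico n₀ J).powerset, |(-1 : ℝ) ^ U.card *
      Sm (x / ∏ i ∈ U, pa i * pb i) (star ω (Ico n₀ J \ U))| ≤
      if ∏ i ∈ U, pa i * pb i ≤ x then C * ((∏ i ∈ U, (1 + 2 * tht i)) *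
        (Real.sqrt ((x / ∏ i ∈ U, pa i * pb i : ℕ) : ℝ) * kap (x / ∏ i ∈ U, pa i * pb i))) else 0 := by
    intro U hU
    rw [abs_mul, abs_pow, abs_neg, abs_one, one_pow, one_mul]
    have hq : 0 < ∏ i ∈ U, pa i * pb i :=
      prod_pos fun i _ => Nat.mul_pos (pa_prime i).pos (pb_prime i).pos
    split_ifs with hle
    · have h2 := remove n₀ hn₀ ω C hC h J U (mem_powerset.1 hU) (x / ∏ i ∈ U, pa i * pb i)
        (Nat.div_pos hle hq) ((Nat.div_le_self _ _).trans hxJ)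
      refine h2.trans (le_of_eq ?_)
      ring
    · rw [Nat.div_eq_of_lt (not_le.1 hle), coeff_zero_star, abs_zero]
  refine (abs_sum_le_sum_abs _ _).trans ((sum_le_sum h1).trans ?_)
  rw [← sum_filter, ← mul_sum]
  have h3 := mul_le_mul_of_nonneg_left (hS J x hx) hC.le
  refine h3.trans (le_of_eq ?_)
  ring

lemma ba_step {x a : ℕ} (F : DP) (hF : Sm 0 F = 0) (C : ℝ) (hC : 0 < C) (J : ℕ) (hxJ : x ≤ J)
    (ha : 1 ≤ a) (h : ∀ y : ℕ, 1 ≤ y → y ≤ J → |Sm y F| ≤ C * Real.sqrt y * rho y) (hx : 1 ≤ x) :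
    |Sm (x / a) F| ≤ C * (1 + Real.log (2 * a)) * (Real.sqrt x * rho x) := by
  have hlog : 0 ≤ Real.log (2 * (a : ℝ)) := by
    apply Real.log_nonneg
    have : (1 : ℝ) ≤ a := by exact_mod_cast ha
    linarith
  have hρx : 0 < rho (x : ℝ) := rho_pos (by exact_mod_cast hx)
  rcases Nat.eq_zero_or_pos (x / a) with h0 | h0
  · rw [h0, hF, abs_zero]
    positivity
  · have h1 := h (x / a) h0 ((Nat.div_le_self _ _).trans hxJ)
    have h2 : rho ((x / a : ℕ) : ℝ) ≤ rho x * (1 + Real.log (2 * a)) := rho_div ha h0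
    have h3 : Real.sqrt ((x / a : ℕ) : ℝ) ≤ Real.sqrt x := by
      apply Real.sqrt_le_sqrt
      exact_mod_cast Nat.div_le_self x a
    have h4 : 0 < rho ((x / a : ℕ) : ℝ) := rho_pos (by exact_mod_cast h0)
    calc |Sm (x / a) F| ≤ C * Real.sqrt ((x / a : ℕ) : ℝ) * rho ((x / a : ℕ) : ℝ) := h1
      _ ≤ C * Real.sqrt x * (rho x * (1 + Real.log (2 * a))) := by
          apply mul_le_mul _ h2 h4.le (by positivity)
          exact mul_le_mul_of_nonneg_left h3 hC.le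
      _ = C * (1 + Real.log (2 * a)) * (Real.sqrt x * rho x) := by ring

lemma ba_claim (ω : ℕ → ℤˣ) (m : ℕ)
    (h : ∃ C' : ℝ, 0 < C' ∧ ∀ J x : ℕ, 1 ≤ x → x ≤ J →
      |Sm x (full ω (Ico (m + 1) J))| ≤ C' * Real.sqrt x * rho x) :
    ∃ C' : ℝ, 0 < C' ∧ ∀ J x : ℕ, 1 ≤ x → x ≤ J →
      |Sm x (full ω (Ico m J))| ≤ C' * Real.sqrt x * rho x := by
  classical
  obtain ⟨C, hC, h⟩ := h
  have hlog : ∀ a : ℕ, 1 ≤ a → 0 ≤ Real.log (2 * (a : ℝ)) := by
    intro a ha
    apply Real.log_nonneg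
    have : (1 : ℝ) ≤ a := by exact_mod_cast ha
    linarith
  have l1 := hlog (pa m) (pa_prime m).pos
  have l2 := hlog (pb m) (pb_prime m).pos
  have l3 := hlog (pa m * pb m) (Nat.mul_pos (pa_prime m).pos (pb_prime m).pos)
  refine ⟨C + C * (1 + Real.log (2 * (pa m : ℕ))) + C * (1 + Real.log (2 * (pb m : ℕ))) +
    C * (1 + Real.log (2 * ((pa m * pb m : ℕ) : ℝ))), by positivity, fun J x hx hxJ => ?_⟩
  have hρx : 0 < rho (x : ℝ) := rho_pos (by exact_mod_cast hx)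
  have hsx : 0 ≤ Real.sqrt x * rho x := by positivity
  have h0 := h J x hx hxJ
  by_cases hm : m < J
  · have h1 : Ico m J = insert m (Ico (m + 1) J) := by
      ext i
      simp only [mem_Ico, mem_insert]
      omega
    have h2 : m ∉ Ico (m + 1) J := by simp
    rw [h1, ba_full_insert ω h2, ba_Sm_factor]
    have hz := ba_zero ω (Ico (m + 1) J)
    have s1 := ba_step (x := x) (a := pa m) _ hz C hC J hxJ (pa_prime m).pos (h J) hx
    have s2 := ba_step (x := x) (a := pb m) _ hz C hC J hxJ (pb_prime m).pos (h J) hx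
    have s3 := ba_step (x := x) (a := pa m * pb m) _ hz C hC J hxJ
      (Nat.mul_pos (pa_prime m).pos (pb_prime m).pos) (h J) hx
    have hω : |((ω m : ℤ) : ℝ)| = 1 := by
      rcases Int.units_eq_one_or (ω m) with h | h <;> rw [h] <;> simp
    have t1 : |((ω m : ℤ) : ℝ) * (Sm (x / pa m) (full ω (Ico (m + 1) J)) -
        Sm (x / pb m) (full ω (Ico (m + 1) J)))| ≤
        |Sm (x / pa m) (full ω (Ico (m + 1) J))| + |Sm (x / pb m) (full ω (Ico (m + 1) J))| := by
      rw [abs_mul, hω, one_mul]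
      exact abs_sub _ _
    refine (abs_sub _ _).trans ((add_le_add (abs_add_le _ _) le_rfl).trans ?_)
    calc _ ≤ C * (Real.sqrt x * rho x) + (C * (1 + Real.log (2 * (pa m : ℕ))) *
          (Real.sqrt x * rho x) + C * (1 + Real.log (2 * (pb m : ℕ))) *
          (Real.sqrt x * rho x)) + C * (1 + Real.log (2 * ((pa m * pb m : ℕ) : ℝ))) *
          (Real.sqrt x * rho x) := by
            refine add_le_add (add_le_add ?_ (t1.trans (add_le_add s1 s2))) s3
            rw [← mul_assoc]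
            exact h0
      _ = _ := by ring
  · have h1 : Ico m J = Ico (m + 1) J := by
      rw [Ico_eq_empty (by omega), Ico_eq_empty (by omega)]
    rw [h1]
    refine h0.trans ?_
    have : 0 ≤ (C * (1 + Real.log (2 * (pa m : ℕ))) + C * (1 + Real.log (2 * (pb m : ℕ))) +
      C * (1 + Real.log (2 * ((pa m * pb m : ℕ) : ℝ)))) * (Real.sqrt x * rho x) := by positivity
    nlinarith

theorem full_bound (n₀ : ℕ) (hn₀ : ∀ i : ℕ, n₀ ≤ i → tht i ≤ 1 / 2) (ω : ℕ → ℤˣ) (C : ℝ) (hC : 0 < C)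
    (h : ∀ x : ℕ, 1 ≤ x → |Sm x (star ω (Ico n₀ x))| ≤ C * Real.sqrt x * kap x) :
    ∃ C' : ℝ, ∀ J x : ℕ, 1 ≤ x → x ≤ J → |Sm x (full ω (range J))| ≤ C' * Real.sqrt x * rho x := by
  have key : ∀ d m : ℕ, m + d = n₀ → ∃ C' : ℝ, 0 < C' ∧ ∀ J x : ℕ, 1 ≤ x → x ≤ J →
      |Sm x (full ω (Ico m J))| ≤ C' * Real.sqrt x * rho x := by
    intro d
    induction d with
    | zero =>
      intro m hm
      rw [add_zero] at hm
      rw [hm]
      exact ba_tail n₀ hn₀ ω C hC h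
    | succ d ih =>
      intro m hm
      exact ba_claim ω m (ih (m + 1) (by omega))
  obtain ⟨C', -, hC'⟩ := key n₀ 0 (by omega)
  refine ⟨C', fun J x hx hxJ => ?_⟩
  rw [range_eq_Ico]
  exact hC' J x hx hxJ

/-- There are signs with square root cancellation in all twisted prime sums and `M(x) = O(√x rho x)`. -/
theorem base : ∃ ω : ℕ → ℤˣ, PS (sgn ω) ∧ Cl (sgn ω) := by
  obtain ⟨n₀, hn₀⟩ := exists_n₀
  obtain ⟨ω, A, k₁, hk₁, hω⟩ := exists_signs n₀
  obtain ⟨C, hC, hst⟩ := star_bound n₀ k₁ hk₁ ω (fun k hk => (hω k hk).2)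
  obtain ⟨C', hC'⟩ := full_bound n₀ hn₀ ω C hC hst
  refine ⟨ω, PS_of_HH A k₁ ω (fun k hk => (hω k hk).1), C', fun x hx => ?_⟩
  rw [Mf_full ω x x le_rfl]
  exact hC' x x hx le_rfl

end Pool.Agent.Helper66.MB
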