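import Pool.Agent.Helper66.MB.Sqf

/-!
# Block MB-OM (MP_a499ba_nt)

The sum of `6^{ω(n)}` over squarefree `n` in an interval `(x, y]` of length `h ≥ y^{1/3}` is at most
`C h (1 + log y)^A`.

Proof. Let `n` be squarefree with `k` prime factors, `m = k / 3` (natural division). Choose three disjoint
sets `T₁, T₂, T₃` of `m` prime factors each (`Finset.exists_subset_card_eq`); the one with the smallest
product `d` satisfies `d³ ≤ n`. So there is a divisor `d` of `n` with `d³ ≤ n`, `ω(n) ≤ 3 ω(d) + 2`, hence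
`6^{ω(n)} ≤ 36 · 216^{ω(d)} ≤ 36 ∑_{d ∣ n, d³ ≤ n} 216^{ω(d)}`. Swap: the sum is at most
`36 ∑_{d squarefree, d³ ≤ y} 216^{ω(d)} |{n ∈ (x,y] : d ∣ n}| ≤ 36 ∑_d 216^{ω(d)} (h/d + 1) ≤ 72 h ∑_d 216^{ω(d)}/d`
(as `d ≤ y^{1/3} ≤ h`), and `∑_{d ≤ y squarefree} 216^{ω(d)}/d ≤ ∏_{p ≤ y} (1 + 216/p)` (`sum_sqf_le`),
then `prod_prime 216`.
-/

set_option autoImplicit false

namespace Pool.Agent.Helper66.MB

open Finset Pool.Agent.Helper92.GB

/-- A squarefree integer has a divisor below its cube root with at least a third of the prime factors. -/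
theorem exists_third {n : ℕ} (hn : Squarefree n) :
    ∃ d, d ∣ n ∧ d ^ 3 ≤ n ∧ n.primeFactors.card ≤ 3 * d.primeFactors.card + 2 := by
  classical
  set P := n.primeFactors with hP
  have hn0 : n ≠ 0 := hn.ne_zero
  have hprod : ∏ p ∈ P, p = n := Nat.prod_primeFactors_of_squarefree hn
  have hprime : ∀ p ∈ P, p.Prime := fun p hp => Nat.prime_of_mem_primeFactors hp
  obtain ⟨m, r, hr, hm⟩ : ∃ m r, r ≤ 2 ∧ P.card = 3 * m + r := ⟨P.card / 3, P.card % 3, by omega, by omega⟩
  obtain ⟨T1, hT1, c1⟩ := Finset.exists_subset_card_eq (s := P) (n := m) (by omega)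
  have c1' : (P \ T1).card = 2 * m + r := by rw [Finset.card_sdiff_of_subset hT1]; omega
  obtain ⟨T2, hT2, c2⟩ := Finset.exists_subset_card_eq (s := P \ T1) (n := m) (by omega)
  have c2' : ((P \ T1) \ T2).card = m + r := by rw [Finset.card_sdiff_of_subset hT2]; omega
  obtain ⟨T3, hT3, c3⟩ := Finset.exists_subset_card_eq (s := (P \ T1) \ T2) (n := m) (by omega)
  have key : ∀ T ⊆ P, T.card = m → (∏ p ∈ T, p) ^ 3 ≤ n → ∃ d, d ∣ n ∧ d ^ 3 ≤ n ∧
      P.card ≤ 3 * d.primeFactors.card + 2 := by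
    intro T hT hc h3
    refine ⟨∏ p ∈ T, p, ?_, h3, ?_⟩
    · rw [← hprod]; exact Finset.prod_dvd_prod_of_subset _ _ _ hT
    · rw [Nat.primeFactors_prod fun p hp => hprime p (hT hp), hc]; omega
  have hT2P : T2 ⊆ P := hT2.trans Finset.sdiff_subset
  have hT3P : T3 ⊆ P := hT3.trans (Finset.sdiff_subset.trans Finset.sdiff_subset)
  have hmul : (∏ p ∈ T1, p) * (∏ p ∈ T2, p) * (∏ p ∈ T3, p) ≤ n := by
    have d12 : Disjoint T1 T2 := (Finset.disjoint_sdiff).mono_right hT2
    have d3 : Disjoint (T1 ∪ T2) T3 := by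
      rw [Finset.disjoint_left]
      intro p hp hp3
      have h3 := hT3 hp3
      rw [Finset.mem_sdiff, Finset.mem_sdiff] at h3
      rcases Finset.mem_union.mp hp with h | h
      · exact h3.1.2 h
      · exact h3.2 h
    rw [← Finset.prod_union d12, ← Finset.prod_union d3]
    apply Nat.le_of_dvd (Nat.pos_of_ne_zero hn0)
    rw [← hprod]
    exact Finset.prod_dvd_prod_of_subset _ _ _
      (Finset.union_subset (Finset.union_subset hT1 hT2P) hT3P)
  set a := ∏ p ∈ T1, p with ha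
  set b := ∏ p ∈ T2, p with hb
  set c := ∏ p ∈ T3, p with hc
  have e3 : ∀ u v w : ℕ, u ≤ v → u ≤ w → u ^ 3 ≤ u * v * w := by
    intro u v w h1 h2
    calc u ^ 3 = u * u * u := by ring
      _ ≤ u * v * w := Nat.mul_le_mul (Nat.mul_le_mul le_rfl h1) h2
  rcases le_total a b with h1 | h1
  · rcases le_total a c with h2 | h2
    · exact key T1 hT1 c1 ((e3 a b c h1 h2).trans hmul)
    · refine key T3 hT3P c3 ((e3 c b a (h2.trans h1) h2).trans ?_)
      calc c * b * a = a * b * c := by ring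
        _ ≤ n := hmul
  · rcases le_total b c with h2 | h2
    · refine key T2 hT2P c2 ((e3 b a c h1 h2).trans ?_)
      calc b * a * c = a * b * c := by ring
        _ ≤ n := hmul
    · refine key T3 hT3P c3 ((e3 c b a h2 (h2.trans h1)).trans ?_)
      calc c * b * a = a * b * c := by ring
        _ ≤ n := hmul

/-- Number of multiples of `d` in an interval. -/
theorem card_mult_le {x y d : ℕ} (hxy : x ≤ y) (hd : 0 < d) :
    (((Ioc x y).filter (d ∣ ·)).card : ℝ) ≤ ((y - x : ℕ) : ℝ) / d + 1 := by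
  have h1 : ((Ioc x y).filter (d ∣ ·)).card + ((Ioc 0 x).filter (d ∣ ·)).card
      = ((Ioc 0 y).filter (d ∣ ·)).card := by
    rw [← Finset.card_union_of_disjoint, ← Finset.filter_union, Finset.union_comm,
      Finset.Ioc_union_Ioc_eq_Ioc (Nat.zero_le x) hxy]
    rw [Finset.disjoint_left]
    intro n hn hn'
    rw [mem_filter, mem_Ioc] at hn hn'
    omega
  rw [Nat.Ioc_filter_dvd_card_eq_div, Nat.Ioc_filter_dvd_card_eq_div] at h1
  have hd' : (0 : ℝ) < d := by exact_mod_cast hd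
  have h2 : ((y / d : ℕ) : ℝ) ≤ y / d := Nat.cast_div_le
  have h3 : (x : ℝ) / d < ((x / d : ℕ) : ℝ) + 1 := by
    rw [div_lt_iff₀ hd']
    have := Nat.lt_mul_div_succ x hd
    have h4 : x < (x / d + 1) * d := by rw [mul_comm]; exact this
    exact_mod_cast h4
  have h5 : ((((Ioc x y).filter (d ∣ ·)).card : ℕ) : ℝ) + ((x / d : ℕ) : ℝ) = ((y / d : ℕ) : ℝ) := by
    exact_mod_cast h1
  rw [Nat.cast_sub hxy, sub_div]
  linarith

theorem omega_short : ∃ (C : ℝ) (A : ℕ), 0 < C ∧ ∀ x y : ℕ, x < y → y ≤ (y - x) ^ 3 →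
    ∑ n ∈ (Ioc x y).filter Squarefree, (6 : ℝ) ^ n.primeFactors.card ≤
      C * ((y - x : ℕ) : ℝ) * (1 + Real.log y) ^ A := by
  classical
  obtain ⟨C, A, hC, hprod⟩ := prod_prime 216
  refine ⟨72 * C, A, by positivity, fun x y hxy hy3 => ?_⟩
  set h : ℝ := ((y - x : ℕ) : ℝ) with hh
  have hh0 : 0 ≤ h := Nat.cast_nonneg _
  have hy1 : 1 ≤ y := by omega
  set D : Finset ℕ := (Icc 1 y).filter (fun d => Squarefree d ∧ d ^ 3 ≤ y) with hD
  -- pointwise bound
  have hpt : ∀ n ∈ (Ioc x y).filter Squarefree, (6 : ℝ) ^ n.primeFactors.card ≤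
      36 * ∑ d ∈ D, if d ∣ n then (216 : ℝ) ^ d.primeFactors.card else 0 := by
    intro n hn
    rw [mem_filter, mem_Ioc] at hn
    obtain ⟨⟨hn1, hn2⟩, hsq⟩ := hn
    obtain ⟨d, hdn, hd3, hcard⟩ := exists_third hsq
    have hdD : d ∈ D := by
      rw [hD, mem_filter, mem_Icc]
      exact ⟨⟨Nat.pos_of_dvd_of_pos hdn (by omega), (Nat.le_of_dvd (by omega) hdn).trans hn2⟩,
        hsq.squarefree_of_dvd hdn, hd3.trans hn2⟩
    have h1 : (6 : ℝ) ^ n.primeFactors.card ≤ 36 * (216 : ℝ) ^ d.primeFactors.card := by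
      calc (6 : ℝ) ^ n.primeFactors.card ≤ 6 ^ (3 * d.primeFactors.card + 2) :=
            pow_le_pow_right₀ (by norm_num) hcard
        _ = 36 * (216 : ℝ) ^ d.primeFactors.card := by
            rw [pow_add, pow_mul]; norm_num; ring
    have h2 : (if d ∣ n then (216 : ℝ) ^ d.primeFactors.card else 0) ≤
        ∑ d ∈ D, if d ∣ n then (216 : ℝ) ^ d.primeFactors.card else 0 :=
      Finset.single_le_sum (f := fun d => if d ∣ n then (216 : ℝ) ^ d.primeFactors.card else 0)
        (fun i _ => by split_ifs <;> positivity) hdD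
    rw [if_pos hdn] at h2
    linarith
  have hcount : ∀ d ∈ D, ∑ n ∈ (Ioc x y).filter Squarefree,
      (if d ∣ n then (216 : ℝ) ^ d.primeFactors.card else 0) ≤
        2 * h * ∏ p ∈ d.primeFactors, (216 : ℝ) / p := by
    intro d hd
    rw [hD, mem_filter, mem_Icc] at hd
    obtain ⟨⟨hd1, hd2⟩, hsq, hd3⟩ := hd
    have hd' : (0 : ℝ) < d := by exact_mod_cast hd1
    have hdh : (d : ℝ) ≤ h := by
      have : d ≤ y - x := by
        by_contra hcon
        have h1 : (y - x) ^ 3 < d ^ 3 := Nat.pow_lt_pow_left (not_le.mp hcon) (by norm_num)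
        omega
      rw [hh]
      exact Nat.cast_le.mpr this
    have h1 : ∑ n ∈ (Ioc x y).filter Squarefree,
        (if d ∣ n then (216 : ℝ) ^ d.primeFactors.card else 0) ≤
        ((Ioc x y).filter (d ∣ ·)).card * (216 : ℝ) ^ d.primeFactors.card := by
      rw [← Finset.sum_filter, Finset.sum_const, nsmul_eq_mul]
      refine mul_le_mul_of_nonneg_right ?_ (by positivity)
      exact_mod_cast Finset.card_le_card (fun n hn => by
        rw [mem_filter, mem_filter] at hn
        rw [mem_filter]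
        exact ⟨hn.1.1, hn.2⟩)
    have h2 := card_mult_le hxy.le hd1
    have h3 : ((y - x : ℕ) : ℝ) / d + 1 ≤ 2 * h / d := by
      rw [← hh, div_add_one hd'.ne', div_le_div_iff_of_pos_right hd']
      linarith
    have h4 : ∏ p ∈ d.primeFactors, (216 : ℝ) / p = (216 : ℝ) ^ d.primeFactors.card / d := by
      rw [Finset.prod_div_distrib, Finset.prod_const]
      congr 1
      have := congrArg (fun m : ℕ => (m : ℝ)) (Nat.prod_primeFactors_of_squarefree hsq)
      simp only [Nat.cast_prod] at this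
      exact this
    rw [h4]
    calc _ ≤ _ := h1
      _ ≤ (2 * h / d) * (216 : ℝ) ^ d.primeFactors.card :=
          mul_le_mul_of_nonneg_right (h2.trans h3) (by positivity)
      _ = _ := by ring
  have hsum : ∑ d ∈ D, ∏ p ∈ d.primeFactors, (216 : ℝ) / p ≤ C * (1 + Real.log y) ^ A := by
    refine (sum_sqf_le D ((Icc 1 y).filter Nat.Prime) (fun p => (216 : ℝ) / p)
      (fun p _ => by positivity) ?_).trans ?_
    · intro d hd
      rw [hD, mem_filter, mem_Icc] at hd
      refine ⟨hd.2.1, fun p hp => ?_⟩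
      rw [mem_filter, mem_Icc]
      have hp' := Nat.mem_primeFactors.mp hp
      exact ⟨⟨hp'.1.one_lt.le, (Nat.le_of_dvd (by omega) hp'.2.1).trans hd.1.2⟩, hp'.1⟩
    · have := hprod y hy1
      exact_mod_cast this
  calc ∑ n ∈ (Ioc x y).filter Squarefree, (6 : ℝ) ^ n.primeFactors.card
      ≤ ∑ n ∈ (Ioc x y).filter Squarefree,
          36 * ∑ d ∈ D, (if d ∣ n then (216 : ℝ) ^ d.primeFactors.card else 0) :=
        Finset.sum_le_sum hpt
    _ = 36 * ∑ d ∈ D, ∑ n ∈ (Ioc x y).filter Squarefree,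
          (if d ∣ n then (216 : ℝ) ^ d.primeFactors.card else 0) := by
        rw [← Finset.mul_sum, Finset.sum_comm]
    _ ≤ 36 * ∑ d ∈ D, 2 * h * ∏ p ∈ d.primeFactors, (216 : ℝ) / p :=
        mul_le_mul_of_nonneg_left (Finset.sum_le_sum hcount) (by norm_num)
    _ = 72 * h * ∑ d ∈ D, ∏ p ∈ d.primeFactors, (216 : ℝ) / p := by
        rw [← Finset.mul_sum]; ring
    _ ≤ 72 * h * (C * (1 + Real.log y) ^ A) := mul_le_mul_of_nonneg_left hsum (by positivity)
    _ = _ := by ring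

end Pool.Agent.Helper66.MB
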