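import Pool.Agent.Helper66.MB.Basic

/-!
# Block MB-SEC (MP_a499ba_nt)

The second moment of a star sum is at most `1 + ∑_{n ∈ Wx x} 2^{ω(n)}`.

Proof. `T = ∅` contributes `(Sm x 1)² ≤ 1`. Let `T ≠ ∅`, `k = T.max'`, `T' = T.erase k`. Then
`dT T = (mo (pa k) - mo (pb k)) * dT T'`, so `Sm x (dT T) = Sm (x / pa k) (dT T') - Sm (x / pb k) (dT T')`,
which by `Sm_diff` is the sum of `(dT T').coeff n` over `x / pb k < n ≤ x / pa k`, that is
`n * pa k ≤ x < n * pb k`. Let `A(T)` be the set of `n ∈ spt T'` with `n * pa k ≤ x < n * pb k`. By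
`abs_coeff_dT` and `card_spt_le`, `Sm x (dT T) ^ 2 ≤ |A(T)| ^ 2 ≤ 2 ^ |T'| |A(T)| = ∑_{n ∈ A(T)} 2^{ω(n)}`
(`mem_spt`: `n.primeFactors.card = T'.card`). Every `n ∈ A(T)` is in `Wx x`: it is squarefree, `1 ≤ n ≤ x`,
and each prime factor `p` of `n` is `pa i` or `pb i` with `i ∈ T'`, `i < k`, so `p < pa k` and `p n ≤ x`.
Each `n` lies in `A(T)` for at most one `T`: `T' = n.primeFactors.image ix`, and `k` is determined since
the intervals `[pa k, pb k)` are disjoint and `n * pa k ≤ x < n * pb k`, `n * pa l ≤ x < n * pb l`, `k < l`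
would give `n * pb k ≤ n * pa l ≤ x`. Swap the sums.
-/

set_option autoImplicit false

namespace Pool.Agent.Helper66.MB

open Finset Pool.Agent.Helper92.GB

/-- The condition that `n` contributes to the set `T`. -/
def PT47 (x : ℕ) (T : Finset ℕ) (n : ℕ) : Prop :=
  ∃ k ∈ T, (∀ i ∈ T, i ≤ k) ∧ n ∈ spt (T.erase k) ∧ n * pa k ≤ x ∧ x < n * pb k

lemma PT47_unique {x : ℕ} {T S : Finset ℕ} {n : ℕ} (h : PT47 x T n) (h' : PT47 x S n) : T = S := by
  obtain ⟨k, hk, _, hks, hk1, hk2⟩ := h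
  obtain ⟨l, hl, _, hls, hl1, hl2⟩ := h'
  have e1 : T.erase k = S.erase l := spt_unique hks hls
  have e2 : k = l := by
    rcases lt_trichotomy k l with h | h | h
    · have h3 := pb_lt_pa h
      have h4 : n * pb k ≤ n * pa l := Nat.mul_le_mul_left n h3.le
      omega
    · exact h
    · have h3 := pb_lt_pa h
      have h4 : n * pb l ≤ n * pa k := Nat.mul_le_mul_left n h3.le
      omega
  subst e2
  rw [← insert_erase hk, e1, insert_erase hl]

lemma PT47_mem {x : ℕ} {T : Finset ℕ} {n : ℕ} (h : PT47 x T n) : n ∈ Wx x := by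
  obtain ⟨k, hk, hmax, hks, hk1, hk2⟩ := h
  obtain ⟨h1, h2, _, _, h5⟩ := mem_spt hks
  have h6 : n * 1 ≤ n * pa k := Nat.mul_le_mul_left n (pa_prime k).one_lt.le
  unfold Wx
  rw [mem_filter, mem_Icc]
  refine ⟨⟨h1, by omega⟩, h2, fun p hp => ?_⟩
  obtain ⟨i, hi, hpi⟩ := h5 p hp
  rw [mem_erase] at hi
  have hik : i < k := lt_of_le_of_ne (hmax i hi.2) hi.1
  have h7 := pb_lt_pa hik
  have h8 := pa_lt_pb i
  have h9 : p ≤ pa k := by rcases hpi with h | h <;> omega
  calc p * n ≤ pa k * n := Nat.mul_le_mul_right n h9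
    _ = n * pa k := mul_comm _ _
    _ ≤ x := hk1

open Classical in
lemma Sm_sq_le47 (x : ℕ) {T : Finset ℕ} (hT : T.Nonempty) :
    Sm x (dT T) ^ 2 ≤ ∑ n ∈ (Wx x).filter (PT47 x T), (2 : ℝ) ^ n.primeFactors.card := by
  set k := T.max' hT with hk
  have hkT : k ∈ T := T.max'_mem hT
  have hmax : ∀ i ∈ T, i ≤ k := fun i hi => T.le_max' i hi
  set T' := T.erase k with hT'
  have e1 : Sm x (dT T) = Sm (x / pa k) (dT T') - Sm (x / pb k) (dT T') := by
    have e2 : dT T = dl k * dT T' := by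
      unfold dT
      rw [hT', mul_prod_erase T dl hkT]
    rw [e2, dl, sub_mul, map_sub, Sm_mo_mul (pa_prime k).pos, Sm_mo_mul (pb_prime k).pos]
  have hle : x / pb k ≤ x / pa k := Nat.div_le_div_left (pa_lt_pb k).le (pa_prime k).pos
  set A := (spt T').filter (fun n => n * pa k ≤ x ∧ x < n * pb k) with hA
  have e3 : |Sm x (dT T)| ≤ (A.card : ℝ) := by
    rw [e1, Sm_diff hle]
    refine (abs_sum_le_sum_abs _ _).trans ?_
    refine (sum_le_sum fun n _ => abs_coeff_dT T' n).trans ?_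
    rw [← sum_filter, sum_const, nsmul_eq_mul, mul_one]
    norm_cast
    refine card_le_card fun n hn => ?_
    rw [mem_filter, mem_Ioc] at hn
    rw [hA, mem_filter]
    refine ⟨hn.2, ?_, ?_⟩
    · exact (Nat.le_div_iff_mul_le (pa_prime k).pos).1 hn.1.2
    · exact (Nat.div_lt_iff_lt_mul (pb_prime k).pos).1 hn.1.1
  have e4 : (A.card : ℝ) ≤ 2 ^ T'.card := by
    have h1 : A.card ≤ (spt T').card := card_le_card (filter_subset _ _)
    exact_mod_cast h1.trans (card_spt_le T')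
  have e5 : Sm x (dT T) ^ 2 ≤ (A.card : ℝ) * 2 ^ T'.card := by
    rw [← sq_abs]
    have h0 := abs_nonneg (Sm x (dT T))
    calc |Sm x (dT T)| ^ 2 ≤ (A.card : ℝ) ^ 2 := pow_le_pow_left₀ h0 e3 2
      _ = (A.card : ℝ) * A.card := by ring
      _ ≤ (A.card : ℝ) * 2 ^ T'.card := mul_le_mul_of_nonneg_left e4 (by positivity)
  refine e5.trans ?_
  have e6 : (A.card : ℝ) * 2 ^ T'.card = ∑ n ∈ A, (2 : ℝ) ^ n.primeFactors.card := by
    rw [← nsmul_eq_mul, ← sum_const]
    refine sum_congr rfl fun n hn => ?_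
    rw [hA, mem_filter] at hn
    rw [(mem_spt hn.1).2.2.1]
  rw [e6]
  refine sum_le_sum_of_subset_of_nonneg (fun n hn => ?_) (fun _ _ _ => by positivity)
  rw [hA, mem_filter] at hn
  have hP : PT47 x T n := ⟨k, hkT, hmax, hn.1, hn.2.1, hn.2.2⟩
  rw [mem_filter]
  exact ⟨PT47_mem hP, hP⟩

theorem second_count (I : Finset ℕ) (x : ℕ) :
    ∑ T ∈ I.powerset, Sm x (dT T) ^ 2 ≤ 1 + ∑ n ∈ Wx x, (2 : ℝ) ^ n.primeFactors.card := by
  classical
  have h0 : I.powerset = insert ∅ (I.powerset.erase ∅) := (insert_erase (empty_mem_powerset I)).symm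
  rw [h0, sum_insert (notMem_erase _ _)]
  have h1 : Sm x (dT ∅) ^ 2 ≤ 1 := by
    have h2 : dT ∅ = mo 1 := by unfold dT; rw [prod_empty, mo_one]
    rw [h2, Sm_mo]
    split_ifs <;> norm_num
  have h2 : ∑ T ∈ I.powerset.erase ∅, Sm x (dT T) ^ 2 ≤ ∑ n ∈ Wx x, (2 : ℝ) ^ n.primeFactors.card := by
    calc ∑ T ∈ I.powerset.erase ∅, Sm x (dT T) ^ 2
        ≤ ∑ T ∈ I.powerset.erase ∅, ∑ n ∈ (Wx x).filter (PT47 x T), (2 : ℝ) ^ n.primeFactors.card := by
          refine sum_le_sum fun T hT => Sm_sq_le47 x ?_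
          rw [mem_erase] at hT
          exact nonempty_iff_ne_empty.2 hT.1
      _ = ∑ T ∈ I.powerset.erase ∅, ∑ n ∈ Wx x,
            if PT47 x T n then (2 : ℝ) ^ n.primeFactors.card else 0 := by
          refine sum_congr rfl fun T _ => ?_
          rw [sum_filter]
      _ = ∑ n ∈ Wx x, ∑ T ∈ I.powerset.erase ∅,
            if PT47 x T n then (2 : ℝ) ^ n.primeFactors.card else 0 := sum_comm
      _ ≤ ∑ n ∈ Wx x, (2 : ℝ) ^ n.primeFactors.card := by
          refine sum_le_sum fun n _ => ?_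
          rw [← sum_filter, sum_const, nsmul_eq_mul]
          have h3 : ((I.powerset.erase ∅).filter (fun T => PT47 x T n)).card ≤ 1 := by
            rw [card_le_one]
            intro a ha b hb
            exact PT47_unique (mem_filter.1 ha).2 (mem_filter.1 hb).2
          have h4 : (((I.powerset.erase ∅).filter (fun T => PT47 x T n)).card : ℝ) ≤ 1 := by
            exact_mod_cast h3
          have h5 : (0 : ℝ) ≤ 2 ^ n.primeFactors.card := by positivity
          nlinarith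
  linarith

end Pool.Agent.Helper66.MB
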