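import Pool.Agent.Helper66.MB.Basic
import Pool.Agent.Helper92.GB.A1

/-!
# Block MB-CL (MP_a499ba_nt)

Proof. `bal_base`: `A1` (`Pool.Agent.Helper92.GB.A1`) with `δ = 1/10`: there are arbitrarily large `z` with at least `z^(9/10)` primes in
`(3z, 4z]`. Let `h = ⌊3z / log (4z)⌋`; for `3z ≤ X ≤ 4z`, `h ≤ X / log X` (`x / log x` is increasing for `x ≥ e`), so `(X, X+h]` is contained
in `(X, X + ⌊X / log X⌋]`. The at most `log (4z) + 2` intervals `(3z + j h, 3z + (j+1) h]`, `j = 0, 1, ...`, cover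
`(3z, 4z]`; one of them, `(X, X + h]`, contains at least `m = z^(9/10) / (log (4z) + 2)` primes. Consecutive primes form the pairs `(pa i, pb i)`, so at
least `(m - 2)/2` pairs lie entirely in the interval and `sgn ω` is `1` at one prime of each pair. Finally `(m-2)/2 ≥ (4z)^(2/3) ≥ X^(2/3)` for
`z` large. `bal_flipS`: the change on the finite set `S` does not matter for `X` larger than all elements of `S`.
-/

set_option autoImplicit false

namespace Pool.Agent.Helper66.MB

open Finset Pool.Agent.Helper92.GB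

/-- The primes in `(X, Y]` by the counting function. -/
lemma CL_card (X Y : ℕ) (h : X ≤ Y) :
    Nat.count Nat.Prime (X + 1) + ((Ioc X Y).filter Nat.Prime).card = Nat.count Nat.Prime (Y + 1) := by
  rw [Nat.count_eq_card_filter_range, Nat.count_eq_card_filter_range,
    ← card_union_of_disjoint, ← filter_union]
  · congr 2
    ext n
    simp only [mem_union, mem_range, mem_Ioc]
    omega
  · rw [Finset.disjoint_left]
    intro n hn hn'
    simp only [mem_filter, mem_range, mem_Ioc] at hn hn'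
    omega

/-- At least half of the primes of an interval, up to one, have the sign `1`. -/
lemma CL_half (ω : ℕ → ℤˣ) (X Y : ℕ) (h : X ≤ Y) :
    ((Ioc X Y).filter Nat.Prime).card ≤
      2 * ((Ioc X Y).filter (fun p => p.Prime ∧ sgn ω p = 1)).card + 2 := by
  classical
  have hinf := Nat.infinite_setOfPred_prime
  set c := Nat.count Nat.Prime (X + 1) with hc
  set m := ((Ioc X Y).filter Nat.Prime).card with hm
  have hcm : c + m = Nat.count Nat.Prime (Y + 1) := CL_card X Y h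
  set I : Finset ℕ := Ico ((c + 1) / 2) ((c + m) / 2) with hI
  have hIc : m ≤ 2 * I.card + 2 := by
    rw [hI, Nat.card_Ico]; omega
  have hle : I.card ≤ ((Ioc X Y).filter (fun p => p.Prime ∧ sgn ω p = 1)).card := by
    refine card_le_card_of_injOn (fun i => if ω i = 1 then pa i else pb i) ?_ ?_
    · intro i hi
      rw [hI, mem_coe, mem_Ico] at hi
      have h1 : c ≤ 2 * i := by omega
      have h2 : 2 * i + 1 < c + m := by omega
      have h3 : X + 1 ≤ pa i := (Nat.count_le_iff_le_nth hinf).1 h1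
      have h4 : pb i < Y + 1 := by
        rw [hcm] at h2
        exact (Nat.lt_nth_iff_count_lt hinf).1 h2
      have h5 := pa_lt_pb i
      rw [mem_coe, mem_filter, mem_Ioc]
      by_cases hw : ω i = 1
      · simp only [hw, if_true]
        refine ⟨⟨by omega, by omega⟩, pa_prime i, ?_⟩
        rw [sgn_pa, hw]; rfl
      · simp only [hw, if_false]
        refine ⟨⟨by omega, by omega⟩, pb_prime i, ?_⟩
        have hw' : ω i = -1 := by
          rcases Int.units_eq_one_or (ω i) with h | h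
          · exact absurd h hw
          · exact h
        rw [sgn_pb, hw']; rfl
    · intro i _ j _ hij
      simp only at hij
      have key : ∀ k, ix (if ω k = 1 then pa k else pb k) = k := by
        intro k
        split_ifs
        · exact ix_pa k
        · exact ix_pb k
      rw [← key i, ← key j, hij]
  omega

lemma CL_log : ∃ N : ℕ, ∀ z : ℕ, N ≤ z → 2 ≤ Real.log (4 * z) ∧
    Real.log (4 * z) ≤ (z : ℝ) ^ ((1 : ℝ) / 10) / 50 := by
  have h1 := (isLittleO_log_rpow_atTop (r := (1 : ℝ) / 10) (by norm_num)).bound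
    (show (0 : ℝ) < 1 / 100 by norm_num)
  have h2 : ∀ᶠ x : ℝ in Filter.atTop, 8 ≤ x := Filter.eventually_ge_atTop 8
  obtain ⟨a, ha⟩ := Filter.eventually_atTop.1 (h1.and h2)
  refine ⟨⌈a⌉₊, fun z hz => ?_⟩
  have hza : a ≤ z := (Nat.le_ceil a).trans (by exact_mod_cast hz)
  have hz8 : (8 : ℝ) ≤ z := (ha z hza).2
  have hz4 : a ≤ 4 * (z : ℝ) := by linarith
  have h3 := (ha _ hz4).1
  have hlog8 : 2 ≤ Real.log (4 * z) := by
    rw [Real.le_log_iff_exp_le (by linarith)]
    have h4 : Real.exp 2 = Real.exp 1 * Real.exp 1 := by rw [← Real.exp_add]; norm_num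
    have h5 := Real.exp_one_lt_d9
    have h6 := Real.exp_pos 1
    rw [h4]
    nlinarith
  refine ⟨hlog8, ?_⟩
  rw [Real.norm_of_nonneg (by linarith), Real.norm_of_nonneg (by positivity)] at h3
  have h4 : (4 * (z : ℝ)) ^ ((1 : ℝ) / 10) ≤ 2 * (z : ℝ) ^ ((1 : ℝ) / 10) := by
    rw [Real.mul_rpow (by norm_num) (by linarith)]
    apply mul_le_mul_of_nonneg_right _ (by positivity)
    calc (4 : ℝ) ^ ((1 : ℝ) / 10) ≤ (4 : ℝ) ^ ((1 : ℝ) / 2) :=
          Real.rpow_le_rpow_of_exponent_le (by norm_num) (by norm_num)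
      _ = 2 := by
          rw [← Real.sqrt_eq_rpow, show (4 : ℝ) = 2 ^ 2 by norm_num]
          exact Real.sqrt_sq (by norm_num)
  linarith

theorem bal_base (ω : ℕ → ℤˣ) : Bal (sgn ω) := by
  classical
  intro X₀
  obtain ⟨N, hN⟩ := CL_log
  obtain ⟨z, hz, hP⟩ := A1 (1 / 10) (by norm_num) (max (max X₀ N) 2)
  have hzX : X₀ ≤ z := (le_max_left _ _).trans ((le_max_left _ _).trans hz)
  have hzN : N ≤ z := (le_max_right _ _).trans ((le_max_left _ _).trans hz)
  have hz2 : 2 ≤ z := (le_max_right _ _).trans hz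
  obtain ⟨hL2, hLz⟩ := hN z hzN
  have hz2' : (2 : ℝ) ≤ z := by exact_mod_cast hz2
  set L : ℝ := Real.log (4 * z) with hL
  have hLpos : 0 < L := by linarith
  have hz1 : (1 : ℝ) ≤ z := by linarith
  have hzpow : (z : ℝ) ^ ((1 : ℝ) / 10) ≤ z := by
    calc (z : ℝ) ^ ((1 : ℝ) / 10) ≤ (z : ℝ) ^ (1 : ℝ) :=
          Real.rpow_le_rpow_of_exponent_le hz1 (by norm_num)
      _ = z := Real.rpow_one _
  have hLz' : L ≤ z := by
    have : (0 : ℝ) ≤ (z : ℝ) ^ ((1 : ℝ) / 10) := by positivity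
    linarith
  set h : ℕ := ⌊3 * (z : ℝ) / L⌋₊ with hh
  have hh1 : (h : ℝ) ≤ 3 * z / L := Nat.floor_le (by positivity)
  have hh2 : 3 * (z : ℝ) / L < h + 1 := Nat.lt_floor_add_one _
  have hzL : 1 ≤ (z : ℝ) / L := by rw [le_div_iff₀ hLpos]; linarith
  have hh3 : 2 * ((z : ℝ) / L) ≤ h := by
    have : 3 * (z : ℝ) / L = 3 * (z / L) := by ring
    linarith
  have hhpos : 0 < h := by
    have : (0 : ℝ) < h := by linarith
    exact_mod_cast this
  set J : ℕ := z / h + 1 with hJ
  have hJh : z < J * h := by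
    rw [hJ, mul_comm]
    exact Nat.lt_mul_div_succ z hhpos
  have hJL : (J : ℝ) ≤ L := by
    have h1 : ((z / h : ℕ) : ℝ) ≤ (z : ℝ) / h := Nat.cast_div_le
    have h2 : (z : ℝ) / h ≤ L / 2 := by
      rw [div_le_div_iff₀ (by exact_mod_cast hhpos) (by norm_num)]
      have h3 : 2 * ((z : ℝ) / L) * L ≤ h * L := mul_le_mul_of_nonneg_right hh3 hLpos.le
      have h4 : 2 * ((z : ℝ) / L) * L = 2 * z := by field_simp
      linarith
    rw [hJ]; push_cast
    linarith
  have hJpos : 0 < J := Nat.succ_pos _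
  -- pigeonhole
  set cnt : ℕ → ℝ := fun j => (Nat.count Nat.Prime (3 * z + j * h + 1) : ℝ) with hcnt
  have htel : ∑ j ∈ range J, (cnt (j + 1) - cnt j) = cnt J - cnt 0 := sum_range_sub cnt J
  have hPle : (((Ioc (3 * z) (4 * z)).filter Nat.Prime).card : ℝ) ≤ cnt J - cnt 0 := by
    have h1 := CL_card (3 * z) (4 * z) (by omega)
    have h2 : Nat.count Nat.Prime (4 * z + 1) ≤ Nat.count Nat.Prime (3 * z + J * h + 1) :=
      Nat.count_monotone _ (by omega)
    have h3 : (Nat.count Nat.Prime (3 * z + 1) : ℝ) + ((Ioc (3 * z) (4 * z)).filter Nat.Prime).card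
        ≤ (Nat.count Nat.Prime (3 * z + J * h + 1) : ℝ) := by
      exact_mod_cast h1.le.trans h2
    simp only [hcnt, Nat.zero_mul, Nat.add_zero]
    linarith
  obtain ⟨j, hj, hjle⟩ := exists_le_of_sum_le (s := range J)
    (f := fun _ => (((Ioc (3 * z) (4 * z)).filter Nat.Prime).card : ℝ) / J)
    (g := fun j => cnt (j + 1) - cnt j) ⟨0, mem_range.2 hJpos⟩ (by
      rw [htel, sum_const, card_range, nsmul_eq_mul, mul_div_cancel₀ _ (by exact_mod_cast hJpos.ne')]
      exact hPle)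
  rw [mem_range] at hj
  set X : ℕ := 3 * z + j * h with hX
  have hjh : j * h ≤ z := by
    have h1 : j ≤ z / h := Nat.lt_succ_iff.1 hj
    exact (Nat.mul_le_mul_right h h1).trans (Nat.div_mul_le_self z h)
  have hX3 : 3 * z ≤ X := by omega
  have hX4 : X ≤ 4 * z := by omega
  have hX3' : 3 * (z : ℝ) ≤ X := by exact_mod_cast hX3
  have hX4' : (X : ℝ) ≤ 4 * z := by exact_mod_cast hX4
  have hX1 : 1 < (X : ℝ) := by linarith
  refine ⟨X, by omega, ?_⟩
  have hlogX : 0 < Real.log X := Real.log_pos hX1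
  have hlogXL : Real.log X ≤ L := Real.log_le_log (by linarith) hX4'
  have hhX : h ≤ ⌊(X : ℝ) / Real.log X⌋₊ := by
    apply Nat.floor_le_floor
    calc 3 * (z : ℝ) / L ≤ X / L := by
          rw [div_le_div_iff_of_pos_right hLpos]; exact hX3'
      _ ≤ X / Real.log X := div_le_div_of_nonneg_left (by linarith) hlogX hlogXL
  have hmono : ((Ioc X (X + h)).filter (fun p => p.Prime ∧ sgn ω p = 1)).card ≤
      ((Ioc X (X + ⌊(X : ℝ) / Real.log X⌋₊)).filter (fun p => p.Prime ∧ sgn ω p = 1)).card := by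
    apply card_le_card
    apply filter_subset_filter
    apply Ioc_subset_Ioc_right
    omega
  have hhalf := CL_half ω X (X + h) (by omega)
  have hcard := CL_card X (X + h) (by omega)
  have hm : (((Ioc X (X + h)).filter Nat.Prime).card : ℝ) = cnt (j + 1) - cnt j := by
    have h1 : 3 * z + (j + 1) * h + 1 = X + h + 1 := by rw [hX]; ring
    have h2 : (Nat.count Nat.Prime (X + 1) : ℝ) + ((Ioc X (X + h)).filter Nat.Prime).card =
        (Nat.count Nat.Prime (X + h + 1) : ℝ) := by exact_mod_cast hcard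
    simp only [hcnt]
    rw [h1, ← hX]
    linarith
  have hmlow : (z : ℝ) ^ ((9 : ℝ) / 10) / L ≤ (((Ioc X (X + h)).filter Nat.Prime).card : ℝ) := by
    rw [hm]
    refine le_trans ?_ hjle
    have hJ' : (0 : ℝ) < J := by exact_mod_cast hJpos
    have e : (1 : ℝ) - 1 / 10 = 9 / 10 := by norm_num
    rw [e] at hP
    calc (z : ℝ) ^ ((9 : ℝ) / 10) / L ≤ (z : ℝ) ^ ((9 : ℝ) / 10) / J :=
          div_le_div_of_nonneg_left (by positivity) hJ' hJL
      _ ≤ (((Ioc (3 * z) (4 * z)).filter Nat.Prime).card : ℝ) / J := by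
          rw [div_le_div_iff_of_pos_right hJ']
          exact hP
  have hhalf' : (((Ioc X (X + h)).filter Nat.Prime).card : ℝ) ≤
      2 * (((Ioc X (X + h)).filter (fun p => p.Prime ∧ sgn ω p = 1)).card : ℝ) + 2 := by
    exact_mod_cast hhalf
  have hmono' : (((Ioc X (X + h)).filter (fun p => p.Prime ∧ sgn ω p = 1)).card : ℝ) ≤
      (((Ioc X (X + ⌊(X : ℝ) / Real.log X⌋₊)).filter (fun p => p.Prime ∧ sgn ω p = 1)).card : ℝ) := by
    exact_mod_cast hmono
  -- numerics
  have hX23 : (X : ℝ) ^ ((2 : ℝ) / 3) ≤ 3 * (z : ℝ) ^ ((2 : ℝ) / 3) := by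
    calc (X : ℝ) ^ ((2 : ℝ) / 3) ≤ (4 * (z : ℝ)) ^ ((2 : ℝ) / 3) :=
          Real.rpow_le_rpow (by linarith) hX4' (by norm_num)
      _ = (4 : ℝ) ^ ((2 : ℝ) / 3) * (z : ℝ) ^ ((2 : ℝ) / 3) :=
          Real.mul_rpow (by norm_num) (by linarith)
      _ ≤ 3 * (z : ℝ) ^ ((2 : ℝ) / 3) := by
          apply mul_le_mul_of_nonneg_right _ (by positivity)
          have h27 : (4 : ℝ) ^ ((2 : ℝ) / 3) = (16 : ℝ) ^ ((1 : ℝ) / 3) := by
            rw [show (16 : ℝ) = 4 ^ (2 : ℝ) by norm_num, ← Real.rpow_mul (by norm_num)]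
            norm_num
          rw [h27]
          calc (16 : ℝ) ^ ((1 : ℝ) / 3) ≤ (27 : ℝ) ^ ((1 : ℝ) / 3) :=
                Real.rpow_le_rpow (by norm_num) (by norm_num) (by norm_num)
            _ = 3 := by
                rw [show (27 : ℝ) = 3 ^ (3 : ℝ) by norm_num, ← Real.rpow_mul (by norm_num)]
                norm_num
  have hz23 : (1 : ℝ) ≤ (z : ℝ) ^ ((2 : ℝ) / 3) := Real.one_le_rpow hz1 (by norm_num)
  have hbig : 8 * (z : ℝ) ^ ((2 : ℝ) / 3) ≤ (z : ℝ) ^ ((9 : ℝ) / 10) / L := by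
    rw [le_div_iff₀ hLpos]
    calc 8 * (z : ℝ) ^ ((2 : ℝ) / 3) * L
        ≤ 8 * (z : ℝ) ^ ((2 : ℝ) / 3) * ((z : ℝ) ^ ((1 : ℝ) / 10) / 50) :=
          mul_le_mul_of_nonneg_left hLz (by positivity)
      _ = (8 / 50) * ((z : ℝ) ^ ((2 : ℝ) / 3) * (z : ℝ) ^ ((1 : ℝ) / 10)) := by ring
      _ = (8 / 50) * (z : ℝ) ^ ((2 : ℝ) / 3 + 1 / 10) := by
          rw [← Real.rpow_add (by linarith)]
      _ ≤ 1 * (z : ℝ) ^ ((9 : ℝ) / 10) := by
          apply mul_le_mul (by norm_num) _ (by positivity) (by norm_num)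
          exact Real.rpow_le_rpow_of_exponent_le hz1 (by norm_num)
      _ = (z : ℝ) ^ ((9 : ℝ) / 10) := one_mul _
  linarith

theorem bal_flipS (f : ℕ → ℤ) (h : Bal f) (S : Finset ℕ) : Bal (flipS f S) := by
  intro X₀
  obtain ⟨X, hX, hle⟩ := h (max X₀ (S.sup id))
  refine ⟨X, (le_max_left _ _).trans hX, ?_⟩
  have hS : ∀ p, X < p → flipS f S p = f p := by
    intro p hp
    unfold flipS
    rw [if_neg]
    intro hpS
    have h1 : p ≤ S.sup id := Finset.le_sup (f := id) hpS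
    have h2 : S.sup id ≤ X := (le_max_right _ _).trans hX
    omega
  have heq : (Ioc X (X + ⌊(X : ℝ) / Real.log X⌋₊)).filter (fun p => p.Prime ∧ flipS f S p = 1) =
      (Ioc X (X + ⌊(X : ℝ) / Real.log X⌋₊)).filter (fun p => p.Prime ∧ f p = 1) := by
    apply filter_congr
    intro p hp
    rw [mem_Ioc] at hp
    rw [hS p hp.1]
  rw [heq]
  exact hle

end Pool.Agent.Helper66.MB
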