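import Pool.Agent.Helper66.MB.Base
import Pool.Agent.Helper66.MB.Cluster
import Pool.Agent.Helper66.MB.Stage
import Pool.Agent.Helper92.GB.SEQ

/-!
# Block MB-GL (MP_a499ba_nt)

Infinitely many stages. (Imported statements may be used while they are still `sorry`.)

Proof. Let `f₀ = sgn ω` from `base`. Apply `Pool.Agent.Helper92.GB.SEQ` with `α = ℕ × ℕ × Finset ℕ` (entries `X_j, N_j, R_j`); for a sequence
`σ` let `S_j = ⋃_{i<j} R_i` and `f_j = flipS f₀ S_j`. `P j σ` says: `X_j ≥ 4 X_i`, `X_j > 2 N_i`, `X_j > max R_i` for `i < j`, `X_j ≥ j + 1`, and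
the conclusions of `stage` for `f_j`, `b j`, `δ j`. (`Cl f_j`: `Cl_flipS`; `Bal f_j`: `bal_flipS`, `bal_base`.) Let `f n = -f₀ n` if `n` is in
some `R_j`, else `f₀ n` (classical). For `n ≤ X_{j+1}` this agrees with `flipS f_j R_j = flipS f₀ (S_j ∪ R_j)` (the `R_j` are disjoint from the
earlier ones), so `Mf f x = Mf (flipS f_j R_j) x` for `x ≤ X_{j+1}`. `PS f`: the sums of `f` and `f₀` differ by at most
`2 ∑_{j : X_j < y} |R_j| ≤ 2 ∑ √X_j log X_j ≤ 4 √y log y` (`X_{j+1} ≥ 4 X_j`), which is `≤ C_ε y^{1/2+ε} log (q(2+|t|))` as `log(q(2+|t|)) ≥ log 2`.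
-/

set_option autoImplicit false

namespace Pool.Agent.Helper66.MB

open Finset Pool.Agent.Helper92.GB

lemma ext_congr {f g : ℕ → ℤ} {n : ℕ} (h : ∀ p ≤ n, f p = g p) :
    Helper92.GB.ext f n = Helper92.GB.ext g n := by
  unfold Helper92.GB.ext
  split_ifs with hs
  · exact Finset.prod_congr rfl fun p hp => h p (Nat.le_of_mem_primeFactors hp)
  · rfl

lemma Mf_congr {f g : ℕ → ℤ} {x : ℕ} (h : ∀ p ≤ x, f p = g p) : Mf f x = Mf g x := by
  unfold Mf
  refine Finset.sum_congr rfl fun n hn => ?_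
  rw [ext_congr fun p hp => h p (hp.trans (Finset.mem_Icc.1 hn).2)]

lemma norm_npi_le (n : ℕ) (t : ℝ) (hn : 0 < n) : ‖npi n t‖ = 1 := by
  unfold npi
  rw [Complex.norm_natCast_cpow_of_pos hn]
  simp

lemma PS_of_close (f g : ℕ → ℤ) (hg : PS g) (D : Set ℕ) [DecidablePred (fun n => n ∈ D)]
    (h : ∀ n, n ∉ D → f n = g n) (h2 : ∀ n, |f n - g n| ≤ 2)
    (hc : ∀ y : ℕ, (((Icc 1 y).filter (fun n => n ∈ D)).card : ℝ) ≤ 2 * Real.sqrt y * Real.log y) :
    PS f := by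
  intro ε hε
  obtain ⟨C, hC⟩ := hg ε hε
  have hl2 : 0 < Real.log 2 := Real.log_pos (by norm_num)
  refine ⟨C + 4 / ε / Real.log 2, fun q χ t y hq => ?_⟩
  have hL : Real.log 2 ≤ Real.log (q * (2 + |t|)) := by
    refine Real.log_le_log (by norm_num) ?_
    have h1 : (1 : ℝ) ≤ q := by exact_mod_cast hq
    nlinarith [abs_nonneg t]
  have h3 : ∑ p ∈ (Icc 1 y).filter Nat.Prime, (f p : ℂ) * χ (p : ZMod q) * npi p t =
      ∑ p ∈ (Icc 1 y).filter Nat.Prime, (g p : ℂ) * χ (p : ZMod q) * npi p t +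
      ∑ p ∈ (Icc 1 y).filter Nat.Prime, ((f p - g p : ℤ) : ℂ) * χ (p : ZMod q) * npi p t := by
    rw [← sum_add_distrib]
    refine sum_congr rfl fun p _ => ?_
    push_cast
    ring
  have h4 : ‖∑ p ∈ (Icc 1 y).filter Nat.Prime, ((f p - g p : ℤ) : ℂ) * χ (p : ZMod q) * npi p t‖ ≤
      2 * (((Icc 1 y).filter (fun n => n ∈ D)).card : ℝ) := by
    refine (norm_sum_le _ _).trans ?_
    have h5 : ∀ p ∈ (Icc 1 y).filter Nat.Prime,
        ‖((f p - g p : ℤ) : ℂ) * χ (p : ZMod q) * npi p t‖ ≤ if p ∈ D then (2 : ℝ) else 0 := by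
      intro p hp
      have hp0 : 0 < p := (mem_Icc.1 (mem_filter.1 hp).1).1
      rw [norm_mul, norm_mul, norm_npi_le p t hp0, mul_one]
      split_ifs with hD
      · have h6 : ‖((f p - g p : ℤ) : ℂ)‖ ≤ 2 := by
          rw [Complex.norm_intCast]
          exact_mod_cast h2 p
        have h7 : ‖χ (p : ZMod q)‖ ≤ 1 := χ.norm_le_one _
        nlinarith [norm_nonneg ((f p - g p : ℤ) : ℂ), norm_nonneg (χ (p : ZMod q))]
      · rw [h p hD]; simp
    refine (sum_le_sum h5).trans ?_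
    rw [← sum_filter, sum_const, nsmul_eq_mul, mul_comm]
    refine mul_le_mul_of_nonneg_left ?_ (by norm_num)
    have h8 : ((Icc 1 y).filter Nat.Prime).filter (fun n => n ∈ D) ⊆ (Icc 1 y).filter (fun n => n ∈ D) := by
      intro n hn
      rw [mem_filter, mem_filter] at hn
      exact mem_filter.2 ⟨hn.1.1, hn.2⟩
    exact_mod_cast card_le_card h8
  have h9 : 4 * (Real.sqrt y * Real.log y) ≤ 4 / ε * (y : ℝ) ^ (1 / 2 + ε) := by
    rcases Nat.eq_zero_or_pos y with rfl | hy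
    · simp only [Nat.cast_zero, Real.sqrt_zero, zero_mul, mul_zero]
      positivity
    · have hy' : (0 : ℝ) < y := by exact_mod_cast hy
      have h10 := Real.log_le_rpow_div hy'.le hε
      rw [Real.rpow_add hy', ← Real.sqrt_eq_rpow]
      calc 4 * (Real.sqrt y * Real.log y) ≤ 4 * (Real.sqrt y * ((y : ℝ) ^ ε / ε)) := by
            gcongr
        _ = 4 / ε * (Real.sqrt y * (y : ℝ) ^ ε) := by ring
  have h11 : 0 ≤ 4 / ε * (y : ℝ) ^ (1 / 2 + ε) := by positivity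
  have h12 : 4 / ε * (y : ℝ) ^ (1 / 2 + ε) ≤
      4 / ε / Real.log 2 * (y : ℝ) ^ (1 / 2 + ε) * Real.log (q * (2 + |t|)) := by
    have h13 : 4 / ε * (y : ℝ) ^ (1 / 2 + ε) * Real.log 2 ≤
        4 / ε * (y : ℝ) ^ (1 / 2 + ε) * Real.log (q * (2 + |t|)) :=
      mul_le_mul_of_nonneg_left hL h11
    calc 4 / ε * (y : ℝ) ^ (1 / 2 + ε) =
          (4 / ε * (y : ℝ) ^ (1 / 2 + ε) * Real.log 2) / Real.log 2 := by field_simp
      _ ≤ (4 / ε * (y : ℝ) ^ (1 / 2 + ε) * Real.log (q * (2 + |t|))) / Real.log 2 :=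
          div_le_div_of_nonneg_right h13 hl2.le
      _ = 4 / ε / Real.log 2 * (y : ℝ) ^ (1 / 2 + ε) * Real.log (q * (2 + |t|)) := by ring
  calc ‖∑ p ∈ (Icc 1 y).filter Nat.Prime, (f p : ℂ) * χ (p : ZMod q) * npi p t‖
      ≤ C * (y : ℝ) ^ (1 / 2 + ε) * Real.log (q * (2 + |t|)) +
        2 * (((Icc 1 y).filter (fun n => n ∈ D)).card : ℝ) := by
        rw [h3]
        exact (norm_add_le _ _).trans (add_le_add (hC q χ t y hq) h4)
    _ ≤ C * (y : ℝ) ^ (1 / 2 + ε) * Real.log (q * (2 + |t|)) +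
        4 / ε / Real.log 2 * (y : ℝ) ^ (1 / 2 + ε) * Real.log (q * (2 + |t|)) := by
        have := hc y
        linarith
    _ = (C + 4 / ε / Real.log 2) * (y : ℝ) ^ (1 / 2 + ε) * Real.log (q * (2 + |t|)) := by ring

/-- Union of the sets of the first `j` stages. -/
def US (σ : ℕ → ℕ × ℕ × Finset ℕ) (j : ℕ) : Finset ℕ := (range j).biUnion fun i => (σ i).2.2

/-- The conditions of the stage `j`. -/
def Pst (f₀ : ℕ → ℤ) (b δ : ℕ → ℝ) (j : ℕ) (σ : ℕ → ℕ × ℕ × Finset ℕ) : Prop :=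
  (∀ i < j, 4 * (σ i).1 ≤ (σ j).1 ∧ (σ i).2.1 < (σ j).1 ∧ ∀ p ∈ (σ i).2.2, p ≤ (σ j).1) ∧
  j + 1 ≤ (σ j).1 ∧
  (∀ p ∈ (σ j).2.2, (σ j).1 < p) ∧
  (((σ j).2.2.card : ℝ) ≤ Real.sqrt (σ j).1 * Real.log (σ j).1) ∧
  (∀ x : ℕ, (σ j).1 ≤ x →
    |Mf (flipS (flipS f₀ (US σ j)) (σ j).2.2) x| ≤ (b j + δ j) * (Real.sqrt x * el x)) ∧
  (∃ x : ℕ, (σ j).1 ≤ x ∧ x ≤ (σ j).2.1 ∧
    (b j - δ j) * (Real.sqrt x * el x) ≤ Mf (flipS (flipS f₀ (US σ j)) (σ j).2.2) x) ∧
  (∃ x : ℕ, (σ j).1 ≤ x ∧ x ≤ (σ j).2.1 ∧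
    Mf (flipS (flipS f₀ (US σ j)) (σ j).2.2) x ≤ -((b j - δ j) * (Real.sqrt x * el x)))

lemma US_congr {σ τ : ℕ → ℕ × ℕ × Finset ℕ} {j : ℕ} (h : ∀ i < j, σ i = τ i) : US σ j = US τ j := by
  unfold US
  refine Finset.biUnion_congr rfl fun i hi => ?_
  rw [h i (mem_range.1 hi)]

lemma Pst_local (f₀ : ℕ → ℤ) (b δ : ℕ → ℝ) (j : ℕ) (σ τ : ℕ → ℕ × ℕ × Finset ℕ)
    (h : ∀ i ≤ j, σ i = τ i) (hP : Pst f₀ b δ j σ) : Pst f₀ b δ j τ := by
  obtain ⟨h1, h2, h3, h4, h5, h6, h7⟩ := hP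
  have hU : US σ j = US τ j := US_congr fun i hi => h i hi.le
  rw [h j le_rfl] at h2 h3 h4 h5 h6 h7
  rw [hU] at h5 h6 h7
  refine ⟨fun i hi => ?_, h2, h3, h4, h5, h6, h7⟩
  have := h1 i hi
  rw [h j le_rfl, h i hi.le] at this
  exact this

lemma Pst_exists (f₀ : ℕ → ℤ) (h0 : ∀ n, f₀ n = 1 ∨ f₀ n = -1) (hC : Cl f₀) (hB : Bal f₀)
    (b δ : ℕ → ℝ) (hb : ∀ j, 0 < b j) (hδ : ∀ j, 0 < δ j) (j : ℕ) (σ : ℕ → ℕ × ℕ × Finset ℕ) :
    ∃ a : ℕ × ℕ × Finset ℕ, Pst f₀ b δ j (Function.update σ j a) := by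
  have hf : ∀ n, flipS f₀ (US σ j) n = 1 ∨ flipS f₀ (US σ j) n = -1 := by
    intro n
    unfold flipS
    rcases h0 n with h | h <;> split_ifs <;> simp [h]
  obtain ⟨X, N, R, hX, hXN, hR, hRc, hup, hlo1, hlo2⟩ := stage (flipS f₀ (US σ j)) hf
    (Cl_flipS f₀ h0 hC _) (bal_flipS f₀ hB _) (b j) (δ j) (hb j) (hδ j)
    (j + 1 + ∑ i ∈ range j, (4 * (σ i).1 + ((σ i).2.1 + 1) + ∑ p ∈ (σ i).2.2, p))
  refine ⟨(X, N, R), ?_⟩
  have hU : US (Function.update σ j (X, N, R)) j = US σ j :=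
    US_congr fun i hi => by rw [Function.update_of_ne (by omega)]
  unfold Pst
  rw [hU, Function.update_self]
  refine ⟨fun i hi => ?_, by omega, fun p hp => (hR p hp).2.1, hRc, hup, hlo1, hlo2⟩
  rw [Function.update_of_ne (by omega)]
  have h1 : 4 * (σ i).1 + ((σ i).2.1 + 1) + ∑ p ∈ (σ i).2.2, p ≤
      ∑ i ∈ range j, (4 * (σ i).1 + ((σ i).2.1 + 1) + ∑ p ∈ (σ i).2.2, p) :=
    Finset.single_le_sum (f := fun i => 4 * (σ i).1 + ((σ i).2.1 + 1) + ∑ p ∈ (σ i).2.2, p)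
      (fun _ _ => Nat.zero_le _) (mem_range.2 hi)
  refine ⟨by show 4 * (σ i).1 ≤ X; omega, by show (σ i).2.1 < X; omega, fun p hp => ?_⟩
  have h2 : p ≤ ∑ p ∈ (σ i).2.2, p :=
    Finset.single_le_sum (f := fun p => p) (fun _ _ => Nat.zero_le _) hp
  show p ≤ X
  omega

theorem glue (b δ : ℕ → ℝ) (hb : ∀ j, 0 < b j) (hδ : ∀ j, 0 < δ j) :
    ∃ (f : ℕ → ℤ) (X : ℕ → ℕ), (∀ n, f n = 1 ∨ f n = -1) ∧ PS f ∧ StrictMono X ∧
      (∀ j x : ℕ, X j ≤ x → x < X (j + 1) → |Mf f x| ≤ (b j + δ j) * (Real.sqrt x * el x)) ∧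
      (∀ j : ℕ, ∃ x : ℕ, X j ≤ x ∧ (b j - δ j) * (Real.sqrt x * el x) ≤ Mf f x) ∧
      (∀ j : ℕ, ∃ x : ℕ, X j ≤ x ∧ Mf f x ≤ -((b j - δ j) * (Real.sqrt x * el x))) := by
  classical
  obtain ⟨ω, hPS, hCl⟩ := base
  obtain ⟨σ, hσ⟩ := SEQ (Pst (sgn ω) b δ) (Pst_local (sgn ω) b δ)
    (Pst_exists (sgn ω) (sgn_mem ω) hCl (bal_base ω) b δ hb hδ)
  have hlt : ∀ j, (σ j).1 < (σ (j + 1)).1 := by
    intro j
    have h1 := ((hσ (j + 1)).1 j (by omega)).1
    have h2 := (hσ j).2.1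
    omega
  have hmono : StrictMono fun j => (σ j).1 := strictMono_nat_of_lt_succ hlt
  have hle : ∀ i j, i ≤ j → (σ i).1 ≤ (σ j).1 := fun i j h => hmono.monotone h
  let f : ℕ → ℤ := fun n => if ∃ j, n ∈ (σ j).2.2 then -sgn ω n else sgn ω n
  have hfdef : ∀ n, f n = if ∃ j, n ∈ (σ j).2.2 then -sgn ω n else sgn ω n := fun n => rfl
  have hmemU : ∀ j n, n ≤ (σ j).1 → ((∃ i, n ∈ (σ i).2.2) ↔ n ∈ US σ j) := by
    intro j n hn
    unfold US
    rw [mem_biUnion]
    constructor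
    · rintro ⟨i, hi⟩
      refine ⟨i, ?_, hi⟩
      rw [mem_range]
      by_contra hij
      have h1 := hle j i (by omega)
      have h2 := (hσ i).2.2.1 n hi
      omega
    · rintro ⟨i, -, hi⟩
      exact ⟨i, hi⟩
  have hdouble : ∀ j n, flipS (flipS (sgn ω) (US σ j)) (σ j).2.2 n = flipS (sgn ω) (US σ (j + 1)) n := by
    intro j n
    have hU : US σ (j + 1) = (σ j).2.2 ∪ US σ j := by
      unfold US
      rw [range_add_one, biUnion_insert]
    unfold flipS
    simp only [hU, mem_union]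
    by_cases h1 : n ∈ (σ j).2.2
    · have h2 : n ∉ US σ j := by
        intro h
        unfold US at h
        rw [mem_biUnion] at h
        obtain ⟨i, hi, hn⟩ := h
        have h3 := ((hσ j).1 i (mem_range.1 hi)).2.2 n hn
        have h4 := (hσ j).2.2.1 n h1
        omega
      simp [h1, h2]
    · simp [h1]
  have hagree : ∀ j x, x ≤ (σ (j + 1)).1 →
      Mf f x = Mf (flipS (flipS (sgn ω) (US σ j)) (σ j).2.2) x := by
    intro j x hx
    refine Mf_congr fun p hp => ?_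
    rw [hdouble, hfdef]
    unfold flipS
    simp only [hmemU (j + 1) p (hp.trans hx)]
  refine ⟨f, fun j => (σ j).1, ?_, ?_, hmono, ?_, ?_, ?_⟩
  · intro n
    rw [hfdef]
    rcases sgn_mem ω n with h | h <;> split_ifs <;> simp [h]
  · refine PS_of_close f (sgn ω) hPS {n | ∃ j, n ∈ (σ j).2.2} ?_ ?_ ?_
    · intro n hn
      have hn' : ¬ ∃ j, n ∈ (σ j).2.2 := hn
      rw [hfdef, if_neg hn']
    · intro n
      rw [hfdef]
      rcases sgn_mem ω n with h | h <;> split_ifs <;> simp [h]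
    · intro y
      have hlog : 0 ≤ Real.log y := Real.log_natCast_nonneg y
      by_cases hex : ∃ j, (σ j).1 < y
      · obtain ⟨j₀, hj₀⟩ := hex
        have hj₀y : j₀ ≤ y := by
          have := (hσ j₀).2.1
          omega
        let J := Nat.findGreatest (fun j => (σ j).1 < y) y
        have hJ : (σ J).1 < y := Nat.findGreatest_spec (P := fun j => (σ j).1 < y) hj₀y hj₀
        have hJ1 : y ≤ (σ (J + 1)).1 := by
          by_contra hlt'
          have h1 : (σ (J + 1)).1 < y := by omega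
          have h2 := (hσ (J + 1)).2.1
          have h3 : J + 1 ≤ J := Nat.le_findGreatest (P := fun j => (σ j).1 < y) (by omega) h1
          omega
        have hsub : (Icc 1 y).filter (fun n => n ∈ {n | ∃ j, n ∈ (σ j).2.2}) ⊆ US σ (J + 1) := by
          intro n hn
          rw [mem_filter, mem_Icc] at hn
          exact (hmemU (J + 1) n (hn.1.2.trans hJ1)).1 hn.2
        have hcard : ∀ j : ℕ, ((US σ (j + 1)).card : ℝ) ≤
            2 * (Real.sqrt (σ j).1 * Real.log (σ j).1) := by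
          intro j
          induction j with
          | zero =>
            have h1 : US σ (0 + 1) = (σ 0).2.2 := by simp [US]
            rw [h1]
            have h2 := (hσ 0).2.2.2.1
            have h3 : 0 ≤ Real.sqrt (σ 0).1 * Real.log (σ 0).1 :=
              mul_nonneg (Real.sqrt_nonneg _) (Real.log_natCast_nonneg _)
            linarith
          | succ j ih =>
            have h1 : US σ (j + 1 + 1) = (σ (j + 1)).2.2 ∪ US σ (j + 1) := by
              unfold US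
              rw [range_add_one (n := j + 1), biUnion_insert]
            have h2 : ((US σ (j + 1 + 1)).card : ℝ) ≤
                ((σ (j + 1)).2.2.card : ℝ) + ((US σ (j + 1)).card : ℝ) := by
              rw [h1]
              exact_mod_cast card_union_le _ _
            have h3 := (hσ (j + 1)).2.2.2.1
            have h4 := ((hσ (j + 1)).1 j (by omega)).1
            have h5 : (4 : ℝ) * ((σ j).1 : ℝ) ≤ ((σ (j + 1)).1 : ℝ) := by exact_mod_cast h4
            have h6 : 2 * Real.sqrt (σ j).1 ≤ Real.sqrt (σ (j + 1)).1 := by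
              have h7 : Real.sqrt (4 * ((σ j).1 : ℝ)) = 2 * Real.sqrt (σ j).1 := by
                rw [Real.sqrt_mul (by norm_num), show (4 : ℝ) = 2 ^ 2 by norm_num,
                  Real.sqrt_sq (by norm_num)]
              rw [← h7]
              exact Real.sqrt_le_sqrt h5
            have h8 : (1 : ℝ) ≤ ((σ j).1 : ℝ) := by
              have := (hσ j).2.1
              have h9 : 1 ≤ (σ j).1 := by omega
              exact_mod_cast h9
            have h10 : Real.log (σ j).1 ≤ Real.log (σ (j + 1)).1 :=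
              Real.log_le_log (by linarith) (by linarith)
            have h11 : 0 ≤ Real.log (σ j).1 := Real.log_natCast_nonneg _
            have h12 : 2 * Real.sqrt (σ j).1 * Real.log (σ j).1 ≤
                Real.sqrt (σ (j + 1)).1 * Real.log (σ (j + 1)).1 :=
              mul_le_mul h6 h10 h11 (Real.sqrt_nonneg _)
            linarith
        have h1 : (((Icc 1 y).filter (fun n => n ∈ {n | ∃ j, n ∈ (σ j).2.2})).card : ℝ) ≤
            ((US σ (J + 1)).card : ℝ) := by exact_mod_cast card_le_card hsub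
        have h2 := hcard J
        have h3 : ((σ J).1 : ℝ) ≤ y := by exact_mod_cast hJ.le
        have h4 : 0 < ((σ J).1 : ℝ) := by
          have := (hσ J).2.1
          have h9 : 0 < (σ J).1 := by omega
          exact_mod_cast h9
        have h5 : Real.sqrt (σ J).1 * Real.log (σ J).1 ≤ Real.sqrt y * Real.log y :=
          mul_le_mul (Real.sqrt_le_sqrt h3) (Real.log_le_log h4 h3) (Real.log_natCast_nonneg _)
            (Real.sqrt_nonneg _)
        linarith
      · push Not at hex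
        have hempty : (Icc 1 y).filter (fun n => n ∈ {n | ∃ j, n ∈ (σ j).2.2}) = ∅ := by
          refine filter_eq_empty_iff.2 fun n hn => ?_
          rintro ⟨j, hj⟩
          have h1 := (hσ j).2.2.1 n hj
          have h2 := hex j
          rw [mem_Icc] at hn
          omega
        rw [hempty, card_empty, Nat.cast_zero]
        positivity
  · intro j x h1 h2
    rw [hagree j x h2.le]
    exact (hσ j).2.2.2.2.1 x h1
  · intro j
    obtain ⟨x, h1, h2, h3⟩ := (hσ j).2.2.2.2.2.1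
    refine ⟨x, h1, ?_⟩
    rw [hagree j x (h2.trans ((hσ (j + 1)).1 j (by omega)).2.1.le)]
    exact h3
  · intro j
    obtain ⟨x, h1, h2, h3⟩ := (hσ j).2.2.2.2.2.2
    refine ⟨x, h1, ?_⟩
    rw [hagree j x (h2.trans ((hσ (j + 1)).1 j (by omega)).2.1.le)]
    exact h3

end Pool.Agent.Helper66.MB
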