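import Pool.Agent.Helper66.MB.Basic

/-!
# Block MB-RM (MP_a499ba_nt)

From the events `GG` to a bound for all star sums, also when finitely many pairs are removed.

Proofs. `exists_n₀`: `tht i = 2 (1 + log (4 pa i))² / √(pa i) → 0` (`pa i > 2 i + 1`).
`star_bound`: for `x ≥ 2^k₁`, `k = Nat.log 2 x`, `GG n₀ k ω` gives `|Sm x (star ω (Ico n₀ (2^(k+1))))| ≤ √(2^k)/k²`, which is
the sum over `Ico n₀ x` (`Sm_star_Ico`), and `1 + log x ≤ 1 + (k+1) log 2 ≤ 3 k`; smaller `x`: finitely many, constant.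
`remove`: induction on `U` (`Finset.induction_on`). Let `U' = insert i U`, `i ∉ U`, `i ∈ Ico n₀ J`,
`h' y = Sm y (star ω (Ico n₀ J \ U'))`, `h y = Sm y (star ω (Ico n₀ J \ U))`. As `Ico n₀ J \ U = insert i (Ico n₀ J \ U')`,
`Sm_star_insert` gives `h y = h' y + ω i (h' (y / pa i) - h' (y / pb i))`. Let `|h y| ≤ D √y κ(y)` for `1 ≤ y ≤ J`, `D' = D (1 + 2 θ)`,
`θ = tht i ≤ 1/2`. Claim `|h' y| ≤ D' √y κ(y)` for `1 ≤ y ≤ J`: strong induction on `y`. For `a = pa i` or `pb i` and
`z = y / a ≥ 1` (for `z = 0`, `h' 0 = 0` by `coeff_zero_star`): `√z ≤ √y / √a`, and `y < a (z+1) ≤ 2 a z` gives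
`1 + log y ≤ (1 + log z) (1 + log (2a))`, so `κ(z) ≤ κ(y) (1 + log (2a))²`; with `pa i < pb i < 2 pa i` (`pb_lt_two_mul`) the two
terms are together at most `D' θ √y κ(y)`; finally `D + D' θ ≤ D'` because `(1+2θ)(1-θ) ≥ 1` for `0 ≤ θ ≤ 1/2`.
-/

set_option autoImplicit false

namespace Pool.Agent.Helper66.MB

open Finset Pool.Agent.Helper92.GB

theorem tht_nonneg (i : ℕ) : 0 ≤ tht i := by
  unfold tht; positivity

theorem exists_n₀ : ∃ n₀ : ℕ, ∀ i : ℕ, n₀ ≤ i → tht i ≤ 1 / 2 := by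
  refine ⟨2 ^ 32, fun i hi => ?_⟩
  have hp := lt_pa i
  have hx : (2 : ℝ) ^ 32 ≤ (pa i : ℝ) := by
    have : 2 ^ 32 ≤ pa i := by omega
    exact_mod_cast this
  have hx0 : (0 : ℝ) < (pa i : ℝ) := by positivity
  obtain ⟨s, hs0, hs⟩ : ∃ s : ℝ, 0 < s ∧ s ^ 8 = (pa i : ℝ) := by
    refine ⟨(pa i : ℝ) ^ ((1 : ℝ) / 8), by positivity, ?_⟩
    rw [← Real.rpow_natCast, ← Real.rpow_mul hx0.le]
    norm_num
  have hs16 : 16 ≤ s := by
    by_contra hcon
    push Not at hcon
    have h1 : s ^ 8 < 16 ^ 8 := pow_lt_pow_left₀ hcon hs0.le (by norm_num)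
    rw [hs] at h1
    norm_num at h1 hx
    linarith
  have hsq : Real.sqrt (pa i : ℝ) = s ^ 4 := by
    rw [← hs, show s ^ 8 = (s ^ 4) ^ 2 by ring]
    exact Real.sqrt_sq (by positivity)
  have hlog : 1 + Real.log (4 * (pa i : ℝ)) ≤ 8 * s := by
    rw [Real.log_mul (by norm_num) hx0.ne', ← hs, Real.log_pow]
    have h1 : Real.log s ≤ s - 1 := Real.log_le_sub_one_of_pos hs0
    have h2 : Real.log 4 ≤ 4 - 1 := Real.log_le_sub_one_of_pos (by norm_num)
    push_cast
    linarith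
  have hlog0 : 0 ≤ 1 + Real.log (4 * (pa i : ℝ)) := by
    have : 0 ≤ Real.log (4 * (pa i : ℝ)) := by
      apply Real.log_nonneg
      have h1 : (1 : ℝ) ≤ (pa i : ℝ) := le_trans (by norm_num) hx
      linarith
    linarith
  unfold tht
  rw [hsq, div_le_iff₀ (by positivity)]
  have h3 : (1 + Real.log (4 * (pa i : ℝ))) ^ 2 ≤ (8 * s) ^ 2 := pow_le_pow_left₀ hlog0 hlog 2
  have h4 : 256 ≤ s ^ 2 := by nlinarith
  have h5 : 0 ≤ s ^ 2 := by positivity
  nlinarith [mul_nonneg h5 (by linarith : (0 : ℝ) ≤ s ^ 2 - 256)]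

theorem kap_pos (y : ℕ) (hy : 1 ≤ y) : 0 < kap y := by
  unfold kap
  have : 0 ≤ Real.log y := Real.log_nonneg (by exact_mod_cast hy)
  positivity

theorem star_bound (n₀ k₁ : ℕ) (hk₁ : 1 ≤ k₁) (ω : ℕ → ℤˣ) (h : ∀ k : ℕ, k₁ ≤ k → GG n₀ k ω) :
    ∃ C : ℝ, 0 < C ∧ ∀ x : ℕ, 1 ≤ x → |Sm x (star ω (Ico n₀ x))| ≤ C * Real.sqrt x * kap x := by
  set S : ℝ := ∑ x ∈ Icc 1 (2 ^ k₁), |Sm x (star ω (Ico n₀ x))| * (kap x)⁻¹ with hS
  have hS0 : 0 ≤ S := by
    apply sum_nonneg
    intro x hx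
    have := kap_pos x (mem_Icc.1 hx).1
    positivity
  refine ⟨9 + S, by linarith, fun x hx => ?_⟩
  have hk := kap_pos x hx
  have hx1 : (1 : ℝ) ≤ (x : ℝ) := by exact_mod_cast hx
  have hsx : 1 ≤ Real.sqrt x := by
    rw [Real.one_le_sqrt]
    exact hx1
  rcases lt_or_ge x (2 ^ k₁) with hlt | hge
  · have h1 : |Sm x (star ω (Ico n₀ x))| * (kap x)⁻¹ ≤ S := by
      rw [hS]
      apply single_le_sum (f := fun x : ℕ => |Sm x (star ω (Ico n₀ x))| * (kap x)⁻¹) _
        (mem_Icc.2 ⟨hx, hlt.le⟩)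
      intro y hy
      have := kap_pos y (mem_Icc.1 hy).1
      positivity
    have h2 : |Sm x (star ω (Ico n₀ x))| = |Sm x (star ω (Ico n₀ x))| * (kap x)⁻¹ * kap x := by
      field_simp
    rw [h2]
    calc |Sm x (star ω (Ico n₀ x))| * (kap x)⁻¹ * kap x ≤ S * kap x :=
          mul_le_mul_of_nonneg_right h1 hk.le
      _ ≤ ((9 + S) * Real.sqrt x) * kap x := by
          apply mul_le_mul_of_nonneg_right _ hk.le
          nlinarith
      _ = _ := by ring
  · set k := Nat.log 2 x with hkdef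
    have hk1 : k₁ ≤ k := by
      rw [hkdef]
      exact (Nat.le_log_iff_pow_le (by norm_num) (by omega)).2 hge
    have hlo : 2 ^ k ≤ x := Nat.pow_log_le_self 2 (by omega)
    have hhi : x < 2 ^ (k + 1) := Nat.lt_pow_succ_log_self (by norm_num) x
    have hG := h k hk1 x hlo hhi
    rw [Sm_star_Ico ω n₀ x (2 ^ (k + 1)) hhi.le] at hG
    refine hG.trans ?_
    have hkR : (1 : ℝ) ≤ (k : ℝ) := by exact_mod_cast (le_trans hk₁ hk1)
    have hlog : Real.log x ≤ (k + 1) * Real.log 2 := by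
      have h1 : (x : ℝ) ≤ 2 ^ (k + 1) := by exact_mod_cast hhi.le
      have h2 := Real.log_le_log (by linarith) h1
      rw [Real.log_pow] at h2
      push_cast at h2
      exact h2
    have hl0 : 0 ≤ Real.log x := Real.log_nonneg hx1
    have hl2 : Real.log 2 < 0.6931471808 := Real.log_two_lt_d9
    have h3k : 1 + Real.log x ≤ 3 * k := by
      have : ((k : ℝ) + 1) * Real.log 2 ≤ (k + 1) * 1 := by
        apply mul_le_mul_of_nonneg_left _ (by positivity)
        linarith
      linarith [mul_le_mul_of_nonneg_left hl2.le (by positivity : (0 : ℝ) ≤ (k : ℝ) + 1)]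
    have hsq : (1 + Real.log x) ^ 2 ≤ 9 * (k : ℝ) ^ 2 := by
      have := pow_le_pow_left₀ (by linarith) h3k 2
      nlinarith
    have hkap : 1 / (k : ℝ) ^ 2 ≤ 9 * kap x := by
      unfold kap
      rw [← div_eq_mul_inv, div_le_div_iff₀ (by positivity) (by positivity)]
      linarith
    have hsqrt : Real.sqrt (2 ^ k) ≤ Real.sqrt x := by
      apply Real.sqrt_le_sqrt
      exact_mod_cast hlo
    calc Real.sqrt (2 ^ k) / (k : ℝ) ^ 2 = Real.sqrt (2 ^ k) * (1 / (k : ℝ) ^ 2) := by ring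
      _ ≤ Real.sqrt x * (9 * kap x) := by
          apply mul_le_mul hsqrt hkap (by positivity) (by positivity)
      _ ≤ (9 + S) * Real.sqrt x * kap x := by
          have : 0 ≤ S * Real.sqrt x * kap x := by positivity
          nlinarith

/-- One shifted term. -/
theorem shift_term (i a y : ℕ) (ha1 : pa i ≤ a) (ha2 : a < 2 * pa i) (hz : 1 ≤ y / a) :
    Real.sqrt ((y / a : ℕ) : ℝ) * kap (y / a) ≤ Real.sqrt y * kap y * (tht i / 2) := by
  have hpa := (pa_prime i).pos
  have ha : 0 < a := by omega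
  set z := y / a with hzdef
  have hy : z * a ≤ y := Nat.div_mul_le_self y a
  have hy2 : y < a * (z + 1) := by
    rw [hzdef]
    exact Nat.lt_mul_div_succ y ha
  have hzR : (1 : ℝ) ≤ (z : ℝ) := by exact_mod_cast hz
  have haR : (0 : ℝ) < (a : ℝ) := by exact_mod_cast ha
  have hpaR : (0 : ℝ) < (pa i : ℝ) := by exact_mod_cast hpa
  have hp1 : (1 : ℝ) ≤ (pa i : ℝ) := by exact_mod_cast hpa
  have hyR : (z : ℝ) * a ≤ (y : ℝ) := by exact_mod_cast hy
  have hyR2 : (y : ℝ) ≤ (a : ℝ) * (z + 1) := by exact_mod_cast hy2.le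
  have ha4 : 2 * (a : ℝ) ≤ 4 * (pa i : ℝ) := by
    have : (a : ℝ) ≤ 2 * (pa i : ℝ) := by exact_mod_cast ha2.le
    linarith
  have hap : (pa i : ℝ) ≤ (a : ℝ) := by exact_mod_cast ha1
  have hy1 : (1 : ℝ) ≤ (y : ℝ) := by nlinarith
  have h1 : Real.sqrt z ≤ Real.sqrt y / Real.sqrt (pa i) := by
    rw [le_div_iff₀ (Real.sqrt_pos.2 hpaR), ← Real.sqrt_mul (by positivity)]
    apply Real.sqrt_le_sqrt
    nlinarith
  have hlz : 0 ≤ Real.log z := Real.log_nonneg hzR
  have hly : 0 ≤ Real.log y := Real.log_nonneg hy1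
  have hlp : 0 ≤ Real.log (4 * (pa i : ℝ)) := Real.log_nonneg (by linarith)
  have hlog : Real.log y ≤ Real.log (4 * (pa i : ℝ)) + Real.log z := by
    rw [← Real.log_mul (by positivity) (by positivity)]
    apply Real.log_le_log (by linarith)
    calc (y : ℝ) ≤ (a : ℝ) * (z + 1) := hyR2
      _ ≤ a * (2 * z) := by
          apply mul_le_mul_of_nonneg_left _ haR.le
          linarith
      _ = (2 * a) * z := by ring
      _ ≤ (4 * (pa i : ℝ)) * z := mul_le_mul_of_nonneg_right ha4 (by linarith)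
  have hmul : 1 + Real.log y ≤ (1 + Real.log z) * (1 + Real.log (4 * (pa i : ℝ))) := by
    nlinarith [mul_nonneg hlz hlp]
  have h2 : kap z ≤ kap y * (1 + Real.log (4 * (pa i : ℝ))) ^ 2 := by
    unfold kap
    rw [← div_eq_inv_mul, inv_eq_one_div, div_le_div_iff₀ (by positivity) (by positivity), one_mul]
    calc (1 + Real.log y) ^ 2 ≤ ((1 + Real.log z) * (1 + Real.log (4 * (pa i : ℝ)))) ^ 2 :=
          pow_le_pow_left₀ (by linarith) hmul 2
      _ = _ := by ring
  have hk : 0 < kap z := kap_pos z hz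
  calc Real.sqrt z * kap z
      ≤ (Real.sqrt y / Real.sqrt (pa i)) * (kap y * (1 + Real.log (4 * (pa i : ℝ))) ^ 2) :=
        mul_le_mul h1 h2 hk.le (by positivity)
    _ = Real.sqrt y * kap y * (tht i / 2) := by
        unfold tht
        ring

theorem remove (n₀ : ℕ) (hn₀ : ∀ i : ℕ, n₀ ≤ i → tht i ≤ 1 / 2) (ω : ℕ → ℤˣ) (C : ℝ) (hC : 0 < C)
    (h : ∀ x : ℕ, 1 ≤ x → |Sm x (star ω (Ico n₀ x))| ≤ C * Real.sqrt x * kap x)
    (J : ℕ) (U : Finset ℕ) (hU : U ⊆ Ico n₀ J) (x : ℕ) (hx : 1 ≤ x) (hxJ : x ≤ J) :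
    |Sm x (star ω (Ico n₀ J \ U))| ≤ C * (∏ i ∈ U, (1 + 2 * tht i)) * Real.sqrt x * kap x := by
  classical
  induction U using Finset.induction_on generalizing x with
  | empty =>
    rw [prod_empty, sdiff_empty, Sm_star_Ico ω n₀ x J hxJ, mul_one]
    exact h x hx
  | insert i U hi ih =>
    have hiJ : i ∈ Ico n₀ J := hU (mem_insert_self i U)
    have hUJ : U ⊆ Ico n₀ J := (subset_insert i U).trans hU
    have ih' := ih hUJ
    set D : ℝ := C * ∏ j ∈ U, (1 + 2 * tht j) with hD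
    have hD0 : 0 < D := by
      apply mul_pos hC
      apply prod_pos
      intro j _
      have := tht_nonneg j
      linarith
    have hth := tht_nonneg i
    have hth2 := hn₀ i (mem_Ico.1 hiJ).1
    have hA : Ico n₀ J \ U = insert i (Ico n₀ J \ insert i U) := by
      ext j
      simp only [mem_sdiff, mem_insert]
      constructor
      · intro hj
        by_cases hji : j = i
        · exact Or.inl hji
        · exact Or.inr ⟨hj.1, fun hc => hc.elim hji hj.2⟩
      · rintro (rfl | hj)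
        · exact ⟨hiJ, hi⟩
        · exact ⟨hj.1, fun hc => hj.2 (Or.inr hc)⟩
    have hiA : i ∉ Ico n₀ J \ insert i U := by
      simp
    have e1 : C * (∏ j ∈ insert i U, (1 + 2 * tht j)) = D * (1 + 2 * tht i) := by
      rw [prod_insert hi, hD]
      ring
    rw [e1]
    set A' := Ico n₀ J \ insert i U with hA'
    set D' : ℝ := D * (1 + 2 * tht i) with hD'
    have hD'0 : 0 < D' := by
      apply mul_pos hD0
      linarith
    induction x using Nat.strong_induction_on with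
    | _ x ihx =>
      have hy := ih' x hx hxJ
      rw [hA, Sm_star_insert ω hiA x] at hy
      have hkx := kap_pos x hx
      have hterm : ∀ a : ℕ, pa i ≤ a → a < 2 * pa i →
          |Sm (x / a) (star ω A')| ≤ D' * (Real.sqrt x * kap x * (tht i / 2)) := by
        intro a ha1 ha2
        have hp2 := two_le_pa i
        rcases Nat.eq_zero_or_pos (x / a) with h0 | hpos
        · rw [h0, coeff_zero_star, abs_zero]
          exact mul_nonneg hD'0.le (mul_nonneg (mul_nonneg (Real.sqrt_nonneg _) hkx.le) (by linarith))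
        · have hlt : x / a < x := Nat.div_lt_self hx (by omega)
          have h1 := ihx (x / a) hlt hpos (hlt.le.trans hxJ)
          refine h1.trans ?_
          rw [mul_assoc]
          exact mul_le_mul_of_nonneg_left (shift_term i a x ha1 ha2 hpos) hD'0.le
      have ha := hterm (pa i) le_rfl (by have := (pa_prime i).pos; omega)
      have hb := hterm (pb i) (pa_lt_pb i).le (pb_lt_two_mul i)
      have hω : |((ω i : ℤ) : ℝ)| = 1 := by
        rcases Int.units_eq_one_or (ω i) with h | h <;> simp [h]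
      have hmain : |Sm x (star ω A')| ≤ D * Real.sqrt x * kap x
          + (|Sm (x / pa i) (star ω A')| + |Sm (x / pb i) (star ω A')|) := by
        have e2 : Sm x (star ω A') = (Sm x (star ω A') + ((ω i : ℤ) : ℝ) *
            (Sm (x / pa i) (star ω A') - Sm (x / pb i) (star ω A'))) - ((ω i : ℤ) : ℝ) *
            (Sm (x / pa i) (star ω A') - Sm (x / pb i) (star ω A')) := by ring
        calc |Sm x (star ω A')| ≤ |Sm x (star ω A') + ((ω i : ℤ) : ℝ) *
              (Sm (x / pa i) (star ω A') - Sm (x / pb i) (star ω A'))| + |((ω i : ℤ) : ℝ) *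
              (Sm (x / pa i) (star ω A') - Sm (x / pb i) (star ω A'))| := by
              conv_lhs => rw [e2]
              exact abs_sub _ _
          _ ≤ D * Real.sqrt x * kap x + (|Sm (x / pa i) (star ω A')| + |Sm (x / pb i) (star ω A')|) := by
              apply add_le_add hy
              rw [abs_mul, hω, one_mul]
              exact abs_sub _ _
      refine hmain.trans ?_
      have hq : 0 ≤ Real.sqrt x * kap x := mul_nonneg (Real.sqrt_nonneg _) hkx.le
      have h3 : D + D' * tht i ≤ D' := by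
        rw [hD']
        nlinarith [mul_nonneg hD0.le (mul_nonneg hth (by linarith : (0 : ℝ) ≤ 1 - 2 * tht i))]
      have h4 := mul_le_mul_of_nonneg_right h3 hq
      nlinarith

end Pool.Agent.Helper66.MB
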