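import Pool.Agent.Helper66.MB.Basic

/-!
# Block MB-AZ (MP_a499ba_nt)

The largest term `Az z = z^r / r!`, `r = ⌊z⌋`, of the exponential series.

Proofs. `Az_max`: the ratio of consecutive terms `(z^(r+1)/(r+1)!) / (z^r/r!) = z/(r+1)` is `≥ 1` for `r + 1 ≤ z` and `≤ 1` for
`r + 1 ≥ z`. `Az_pred`: `z^(r-1)/(r-1)! = Az z * (r/z)`, `r ≥ z - 1`. `Az_step`: with `r = ⌊z+h⌋ ≤ z + h`,
`(z+h)^r/r! = (z^r/r!) (1+h/z)^r ≤ Az z * exp (h r / z) ≤ Az z * exp (2h)` as `r ≤ z + h ≤ 2z`. `exp_le_Az`: `exp z = ∑ z^r/r!`, the terms with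
`r < 3z + 3` are at most `Az z` each (at most `3z + 4` of them) and for `r ≥ 3 z + 3`, the ratio of consecutive terms is at most `1/3`, so
the rest is at most `2 Az z`. `Az_le_exp`: a term of the series. `choose_lower`: `r! * choose c r = c (c-1) ... (c-r+1) ≥ (c-r)^r` and
`(1 - r/c)^r ≥ 1 - r²/c` (Bernoulli). `powerset_term`: every product of `r` elements of `R` is at least `X^r`, and
`choose c r ≤ c^r / r!`. `powerset_exp`: `∑_T ∏_{p∈T} (2/√p) = ∏_{p ∈ R} (1 + 2/√p) ≤ exp (2|R|/√X)`.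
`tail`: for `r > L²/4`, `L ≥ 30`: `z^r/r! ≤ (e z / r)^r ≤ (4 e/L)^r ≤ e^{-r}` for `z ≤ L`; so the sum over any finite set of such `r` is at
most `e^{-L²/4} e/(e-1) ≤ e^{-L}`.
-/

set_option autoImplicit false

namespace Pool.Agent.Helper66.MB

open Finset

/-- Terms grow up to the index `⌊z⌋`. -/
lemma term_mono_low {z : ℝ} (hz : 0 ≤ z) : ∀ k r : ℕ, r + k ≤ ⌊z⌋₊ →
    z ^ r / (r.factorial : ℝ) ≤ z ^ (r + k) / ((r + k).factorial : ℝ) := by
  intro k
  induction k with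
  | zero => intro r _; exact le_rfl
  | succ k ih =>
    intro r h
    refine (ih r (by omega)).trans ?_
    have h1 : ((r + k + 1 : ℕ) : ℝ) ≤ z := (Nat.le_floor_iff hz).1 (by omega)
    have hf : (0 : ℝ) < ((r + k).factorial : ℝ) := by exact_mod_cast Nat.factorial_pos _
    have hp : (0 : ℝ) < ((r + k + 1 : ℕ) : ℝ) := by positivity
    rw [show r + (k + 1) = (r + k) + 1 by ring, Nat.factorial_succ, pow_succ, Nat.cast_mul,
      div_le_div_iff₀ hf (by positivity)]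
    have h2 : 0 ≤ z ^ (r + k) * ((r + k).factorial : ℝ) := by positivity
    nlinarith [mul_le_mul_of_nonneg_left h1 h2]

/-- Terms decrease from the index `⌊z⌋` on. -/
lemma term_anti_high {z : ℝ} (hz : 0 ≤ z) : ∀ k r : ℕ, ⌊z⌋₊ ≤ r →
    z ^ (r + k) / ((r + k).factorial : ℝ) ≤ z ^ r / (r.factorial : ℝ) := by
  intro k
  induction k with
  | zero => intro r _; exact le_rfl
  | succ k ih =>
    intro r h
    refine le_trans ?_ (ih r h)
    have h1 : z ≤ ((r + k + 1 : ℕ) : ℝ) := by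
      have h2 := (Nat.lt_floor_add_one z).le
      have h3 : ((⌊z⌋₊ : ℕ) : ℝ) + 1 ≤ ((r + k + 1 : ℕ) : ℝ) := by
        have : ⌊z⌋₊ + 1 ≤ r + k + 1 := by omega
        exact_mod_cast this
      exact h2.trans h3
    have hf : (0 : ℝ) < ((r + k).factorial : ℝ) := by exact_mod_cast Nat.factorial_pos _
    have hp : (0 : ℝ) < ((r + k + 1 : ℕ) : ℝ) := by positivity
    rw [show r + (k + 1) = (r + k) + 1 by ring, Nat.factorial_succ, pow_succ, Nat.cast_mul,
      div_le_div_iff₀ (by positivity) hf]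
    have h2 : 0 ≤ z ^ (r + k) * ((r + k).factorial : ℝ) := by positivity
    nlinarith [mul_le_mul_of_nonneg_left h1 h2]

theorem Az_max {z : ℝ} (hz : 0 ≤ z) (r : ℕ) : z ^ r / (r.factorial : ℝ) ≤ Az z := by
  unfold Az
  rcases le_total r ⌊z⌋₊ with h | h
  · obtain ⟨k, hk⟩ := Nat.exists_eq_add_of_le h
    rw [hk]
    exact term_mono_low hz k r hk.ge
  · obtain ⟨k, hk⟩ := Nat.exists_eq_add_of_le h
    rw [hk]
    exact term_anti_high hz k _ le_rfl

lemma Az_nonneg {z : ℝ} (hz : 0 ≤ z) : 0 ≤ Az z := by unfold Az; positivity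

theorem Az_pred {z : ℝ} (hz : 1 ≤ z) :
    Az z * (1 - 1 / z) ≤ z ^ (⌊z⌋₊ - 1) / ((⌊z⌋₊ - 1).factorial : ℝ) := by
  have hz0 : (0 : ℝ) < z := by linarith
  obtain ⟨k, hk⟩ : ∃ k, ⌊z⌋₊ = k + 1 := by
    have : 1 ≤ ⌊z⌋₊ := (Nat.one_le_floor_iff z).2 hz
    exact ⟨⌊z⌋₊ - 1, by omega⟩
  have h1 : z < (k : ℝ) + 1 + 1 := by
    have := Nat.lt_floor_add_one z
    rw [hk] at this
    push_cast at this
    exact this
  have hf : (0 : ℝ) < (k.factorial : ℝ) := by exact_mod_cast Nat.factorial_pos _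
  unfold Az
  rw [hk, Nat.add_sub_cancel, Nat.factorial_succ, pow_succ]
  push_cast
  have e : z ^ k * z / (((k : ℝ) + 1) * (k.factorial : ℝ)) * (1 - 1 / z) =
      z ^ k / (k.factorial : ℝ) * ((z - 1) / ((k : ℝ) + 1)) := by
    field_simp
  rw [e]
  have h2 : (z - 1) / ((k : ℝ) + 1) ≤ 1 := by
    rw [div_le_one (by positivity)]; linarith
  have h3 : 0 ≤ z ^ k / (k.factorial : ℝ) := by positivity
  nlinarith [mul_le_mul_of_nonneg_left h2 h3]

theorem Az_step {z h : ℝ} (hz : 1 ≤ z) (hh : 0 ≤ h) (hh' : h ≤ 1) : Az (z + h) ≤ Az z * Real.exp (2 * h) := by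
  have hz0 : (0 : ℝ) < z := by linarith
  set r := ⌊z + h⌋₊ with hr
  have h1 : (r : ℝ) ≤ z + h := Nat.floor_le (by linarith)
  have h2 : Az (z + h) = z ^ r / (r.factorial : ℝ) * (1 + h / z) ^ r := by
    unfold Az
    rw [← hr]
    have : z + h = z * (1 + h / z) := by field_simp
    rw [this, mul_pow]
    ring
  rw [h2]
  have h3 : (1 + h / z) ^ r ≤ Real.exp (2 * h) := by
    have h4 : 1 + h / z ≤ Real.exp (h / z) := by
      have := Real.add_one_le_exp (h / z)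
      linarith
    have h5 : (0 : ℝ) ≤ 1 + h / z := by positivity
    refine (pow_le_pow_left₀ h5 h4 r).trans ?_
    rw [← Real.exp_nat_mul]
    refine Real.exp_le_exp.2 ?_
    have h6 : (r : ℝ) ≤ 2 * z := by linarith
    have h7 : 0 ≤ h / z := by positivity
    calc (r : ℝ) * (h / z) ≤ 2 * z * (h / z) := mul_le_mul_of_nonneg_right h6 h7
      _ = 2 * h := by field_simp
  have h5 : (0 : ℝ) ≤ 1 + h / z := by positivity
  exact mul_le_mul (Az_max hz0.le r) h3 (pow_nonneg h5 r) (Az_nonneg hz0.le)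

/-- Geometric decay of the terms from the index `N`, `3 z ≤ N`. -/
lemma term_geom {z : ℝ} (hz : 0 ≤ z) {N : ℕ} (hN : 3 * z ≤ N) : ∀ k : ℕ,
    z ^ (N + k) / ((N + k).factorial : ℝ) ≤ Az z * (1 / 3) ^ k := by
  intro k
  induction k with
  | zero => simpa using Az_max hz N
  | succ k ih =>
    have hf : (0 : ℝ) < ((N + k).factorial : ℝ) := by exact_mod_cast Nat.factorial_pos _
    have hp : (0 : ℝ) < ((N + k + 1 : ℕ) : ℝ) := by positivity
    have h1 : z / ((N + k + 1 : ℕ) : ℝ) ≤ 1 / 3 := by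
      rw [div_le_div_iff₀ hp (by norm_num)]
      push_cast
      have : (0 : ℝ) ≤ (k : ℝ) := Nat.cast_nonneg k
      linarith
    have e : z ^ (N + (k + 1)) / ((N + (k + 1)).factorial : ℝ) =
        z ^ (N + k) / ((N + k).factorial : ℝ) * (z / ((N + k + 1 : ℕ) : ℝ)) := by
      rw [show N + (k + 1) = (N + k) + 1 by ring, Nat.factorial_succ, pow_succ, Nat.cast_mul]
      field_simp
    rw [e, pow_succ, ← mul_assoc]
    exact mul_le_mul ih h1 (by positivity) (mul_nonneg (Az_nonneg hz) (by positivity))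

lemma partial_le_Az {z : ℝ} (hz : 0 ≤ z) (M : ℕ) :
    ∑ n ∈ range M, z ^ n / (n.factorial : ℝ) ≤ (3 * z + 6) * Az z := by
  set N := ⌈3 * z⌉₊ with hN
  have h1 : 3 * z ≤ N := Nat.le_ceil _
  have h2 : (N : ℝ) < 3 * z + 1 := Nat.ceil_lt_add_one (by linarith)
  have hA := Az_nonneg hz
  have h3 : ∑ n ∈ range M, z ^ n / (n.factorial : ℝ) ≤
      ∑ n ∈ range (N + M), z ^ n / (n.factorial : ℝ) := by
    refine sum_le_sum_of_subset_of_nonneg (range_subset_range.2 (by omega)) ?_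
    intro i _ _; positivity
  refine h3.trans ?_
  rw [sum_range_add]
  have h4 : ∑ n ∈ range N, z ^ n / (n.factorial : ℝ) ≤ N * Az z := by
    refine (sum_le_sum (fun n _ => Az_max hz n)).trans ?_
    simp
  have h5 : ∑ k ∈ range M, z ^ (N + k) / ((N + k).factorial : ℝ) ≤ (3 / 2) * Az z := by
    refine (sum_le_sum (fun k _ => term_geom hz h1 k)).trans ?_
    rw [← mul_sum]
    have h6 : ∑ k ∈ range M, ((1 : ℝ) / 3) ^ k ≤ 3 / 2 := by
      rw [geom_sum_eq (by norm_num)]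
      have : (0 : ℝ) ≤ (1 / 3) ^ M := by positivity
      rw [div_le_iff_of_neg (by norm_num)]
      linarith
    nlinarith [mul_le_mul_of_nonneg_left h6 hA]
  nlinarith [mul_le_mul_of_nonneg_right h2.le hA]

theorem exp_le_Az {z : ℝ} (hz : 0 ≤ z) : Real.exp z ≤ (3 * z + 6) * Az z := by
  have h1 : Real.exp z = ∑' n : ℕ, z ^ n / (n.factorial : ℝ) := by
    rw [Real.exp_eq_exp_ℝ, NormedSpace.exp_eq_tsum_div]
  rw [h1]
  refine Real.tsum_le_of_sum_range_le (fun n => by positivity) (fun M => partial_le_Az hz M)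

theorem Az_le_exp {z : ℝ} (hz : 0 ≤ z) : Az z ≤ Real.exp z := by
  unfold Az
  exact Real.pow_div_factorial_le_exp z hz _

theorem Az_mono {z w : ℝ} (hz : 0 ≤ z) (h : z ≤ w) : Az z ≤ Az w := by
  refine le_trans ?_ (Az_max (hz.trans h) ⌊z⌋₊)
  unfold Az
  exact div_le_div_of_nonneg_right (pow_le_pow_left₀ hz h _) (by positivity)

theorem choose_lower {c r : ℕ} (hr : r ≤ c) (hc : 1 ≤ c) :
    (c : ℝ) ^ r / (r.factorial : ℝ) * (1 - (r : ℝ) ^ 2 / c) ≤ (c.choose r : ℝ) := by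
  have hc0 : (0 : ℝ) < c := by exact_mod_cast hc
  have hf : (0 : ℝ) < (r.factorial : ℝ) := by exact_mod_cast Nat.factorial_pos _
  have h1 : (c - r) ^ r ≤ c.descFactorial r :=
    (Nat.pow_le_pow_left (by omega) r).trans (Nat.pow_sub_le_descFactorial c r)
  rw [Nat.descFactorial_eq_factorial_mul_choose] at h1
  have h2 : ((c : ℝ) - r) ^ r ≤ (r.factorial : ℝ) * (c.choose r : ℝ) := by
    have := (Nat.cast_le (α := ℝ)).2 h1
    rw [Nat.cast_pow, Nat.cast_sub hr, Nat.cast_mul] at this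
    exact this
  have h3 : (c : ℝ) ^ r * (1 - (r : ℝ) ^ 2 / c) ≤ ((c : ℝ) - r) ^ r := by
    have e : (c : ℝ) - r = c * (1 + (-((r : ℝ) / c))) := by field_simp; ring
    rw [e, mul_pow]
    refine mul_le_mul_of_nonneg_left ?_ (by positivity)
    have h4 : -2 ≤ -((r : ℝ) / c) := by
      have : (r : ℝ) / c ≤ 1 := by
        rw [div_le_one hc0]; exact_mod_cast hr
      linarith
    have h5 := one_add_mul_le_pow h4 r
    refine le_trans (le_of_eq ?_) h5
    ring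
  rw [div_mul_eq_mul_div, div_le_iff₀ hf, mul_comm (c.choose r : ℝ)]
  exact h3.trans h2

theorem powerset_term (R : Finset ℕ) (X : ℕ) (hX : 1 ≤ X) (hR : ∀ p ∈ R, X < p) (r : ℕ) :
    ∑ T ∈ R.powersetCard r, (2 : ℝ) ^ r / Real.sqrt ((∏ p ∈ T, p : ℕ) : ℝ) ≤
      (2 * R.card / Real.sqrt X) ^ r / (r.factorial : ℝ) := by
  have hX0 : (0 : ℝ) < X := by exact_mod_cast hX
  have hs : 0 < Real.sqrt X := Real.sqrt_pos.2 hX0
  have h1 : ∀ T ∈ R.powersetCard r, (2 : ℝ) ^ r / Real.sqrt ((∏ p ∈ T, p : ℕ) : ℝ) ≤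
      (2 : ℝ) ^ r / Real.sqrt X ^ r := by
    intro T hT
    rw [mem_powersetCard] at hT
    have h2 : X ^ r ≤ ∏ p ∈ T, p := by
      rw [← hT.2, ← prod_const]
      exact prod_le_prod' (fun p hp => (hR p (hT.1 hp)).le)
    have h3 : Real.sqrt X ^ r ≤ Real.sqrt ((∏ p ∈ T, p : ℕ) : ℝ) := by
      refine Real.le_sqrt_of_sq_le ?_
      rw [← pow_mul, mul_comm r 2, pow_mul, Real.sq_sqrt hX0.le]
      exact_mod_cast h2
    exact div_le_div_of_nonneg_left (by positivity) (by positivity) h3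
  refine (sum_le_sum h1).trans ?_
  rw [sum_const, card_powersetCard, nsmul_eq_mul]
  have h4 : ((R.card.choose r : ℕ) : ℝ) ≤ (R.card : ℝ) ^ r / (r.factorial : ℝ) :=
    Nat.choose_le_pow_div r R.card
  have h5 : (0 : ℝ) ≤ (2 : ℝ) ^ r / Real.sqrt X ^ r := by positivity
  refine (mul_le_mul_of_nonneg_right h4 h5).trans (le_of_eq ?_)
  rw [div_pow, mul_pow]
  ring

theorem powerset_exp (R : Finset ℕ) (X : ℕ) (hX : 1 ≤ X) (hR : ∀ p ∈ R, X < p) :
    ∑ T ∈ R.powerset, (2 : ℝ) ^ T.card / Real.sqrt ((∏ p ∈ T, p : ℕ) : ℝ) ≤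
      Real.exp (2 * R.card / Real.sqrt X) := by
  rw [sum_powerset]
  have h0 : (0 : ℝ) ≤ 2 * R.card / Real.sqrt X := by positivity
  refine le_trans (sum_le_sum (fun r _ => ?_)) (Real.sum_le_exp_of_nonneg h0 (R.card + 1))
  refine le_trans (le_of_eq ?_) (powerset_term R X hX hR r)
  refine sum_congr rfl fun T hT => ?_
  rw [(mem_powersetCard.1 hT).2]

theorem tail {L z : ℝ} (hL : 30 ≤ L) (hz : 0 ≤ z) (hzL : z ≤ L) (s : Finset ℕ)
    (hs : ∀ r ∈ s, L ^ 2 / 4 < r) : ∑ r ∈ s, z ^ r / (r.factorial : ℝ) ≤ Real.exp (-L) := by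
  have he : Real.exp 1 < 2.7182818286 := Real.exp_one_lt_d9
  have he' : (2.7182818283 : ℝ) < Real.exp 1 := Real.exp_one_gt_d9
  set q := Real.exp (-1) with hq
  have hq0 : 0 < q := Real.exp_pos _
  have hq1 : q * Real.exp 1 = 1 := by rw [hq, ← Real.exp_add]; simp
  have hqb : q ≤ 1 / 2 := by nlinarith
  have h1 : ∀ r ∈ s, z ^ r / (r.factorial : ℝ) ≤ q ^ r := by
    intro r hr
    have hr' := hs r hr
    have hr0 : (0 : ℝ) < r := lt_of_le_of_lt (by positivity) hr'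
    have hf : (0 : ℝ) < (r.factorial : ℝ) := by exact_mod_cast Nat.factorial_pos _
    have h2 : (r : ℝ) ^ r / (r.factorial : ℝ) ≤ Real.exp r :=
      Real.pow_div_factorial_le_exp _ hr0.le _
    have h3 : z ^ r / (r.factorial : ℝ) = (z / r) ^ r * ((r : ℝ) ^ r / (r.factorial : ℝ)) := by
      rw [div_pow]; field_simp
    have h4 : Real.exp r = Real.exp 1 ^ r := by rw [← Real.exp_nat_mul, mul_one]
    rw [h3]
    refine (mul_le_mul_of_nonneg_left h2 (by positivity)).trans ?_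
    rw [h4, ← mul_pow]
    refine pow_le_pow_left₀ (by positivity) ?_ r
    have h5 : z / r ≤ 4 / 30 := by
      rw [div_le_div_iff₀ hr0 (by norm_num)]
      nlinarith
    have h6 : z / r * Real.exp 1 ≤ 4 / 30 * Real.exp 1 :=
      mul_le_mul_of_nonneg_right h5 (Real.exp_pos _).le
    refine h6.trans ?_
    nlinarith
  refine (sum_le_sum h1).trans ?_
  set m := ⌈L ^ 2 / 4⌉₊ with hm
  have h2 : s ⊆ Ico m (s.sup id + 1) := by
    intro r hr
    rw [mem_Ico]
    refine ⟨Nat.ceil_le.2 (hs r hr).le, Nat.lt_succ_of_le (le_sup (f := id) hr)⟩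
  have h3 : ∑ r ∈ s, q ^ r ≤ ∑ r ∈ Ico m (s.sup id + 1), q ^ r :=
    sum_le_sum_of_subset_of_nonneg h2 (fun i _ _ => by positivity)
  refine h3.trans ((geom_sum_Ico_le_of_lt_one hq0.le (by linarith)).trans ?_)
  have h4 : q ^ m ≤ Real.exp (-(L ^ 2 / 4)) := by
    rw [hq, ← Real.exp_nat_mul]
    refine Real.exp_le_exp.2 ?_
    have := Nat.le_ceil (L ^ 2 / 4)
    rw [← hm] at this
    linarith
  have h5 : q ^ m / (1 - q) ≤ Real.exp (-(L ^ 2 / 4)) * 2 := by
    rw [div_le_iff₀ (by linarith)]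
    have : 0 < Real.exp (-(L ^ 2 / 4)) := Real.exp_pos _
    nlinarith
  refine h5.trans ?_
  have h6 : (2 : ℝ) ≤ Real.exp 1 := by linarith
  have h7 : Real.exp (-(L ^ 2 / 4)) * 2 ≤ Real.exp (-(L ^ 2 / 4)) * Real.exp 1 :=
    mul_le_mul_of_nonneg_left h6 (Real.exp_pos _).le
  refine h7.trans ?_
  rw [← Real.exp_add]
  refine Real.exp_le_exp.2 ?_
  nlinarith

end Pool.Agent.Helper66.MB
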