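import Pool.Agent.Helper66.MB.Defs

/-!
# Mertens barrier (MP_a499ba_nt): basic facts
-/

set_option autoImplicit false

namespace Pool.Agent.Helper66.MB

open Finset Pool.Agent.Helper92.GB

/-! ### Monomials and partial sums -/

lemma Sm_apply (x : ℕ) (f : DP) : Sm x f = ∑ n ∈ range (x + 1), f.coeff n := rfl

lemma mo_one : mo 1 = 1 := rfl

lemma mo_mul (a b : ℕ) : mo a * mo b = mo (a * b) := by
  simp [mo, MonoidAlgebra.single_mul_single]

lemma prod_mo (T : Finset ℕ) (c : ℕ → ℕ) : ∏ i ∈ T, mo (c i) = mo (∏ i ∈ T, c i) := by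
  classical
  induction T using Finset.induction_on with
  | empty => rfl
  | insert a s ha ih => rw [prod_insert ha, prod_insert ha, ih, mo_mul]

lemma coeff_mo (m n : ℕ) : (mo m).coeff n = if m = n then 1 else 0 := by
  simp [mo, Finsupp.single_apply]

lemma Sm_mo (x m : ℕ) : Sm x (mo m) = if m ≤ x then 1 else 0 := by
  rw [Sm_apply]
  simp only [coeff_mo, sum_ite_eq, mem_range, Nat.lt_succ_iff]

lemma Sm_one {x : ℕ} (hx : 1 ≤ x) : Sm x (1 : DP) = 1 := by
  rw [← mo_one, Sm_mo, if_pos hx]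

lemma Sm_zero_one : Sm 0 (1 : DP) = 0 := by
  rw [← mo_one, Sm_mo, if_neg (by norm_num)]

lemma Sm_mo_mul {m : ℕ} (hm : 1 ≤ m) (x : ℕ) (f : DP) : Sm x (mo m * f) = Sm (x / m) f := by
  induction f using MonoidAlgebra.induction_linear with
  | zero => simp
  | add f g hf hg => rw [mul_add, map_add, map_add, hf, hg]
  | single n r =>
    have h1 : (MonoidAlgebra.single n r : DP) = r • mo n := by simp [mo]
    rw [h1, mul_smul_comm, map_smul, map_smul, mo_mul, Sm_mo, Sm_mo]
    congr 1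
    have : m * n ≤ x ↔ n ≤ x / m := by rw [Nat.le_div_iff_mul_le hm, mul_comm]
    simp only [this]

lemma Sm_diff {x y : ℕ} (h : x ≤ y) (f : DP) : Sm y f - Sm x f = ∑ n ∈ Ioc x y, f.coeff n := by
  rw [Sm_apply, Sm_apply]
  have h1 : range (y + 1) = range (x + 1) ∪ Ioc x y := by
    ext n; simp only [mem_union, mem_range, mem_Ioc]; omega
  have h2 : Disjoint (range (x + 1)) (Ioc x y) := by
    rw [Finset.disjoint_left]; intro n; simp only [mem_range, mem_Ioc]; omega
  rw [h1, sum_union h2]; ring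

/-! ### Pairs of primes -/

lemma pa_prime (i : ℕ) : (pa i).Prime := Nat.prime_nth_prime _

lemma pb_prime (i : ℕ) : (pb i).Prime := Nat.prime_nth_prime _

lemma pa_lt_pb (i : ℕ) : pa i < pb i := Nat.nth_strictMono Nat.infinite_setOfPred_prime (by omega)

lemma pb_lt_pa {i j : ℕ} (h : i < j) : pb i < pa j :=
  Nat.nth_strictMono Nat.infinite_setOfPred_prime (by omega)

lemma pa_strictMono : StrictMono pa := fun _ _ h => (pa_lt_pb _).trans (pb_lt_pa h)

lemma pb_strictMono : StrictMono pb := fun _ _ h => (pb_lt_pa h).trans (pa_lt_pb _)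

lemma count_pa (i : ℕ) : Nat.count Nat.Prime (pa i) = 2 * i :=
  Nat.count_nth_of_infinite Nat.infinite_setOfPred_prime _

lemma count_pb (i : ℕ) : Nat.count Nat.Prime (pb i) = 2 * i + 1 :=
  Nat.count_nth_of_infinite Nat.infinite_setOfPred_prime _

lemma sgn_pa (ω : ℕ → ℤˣ) (i : ℕ) : sgn ω (pa i) = ω i := by
  unfold sgn
  rw [count_pa, if_pos (even_two_mul i), Nat.mul_div_cancel_left i (by norm_num)]

lemma sgn_pb (ω : ℕ → ℤˣ) (i : ℕ) : sgn ω (pb i) = -(ω i : ℤ) := by
  unfold sgn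
  rw [count_pb, if_neg (by simp), show (2 * i + 1) / 2 = i by omega]

lemma sgn_mem (ω : ℕ → ℤˣ) (n : ℕ) : sgn ω n = 1 ∨ sgn ω n = -1 := by
  unfold sgn
  rcases Int.units_eq_one_or (ω (Nat.count Nat.Prime n / 2)) with h | h <;>
    split_ifs <;> simp [h]

/-- Every prime is in a pair. -/
lemma prime_cases {p : ℕ} (hp : p.Prime) : ∃ i, p = pa i ∨ p = pb i := by
  have h := Nat.nth_count hp
  rcases Nat.even_or_odd' (Nat.count Nat.Prime p) with ⟨k, hk | hk⟩
  · exact ⟨k, Or.inl (by unfold pa; rw [← hk, h])⟩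
  · exact ⟨k, Or.inr (by unfold pb; rw [← hk, h])⟩

lemma lt_pa (i : ℕ) : 2 * i + 1 < pa i := by
  have := Nat.add_two_le_nth_prime (2 * i)
  unfold pa; omega

lemma two_le_pa (i : ℕ) : 2 ≤ pa i := (pa_prime i).two_le

lemma pb_lt_two_mul (i : ℕ) : pb i < 2 * pa i := by
  obtain ⟨p, hp, h1, h2⟩ := Nat.exists_prime_lt_and_le_two_mul (pa i) (pa_prime i).pos.ne'
  have h3 : p ≠ 2 * pa i := by
    intro h
    have h4 : 2 ∣ p := ⟨pa i, h⟩
    have h5 := (Nat.prime_dvd_prime_iff_eq Nat.prime_two hp).1 h4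
    have := two_le_pa i
    omega
  have h4 : pb i ≤ p := by
    have h5 : 2 * i < Nat.count Nat.Prime p := by
      rw [← count_pa i]
      exact Nat.count_strict_mono (pa_prime i) h1
    have h6 : 2 * i + 1 ≤ Nat.count Nat.Prime p := h5
    calc pb i = Nat.nth Nat.Prime (2 * i + 1) := rfl
      _ ≤ Nat.nth Nat.Prime (Nat.count Nat.Prime p) := Nat.nth_monotone Nat.infinite_setOfPred_prime h6
      _ = p := Nat.nth_count hp
  omega

lemma pa_ne_pb (i j : ℕ) : pa i ≠ pb j := by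
  rcases le_or_gt i j with h | h
  · have := pa_lt_pb j
    have := pa_strictMono.monotone h
    omega
  · exact (pb_lt_pa h).ne'

/-- The index of the pair of a prime. -/
noncomputable def ix (p : ℕ) : ℕ := Nat.count Nat.Prime p / 2

lemma ix_pa (i : ℕ) : ix (pa i) = i := by unfold ix; rw [count_pa]; omega

lemma ix_pb (i : ℕ) : ix (pb i) = i := by unfold ix; rw [count_pb]; omega

/-! ### Star products -/

lemma star_empty (ω : ℕ → ℤˣ) : star ω ∅ = 1 := prod_empty

lemma star_insert (ω : ℕ → ℤˣ) {i : ℕ} {I : Finset ℕ} (h : i ∉ I) :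
    star ω (insert i I) = (1 + ((ω i : ℤ) : ℝ) • dl i) * star ω I := by
  unfold star; rw [prod_insert h]

lemma Sm_factor (ω : ℕ → ℤˣ) (i x : ℕ) (f : DP) :
    Sm x ((1 + ((ω i : ℤ) : ℝ) • dl i) * f) =
      Sm x f + ((ω i : ℤ) : ℝ) * (Sm (x / pa i) f - Sm (x / pb i) f) := by
  rw [add_mul, one_mul, smul_mul_assoc, map_add, map_smul, dl, sub_mul, map_sub,
    Sm_mo_mul (pa_prime i).pos, Sm_mo_mul (pb_prime i).pos, smul_eq_mul]

lemma Sm_star_insert (ω : ℕ → ℤˣ) {i : ℕ} {I : Finset ℕ} (h : i ∉ I) (x : ℕ) :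
    Sm x (star ω (insert i I)) =
      Sm x (star ω I) + ((ω i : ℤ) : ℝ) * (Sm (x / pa i) (star ω I) - Sm (x / pb i) (star ω I)) := by
  rw [star_insert ω h, Sm_factor]

/-- Index zero does not occur. -/
lemma coeff_zero_star (ω : ℕ → ℤˣ) (I : Finset ℕ) : Sm 0 (star ω I) = 0 := by
  classical
  induction I using Finset.induction_on with
  | empty => rw [star_empty, Sm_zero_one]
  | insert i s hi ih => rw [Sm_star_insert ω hi]; simp [ih]

/-- Pairs with `x < pa i` do not matter. -/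
lemma Sm_star_union (ω : ℕ → ℤˣ) (x : ℕ) (I I' : Finset ℕ) (h : ∀ i ∈ I', x < pa i) :
    Sm x (star ω (I ∪ I')) = Sm x (star ω I) := by
  classical
  induction I' using Finset.induction_on with
  | empty => rw [union_empty]
  | insert i s hi ih =>
    have ih' := ih (fun j hj => h j (mem_insert_of_mem hj))
    rw [union_insert]
    by_cases hm : i ∈ I ∪ s
    · rw [insert_eq_self.2 hm, ih']
    · rw [Sm_star_insert ω hm, ih', Nat.div_eq_of_lt (h i (mem_insert_self i s)),
        Nat.div_eq_of_lt ((h i (mem_insert_self i s)).trans (pa_lt_pb i))]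
      simp

lemma Sm_star_Ico (ω : ℕ → ℤˣ) (n₀ x J : ℕ) (h : x ≤ J) :
    Sm x (star ω (Ico n₀ J)) = Sm x (star ω (Ico n₀ x)) := by
  rcases le_or_gt n₀ x with h1 | h1
  · have h2 : Ico n₀ J = Ico n₀ x ∪ Ico x J := (Ico_union_Ico_eq_Ico h1 h).symm
    rw [h2]
    refine Sm_star_union ω x _ _ fun i hi => ?_
    have := lt_pa i
    rw [mem_Ico] at hi
    omega
  · have h2 : Ico n₀ x = ∅ := Ico_eq_empty (by omega)
    rw [h2, ← empty_union (Ico n₀ J)]
    refine Sm_star_union ω x _ _ fun i hi => ?_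
    have := lt_pa i
    rw [mem_Ico] at hi
    omega

/-- Multilinear expansion. -/
lemma star_eq_sum (ω : ℕ → ℤˣ) (I : Finset ℕ) :
    star ω I = ∑ T ∈ I.powerset, (∏ i ∈ T, ((ω i : ℤ) : ℝ)) • dT T := by
  unfold star dT
  rw [prod_one_add]
  refine sum_congr rfl fun T _ => ?_
  rw [prod_smul]

lemma Sm_star_eq_sum (ω : ℕ → ℤˣ) (I : Finset ℕ) (x : ℕ) :
    Sm x (star ω I) = ∑ T ∈ I.powerset, Sm x (dT T) * ∏ i ∈ T, ((ω i : ℤ) : ℝ) := by
  rw [star_eq_sum, map_sum]
  refine sum_congr rfl fun T _ => ?_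
  rw [map_smul, smul_eq_mul, mul_comm]

/-! ### Support of `dT T` -/

/-- The product of `pa i`, `i ∈ U`, and `pb i`, `i ∈ T ∖ U`. -/
noncomputable def nTU (T U : Finset ℕ) : ℕ := (∏ i ∈ U, pa i) * ∏ i ∈ T \ U, pb i

/-- The `2 ^ |T|` integers in the support of `dT T`. -/
noncomputable def spt (T : Finset ℕ) : Finset ℕ := T.powerset.image (nTU T)

lemma dT_expand (T : Finset ℕ) :
    dT T = ∑ U ∈ T.powerset, (-1 : ℝ) ^ (T \ U).card • mo (nTU T U) := by
  unfold dT dl
  simp_rw [sub_eq_add_neg]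
  rw [prod_add]
  refine sum_congr rfl fun U _ => ?_
  have h1 : ∀ i ∈ T \ U, -mo (pb i) = (-1 : ℝ) • mo (pb i) := fun i _ => by simp
  rw [prod_congr rfl h1, prod_smul, prod_const, prod_mo, prod_mo, mul_smul_comm, mo_mul, nTU]

lemma nTU_factors {T U : Finset ℕ} (_hU : U ⊆ T) :
    Squarefree (nTU T U) ∧ (nTU T U).primeFactors = U.image pa ∪ (T \ U).image pb := by
  classical
  have hinj : nTU T U = ∏ p ∈ U.image pa ∪ (T \ U).image pb, p := by
    rw [prod_union, prod_image (fun a _ b _ h => pa_strictMono.injective h),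
      prod_image (fun a _ b _ h => pb_strictMono.injective h), nTU]
    rw [Finset.disjoint_left]
    intro p hp hp'
    obtain ⟨i, -, rfl⟩ := mem_image.1 hp
    obtain ⟨j, -, h⟩ := mem_image.1 hp'
    exact pa_ne_pb i j h.symm
  have hpr : ∀ p ∈ U.image pa ∪ (T \ U).image pb, p.Prime := by
    intro p hp
    rcases mem_union.1 hp with h | h
    · obtain ⟨i, -, rfl⟩ := mem_image.1 h; exact pa_prime i
    · obtain ⟨i, -, rfl⟩ := mem_image.1 h; exact pb_prime i
  constructor
  · rw [hinj]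
    refine Finset.squarefree_prod_of_pairwise_isCoprime ?_ (fun p hp => (hpr p hp).squarefree)
    intro p hp q hq hpq
    show IsRelPrime p q
    rw [← Nat.coprime_iff_isRelPrime]
    exact (Nat.coprime_primes (hpr p hp) (hpr q hq)).mpr hpq
  · rw [hinj, Nat.primeFactors_prod hpr]

lemma nTU_pos (T U : Finset ℕ) : 0 < nTU T U :=
  Nat.mul_pos (prod_pos fun i _ => (pa_prime i).pos) (prod_pos fun i _ => (pb_prime i).pos)

lemma nTU_card {T U : Finset ℕ} (hU : U ⊆ T) : (nTU T U).primeFactors.card = T.card := by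
  classical
  rw [(nTU_factors hU).2, card_union_of_disjoint, card_image_of_injective _ pa_strictMono.injective,
    card_image_of_injective _ pb_strictMono.injective, card_sdiff_of_subset hU]
  · have := card_le_card hU
    omega
  · rw [Finset.disjoint_left]
    intro p hp hp'
    obtain ⟨i, -, rfl⟩ := mem_image.1 hp
    obtain ⟨j, -, h⟩ := mem_image.1 hp'
    exact pa_ne_pb i j h.symm

lemma nTU_ix {T U : Finset ℕ} (hU : U ⊆ T) : (nTU T U).primeFactors.image ix = T := by
  classical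
  rw [(nTU_factors hU).2, image_union, image_image, image_image]
  have h1 : ix ∘ pa = id := funext ix_pa
  have h2 : ix ∘ pb = id := funext ix_pb
  rw [h1, h2, image_id, image_id, union_sdiff_of_subset hU]

lemma nTU_inj {T U V : Finset ℕ} (hU : U ⊆ T) (hV : V ⊆ T) (h : nTU T U = nTU T V) : U = V := by
  classical
  have h1 := (nTU_factors hU).2
  rw [h, (nTU_factors hV).2] at h1
  ext i
  have h2 : ∀ W : Finset ℕ, pa i ∈ W.image pa ∪ (T \ W).image pb ↔ i ∈ W := by
    intro W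
    rw [mem_union, mem_image, mem_image]
    constructor
    · rintro (⟨j, hj, e⟩ | ⟨j, hj, e⟩)
      · rwa [← pa_strictMono.injective e]
      · exact absurd e.symm (pa_ne_pb i j)
    · intro hi; exact Or.inl ⟨i, hi, rfl⟩
  rw [← h2 U, ← h2 V, h1]

lemma mem_spt {T : Finset ℕ} {n : ℕ} (h : n ∈ spt T) :
    1 ≤ n ∧ Squarefree n ∧ n.primeFactors.card = T.card ∧ n.primeFactors.image ix = T ∧
      ∀ p ∈ n.primeFactors, ∃ i ∈ T, p = pa i ∨ p = pb i := by
  classical
  obtain ⟨U, hU, rfl⟩ := mem_image.1 h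
  rw [mem_powerset] at hU
  refine ⟨nTU_pos T U, (nTU_factors hU).1, nTU_card hU, nTU_ix hU, fun p hp => ?_⟩
  rw [(nTU_factors hU).2] at hp
  rcases mem_union.1 hp with h | h
  · obtain ⟨i, hi, rfl⟩ := mem_image.1 h
    exact ⟨i, hU hi, Or.inl rfl⟩
  · obtain ⟨i, hi, rfl⟩ := mem_image.1 h
    exact ⟨i, (mem_sdiff.1 hi).1, Or.inr rfl⟩

/-- The supports of different `dT T` are disjoint. -/
lemma spt_unique {T T' : Finset ℕ} {n : ℕ} (h : n ∈ spt T) (h' : n ∈ spt T') : T = T' := by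
  rw [← (mem_spt h).2.2.2.1, (mem_spt h').2.2.2.1]

lemma card_spt_le (T : Finset ℕ) : (spt T).card ≤ 2 ^ T.card :=
  card_image_le.trans (card_powerset T).le

/-- The coefficients of `dT T` are `0`, `1`, `-1` and vanish outside `spt T`. -/
lemma abs_coeff_dT (T : Finset ℕ) (n : ℕ) :
    |(dT T).coeff n| ≤ if n ∈ spt T then 1 else 0 := by
  classical
  have h0 : (dT T).coeff n = ∑ U ∈ T.powerset, if nTU T U = n then (-1 : ℝ) ^ (T \ U).card else 0 := by
    rw [dT_expand, MonoidAlgebra.coeff_sum, Finsupp.finsetSum_apply]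
    refine sum_congr rfl fun U _ => ?_
    rw [MonoidAlgebra.coeff_smul, Finsupp.smul_apply, coeff_mo, smul_eq_mul]
    split_ifs <;> simp
  rw [h0]
  by_cases hn : n ∈ spt T
  · rw [if_pos hn]
    obtain ⟨U, hU, rfl⟩ := mem_image.1 hn
    rw [sum_eq_single U]
    · rw [if_pos rfl, abs_pow, abs_neg, abs_one, one_pow]
    · intro V hV hVU
      rw [if_neg]
      intro h
      exact hVU (nTU_inj (mem_powerset.1 hV) (mem_powerset.1 hU) h)
    · intro h; exact absurd hU h
  · rw [if_neg hn]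
    have : ∀ U ∈ T.powerset, (if nTU T U = n then (-1 : ℝ) ^ (T \ U).card else 0) = 0 := by
      intro U hU
      rw [if_neg]
      rintro rfl
      exact hn (mem_image_of_mem _ hU)
    rw [sum_congr rfl this]
    simp

lemma coeff_dT_eq_zero {T : Finset ℕ} {n : ℕ} (h : n ∉ spt T) : (dT T).coeff n = 0 := by
  have := abs_coeff_dT T n
  rw [if_neg h] at this
  exact abs_eq_zero.1 (le_antisymm this (abs_nonneg _))

end Pool.Agent.Helper66.MB
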