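import Pool.Agent.Helper66.MB.Remove
import Pool.Agent.Helper66.MB.Sieve
import Pool.Agent.Helper66.MB.Rho

/-!
# Block MB-CU (MP_a499ba_nt)

Weighted count of the finite sets `U` of pairs with `∏_{i ∈ U} pa i pb i ≤ Y`.

Proof. Write `m(U) = ∏_{i ∈ U} pa i`; `m(U)² ≤ ∏ pa i pb i`, so `m(U) ≤ z := Nat.sqrt Y` for the `U` in the sum. The map
`U ↦ m(U)` is injective and `m(U)` is not divisible by any `pb j`, so for all `z' ≥ 1` and every index set the number of `U'` with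
`m(U') ≤ z'` is at most `C z' rho z'` (`sieve`). Expand `∏_{i ∈ U} (1 + 2θ_i) = ∑_{V ⊆ U} ∏_{i ∈ V} 2θ_i` (`θ = tht`,
`Finset.prod_one_add`) and put `U' = U \ V`: the sum is at most
`∑_{V ⊆ Ico n₀ J, m(V) ≤ z} ∏_V 2θ_i · #{U' : m(U') ≤ z / m(V)} ≤ ∑_V ∏_V 2θ_i · C (z/m(V)) rho (z/m(V))`
`≤ C z rho z ∑_V ∏_V (2θ_i) (1 + log (2 m(V))) / m(V)` (`rho_div`), and `1 + log (2 m(V)) ≤ 2 ∏_{i ∈ V} (1 + log (pa i))`, so it is at most
`2 C z rho z ∏_{i ∈ Ico n₀ J} (1 + 2 θ_i (1 + log (pa i)) / pa i) ≤ 2 C z rho z exp (∑_i 2 θ_i (1 + log (pa i)) / pa i)`; the series converges: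
`θ_i (1 + log pa i)/pa i ≤ C' (pa i)^{-5/4} ≤ C' (2i+1)^{-5/4}`. Finally `z ≤ √Y` and `rho z ≤ C rho Y` (`rho_sqrt`).
-/

set_option autoImplicit false

namespace Pool.Agent.Helper66.MB

open Finset Pool.Agent.Helper92.GB

namespace CountUAux

/-- Product of the first primes of the pairs in `U`. -/
noncomputable def mA (U : Finset ℕ) : ℕ := ∏ i ∈ U, pa i

lemma mA_pos (U : Finset ℕ) : 0 < mA U := prod_pos fun i _ => (pa_prime i).pos

lemma pa_dvd_mA (i : ℕ) (U : Finset ℕ) : pa i ∣ mA U ↔ i ∈ U := by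
  unfold mA
  rw [Prime.dvd_finsetProd_iff (pa_prime i).prime]
  constructor
  · rintro ⟨j, hj, h⟩
    rw [Nat.prime_dvd_prime_iff_eq (pa_prime i) (pa_prime j)] at h
    rw [pa_strictMono.injective h]
    exact hj
  · intro h
    exact ⟨i, h, dvd_rfl⟩

lemma pb_not_dvd_mA (j : ℕ) (U : Finset ℕ) : ¬ pb j ∣ mA U := by
  unfold mA
  rw [Prime.dvd_finsetProd_iff (pb_prime j).prime]
  rintro ⟨i, -, h⟩
  rw [Nat.prime_dvd_prime_iff_eq (pb_prime j) (pa_prime i)] at h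
  exact pa_ne_pb i j h.symm

lemma mA_inj {U V : Finset ℕ} (h : mA U = mA V) : U = V := by
  ext i
  rw [← pa_dvd_mA i U, ← pa_dvd_mA i V, h]

lemma mA_sdiff {U V : Finset ℕ} (h : V ⊆ U) : mA V * mA (U \ V) = mA U := by
  unfold mA
  rw [mul_comm]
  exact prod_sdiff h

lemma count_sup (C : ℝ) (hs : ∀ z : ℕ, 1 ≤ z →
    open Classical in
    (((Icc 1 z).filter (fun m => ∀ i, ¬ pb i ∣ m)).card : ℝ) ≤ C * z * rho z)
    (I V : Finset ℕ) (z : ℕ) :
    ((I.powerset.filter (fun U => V ⊆ U ∧ mA U ≤ z)).card : ℝ) ≤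
      if mA V ≤ z then C * ((z / mA V : ℕ) : ℝ) * rho ((z / mA V : ℕ) : ℝ) else 0 := by
  classical
  split_ifs with h
  · have h1 : 1 ≤ z / mA V := (Nat.one_le_div_iff (mA_pos V)).mpr h
    refine le_trans ?_ (hs _ h1)
    norm_cast
    have h2 : ∀ U ∈ I.powerset.filter (fun U => V ⊆ U ∧ mA U ≤ z),
        mA (U \ V) ∈ (Icc 1 (z / mA V)).filter (fun m => ∀ i, ¬ pb i ∣ m) := by
      intro U hU
      obtain ⟨-, hVU, hz⟩ := mem_filter.1 hU
      rw [mem_filter, mem_Icc]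
      refine ⟨⟨mA_pos _, ?_⟩, fun i => pb_not_dvd_mA i _⟩
      rw [Nat.le_div_iff_mul_le (mA_pos V), mul_comm, mA_sdiff hVU]
      exact hz
    have h3 := card_le_card_of_injOn (fun U => mA (U \ V)) h2 (by
      intro U hU U' hU' he
      obtain ⟨-, hVU, -⟩ := mem_filter.1 (mem_coe.1 hU)
      obtain ⟨-, hVU', -⟩ := mem_filter.1 (mem_coe.1 hU')
      have := mA_inj he
      rw [← union_sdiff_of_subset hVU, ← union_sdiff_of_subset hVU', this])
    convert h3 using 2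
  · have : I.powerset.filter (fun U => V ⊆ U ∧ mA U ≤ z) = ∅ := by
      rw [filter_eq_empty_iff]
      rintro U - ⟨hVU, hz⟩
      apply h
      rw [← mA_sdiff hVU] at hz
      exact (Nat.le_mul_of_pos_right _ (mA_pos _)).trans hz
    rw [this]
    simp

/-- The factor of the pair `i`. -/
noncomputable def fct (i : ℕ) : ℝ := 2 * tht i * (1 + Real.log (pa i)) / pa i

lemma fct_nonneg (i : ℕ) : 0 ≤ fct i := by
  unfold fct
  have := tht_nonneg i
  have h : 0 ≤ Real.log (pa i) := Real.log_natCast_nonneg _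
  positivity

lemma fct_le (i : ℕ) : fct i ≤ 32500 * (((i + 1 : ℕ) : ℝ) ^ ((5 : ℝ) / 4))⁻¹ := by
  have hp : (1 : ℝ) ≤ pa i := by exact_mod_cast (pa_prime i).one_le
  have hp0 : (0 : ℝ) < pa i := by linarith
  set p : ℝ := (pa i : ℝ) with hpd
  set w : ℝ := p ^ ((1 : ℝ) / 12) with hw
  have hw1 : 1 ≤ w := Real.one_le_rpow hp (by norm_num)
  have hw0 : 0 < w := by linarith
  have l1 : 1 + Real.log p ≤ 13 * w := by
    have := Real.log_le_rpow_div hp0.le (show (0 : ℝ) < 1 / 12 by norm_num)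
    rw [← hw] at this
    linarith
  have l2 : 1 + Real.log (4 * p) ≤ 25 * w := by
    have := Real.log_le_rpow_div (show 0 ≤ 4 * p by positivity) (show (0 : ℝ) < 1 / 12 by norm_num)
    have h4 : (4 * p) ^ ((1 : ℝ) / 12) ≤ 2 * w := by
      rw [Real.mul_rpow (by norm_num) hp0.le]
      apply mul_le_mul_of_nonneg_right _ hw0.le
      calc (4 : ℝ) ^ ((1 : ℝ) / 12) ≤ 4 ^ ((1 : ℝ) / 2) :=
            Real.rpow_le_rpow_of_exponent_le (by norm_num) (by norm_num)
        _ = 2 := by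
            rw [← Real.sqrt_eq_rpow, show (4 : ℝ) = 2 ^ 2 by norm_num, Real.sqrt_sq (by norm_num)]
    linarith
  have n1 : 0 ≤ Real.log p := Real.log_nonneg hp
  have n2 : 0 ≤ Real.log (4 * p) := Real.log_nonneg (by linarith)
  have hw3 : w ^ 3 = p ^ ((1 : ℝ) / 4) := by
    rw [hw, ← Real.rpow_natCast, ← Real.rpow_mul hp0.le]
    norm_num
  have e1 : fct i = 4 * ((1 + Real.log (4 * p)) ^ 2 * (1 + Real.log p)) / (Real.sqrt p * p) := by
    unfold fct tht
    rw [← hpd]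
    have : Real.sqrt p ≠ 0 := (Real.sqrt_pos.mpr hp0).ne'
    field_simp
    ring
  have e2 : (1 + Real.log (4 * p)) ^ 2 * (1 + Real.log p) ≤ 8125 * p ^ ((1 : ℝ) / 4) := by
    rw [← hw3]
    calc (1 + Real.log (4 * p)) ^ 2 * (1 + Real.log p) ≤ (25 * w) ^ 2 * (13 * w) := by
          apply mul_le_mul _ l1 (by positivity) (by positivity)
          exact pow_le_pow_left₀ (by positivity) l2 2
      _ = 8125 * w ^ 3 := by ring
  have e3 : Real.sqrt p * p = p ^ ((1 : ℝ) / 4) * p ^ ((5 : ℝ) / 4) := by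
    rw [← Real.rpow_add hp0, Real.sqrt_eq_rpow]
    have : p ^ ((1 : ℝ) / 2) * p = p ^ ((1 : ℝ) / 2 + 1) := by
      rw [Real.rpow_add hp0, Real.rpow_one]
    rw [this]
    norm_num
  have q1 : 0 < p ^ ((1 : ℝ) / 4) := Real.rpow_pos_of_pos hp0 _
  have q2 : 0 < p ^ ((5 : ℝ) / 4) := Real.rpow_pos_of_pos hp0 _
  have e4 : fct i ≤ 32500 * (p ^ ((5 : ℝ) / 4))⁻¹ := by
    rw [e1, e3, div_le_iff₀ (by positivity)]
    have : 32500 * (p ^ ((5 : ℝ) / 4))⁻¹ * (p ^ ((1 : ℝ) / 4) * p ^ ((5 : ℝ) / 4))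
      = 32500 * p ^ ((1 : ℝ) / 4) := by
      field_simp
    rw [this]
    linarith
  refine e4.trans ?_
  apply mul_le_mul_of_nonneg_left _ (by norm_num)
  have hip : ((i + 1 : ℕ) : ℝ) ≤ p := by
    rw [hpd]
    have := lt_pa i
    exact_mod_cast (by omega : i + 1 ≤ pa i)
  have hi0 : (0 : ℝ) < ((i + 1 : ℕ) : ℝ) := by positivity
  apply inv_anti₀ (Real.rpow_pos_of_pos hi0 _)
  exact Real.rpow_le_rpow hi0.le hip (by norm_num)

lemma fct_sum : ∃ B : ℝ, ∀ I : Finset ℕ, ∑ i ∈ I, fct i ≤ B := by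
  have h1 : Summable (fun i : ℕ => (((i + 1 : ℕ) : ℝ) ^ ((5 : ℝ) / 4))⁻¹) := by
    have := (Real.summable_nat_rpow_inv (p := (5 : ℝ) / 4)).mpr (by norm_num)
    exact (summable_nat_add_iff 1).mpr this
  have h2 : Summable (fun i : ℕ => 32500 * (((i + 1 : ℕ) : ℝ) ^ ((5 : ℝ) / 4))⁻¹) := h1.mul_left _
  refine ⟨∑' i : ℕ, 32500 * (((i + 1 : ℕ) : ℝ) ^ ((5 : ℝ) / 4))⁻¹, fun I => ?_⟩
  refine (sum_le_sum fun i _ => fct_le i).trans ?_
  exact h2.sum_le_tsum I (fun i _ => by positivity)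

lemma log_mA_le (V : Finset ℕ) :
    1 + Real.log (2 * mA V) ≤ 2 * ∏ i ∈ V, (1 + Real.log (pa i)) := by
  have h1 : Real.log (2 * mA V) = Real.log 2 + ∑ i ∈ V, Real.log (pa i) := by
    have hm : ((mA V : ℕ) : ℝ) ≠ 0 := by exact_mod_cast (mA_pos V).ne'
    rw [Real.log_mul (by norm_num) hm]
    congr 1
    unfold mA
    push_cast
    rw [Real.log_prod]
    intro i _
    exact_mod_cast (pa_prime i).pos.ne'
  have h2 : 1 + ∑ i ∈ V, Real.log (pa i) ≤ ∏ i ∈ V, (1 + Real.log (pa i)) := by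
    have gen : ∀ W : Finset ℕ, 1 + ∑ i ∈ W, Real.log (pa i) ≤ ∏ i ∈ W, (1 + Real.log (pa i)) := by
      intro W
      induction W using Finset.induction_on with
      | empty => simp
      | insert i s hi ih =>
        rw [sum_insert hi, prod_insert hi]
        have a1 : 0 ≤ Real.log (pa i) := Real.log_natCast_nonneg _
        have a2 : 0 ≤ ∑ j ∈ s, Real.log (pa j) := sum_nonneg fun j _ => Real.log_natCast_nonneg _
        have a3 := mul_le_mul_of_nonneg_left ih (show 0 ≤ 1 + Real.log (pa i) by linarith)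
        nlinarith
    exact gen V
  have h3 : Real.log 2 ≤ 1 := by
    have := Real.log_two_lt_d9
    linarith
  have h4 : 0 ≤ ∑ i ∈ V, Real.log (pa i) := sum_nonneg fun i _ => Real.log_natCast_nonneg _
  rw [h1]
  linarith

end CountUAux

open CountUAux

theorem countU (n₀ : ℕ) : ∃ C : ℝ, 0 < C ∧ ∀ J Y : ℕ, 1 ≤ Y →
    ∑ U ∈ (Ico n₀ J).powerset.filter (fun U => ∏ i ∈ U, pa i * pb i ≤ Y),
      ∏ i ∈ U, (1 + 2 * tht i) ≤ C * Real.sqrt Y * rho Y := by
  classical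
  obtain ⟨C0, hC0, hs⟩ := sieve
  obtain ⟨C1, hC1, hr⟩ := rho_sqrt
  obtain ⟨B, hB⟩ := fct_sum
  refine ⟨2 * C0 * Real.exp B * C1, by positivity, fun J Y hY => ?_⟩
  set I := Ico n₀ J with hI
  set z := Nat.sqrt Y with hz
  have hz1 : 1 ≤ z := by
    rw [hz, Nat.le_sqrt]
    simpa using hY
  have hz1' : (1 : ℝ) ≤ z := by exact_mod_cast hz1
  have hrz : 0 < rho z := rho_pos hz1'
  have hg : ∀ i, 0 ≤ 2 * tht i := fun i => by have := tht_nonneg i; linarith
  -- enlarge the set of `U`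
  have s1 : ∑ U ∈ I.powerset.filter (fun U => ∏ i ∈ U, pa i * pb i ≤ Y), ∏ i ∈ U, (1 + 2 * tht i)
      ≤ ∑ U ∈ I.powerset.filter (fun U => mA U ≤ z), ∏ i ∈ U, (1 + 2 * tht i) := by
    apply sum_le_sum_of_subset_of_nonneg
    · intro U hU
      obtain ⟨h1, h2⟩ := mem_filter.1 hU
      refine mem_filter.2 ⟨h1, ?_⟩
      rw [hz, Nat.le_sqrt]
      refine le_trans ?_ h2
      unfold mA
      rw [← prod_mul_distrib]
      exact prod_le_prod' fun i _ => Nat.mul_le_mul_left _ (pa_lt_pb i).le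
    · intro U _ _
      exact prod_nonneg fun i _ => by have := hg i; linarith
  refine s1.trans ?_
  -- expand the product and exchange the sums
  have s2 : ∑ U ∈ I.powerset.filter (fun U => mA U ≤ z), ∏ i ∈ U, (1 + 2 * tht i)
      = ∑ V ∈ I.powerset, ((I.powerset.filter (fun U => V ⊆ U ∧ mA U ≤ z)).card : ℝ)
          * ∏ i ∈ V, (2 * tht i) := by
    have e1 : ∀ U ∈ I.powerset.filter (fun U => mA U ≤ z), ∏ i ∈ U, (1 + 2 * tht i)
        = ∑ V ∈ U.powerset, ∏ i ∈ V, (2 * tht i) := fun U _ => prod_one_add _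
    rw [sum_congr rfl e1]
    rw [Finset.sum_comm' (t' := I.powerset)
      (s' := fun V => I.powerset.filter (fun U => V ⊆ U ∧ mA U ≤ z))]
    · refine sum_congr rfl fun V _ => ?_
      rw [sum_const, nsmul_eq_mul]
    · intro U V
      simp only [mem_filter, mem_powerset]
      constructor
      · rintro ⟨⟨h1, h2⟩, h3⟩
        exact ⟨⟨h1, h3, h2⟩, h3.trans h1⟩
      · rintro ⟨⟨h1, h3, h2⟩, -⟩
        exact ⟨⟨h1, h2⟩, h3⟩
  rw [s2]
  -- termwise estimate
  have s3 : ∀ V ∈ I.powerset, ((I.powerset.filter (fun U => V ⊆ U ∧ mA U ≤ z)).card : ℝ)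
      * ∏ i ∈ V, (2 * tht i) ≤ (2 * C0 * z * rho z) * ∏ i ∈ V, fct i := by
    intro V _
    have hP : 0 ≤ ∏ i ∈ V, (2 * tht i) := prod_nonneg fun i _ => hg i
    have hm : (0 : ℝ) < mA V := by exact_mod_cast mA_pos V
    have hF : ∏ i ∈ V, fct i = (∏ i ∈ V, (2 * tht i)) * (∏ i ∈ V, (1 + Real.log (pa i))) / mA V := by
      unfold fct mA
      push_cast
      rw [prod_div_distrib, prod_mul_distrib]
    have hcount := count_sup C0 hs I V z
    have hbound : (if mA V ≤ z then C0 * ((z / mA V : ℕ) : ℝ) * rho ((z / mA V : ℕ) : ℝ) else 0)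
        ≤ (2 * C0 * z * rho z) * ((∏ i ∈ V, (1 + Real.log (pa i))) / mA V) := by
      have hL : 0 ≤ ∏ i ∈ V, (1 + Real.log (pa i)) :=
        prod_nonneg fun i _ => by have := Real.log_natCast_nonneg (pa i); linarith
      split_ifs with h
      · have h1 : 1 ≤ z / mA V := (Nat.one_le_div_iff (mA_pos V)).mpr h
        have h2 := rho_div (x := z) (m := mA V) (mA_pos V) h1
        have h3 : ((z / mA V : ℕ) : ℝ) ≤ z / mA V := Nat.cast_div_le
        have h4 : 1 + Real.log (2 * mA V) ≤ 2 * ∏ i ∈ V, (1 + Real.log (pa i)) := log_mA_le V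
        have h5 : rho ((z / mA V : ℕ) : ℝ) ≤ rho z * (2 * ∏ i ∈ V, (1 + Real.log (pa i))) :=
          h2.trans (mul_le_mul_of_nonneg_left h4 hrz.le)
        have h6 : (1 : ℝ) ≤ ((z / mA V : ℕ) : ℝ) := by exact_mod_cast h1
        have h7 : 0 ≤ rho ((z / mA V : ℕ) : ℝ) := (rho_pos h6).le
        calc C0 * ((z / mA V : ℕ) : ℝ) * rho ((z / mA V : ℕ) : ℝ)
            ≤ C0 * (z / mA V) * (rho z * (2 * ∏ i ∈ V, (1 + Real.log (pa i)))) := by
              apply mul_le_mul (mul_le_mul_of_nonneg_left h3 hC0.le) h5 h7 (by positivity)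
          _ = _ := by ring
      · positivity
    calc ((I.powerset.filter (fun U => V ⊆ U ∧ mA U ≤ z)).card : ℝ) * ∏ i ∈ V, (2 * tht i)
        ≤ ((2 * C0 * z * rho z) * ((∏ i ∈ V, (1 + Real.log (pa i))) / mA V))
          * ∏ i ∈ V, (2 * tht i) := mul_le_mul_of_nonneg_right (hcount.trans hbound) hP
      _ = _ := by rw [hF]; ring
  refine (sum_le_sum s3).trans ?_
  rw [← mul_sum, ← prod_one_add]
  have s4 : ∏ i ∈ I, (1 + fct i) ≤ Real.exp B := by
    calc ∏ i ∈ I, (1 + fct i) ≤ ∏ i ∈ I, Real.exp (fct i) := by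
          apply prod_le_prod
          · intro i _
            have := fct_nonneg i
            linarith
          · intro i _
            have := Real.add_one_le_exp (fct i)
            linarith
      _ = Real.exp (∑ i ∈ I, fct i) := (Real.exp_sum _ _).symm
      _ ≤ Real.exp B := Real.exp_le_exp.mpr (hB I)
  have s5 : (z : ℝ) ≤ Real.sqrt Y := Real.nat_sqrt_le_real_sqrt
  have s6 : rho z ≤ C1 * rho Y := hr Y hY
  have hrY : 0 < rho Y := rho_pos (by exact_mod_cast hY)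
  calc (2 * C0 * z * rho z) * ∏ i ∈ I, (1 + fct i)
      ≤ (2 * C0 * Real.sqrt Y * (C1 * rho Y)) * Real.exp B := by
        apply mul_le_mul _ s4 (prod_nonneg fun i _ => by have := fct_nonneg i; linarith)
          (by positivity)
        apply mul_le_mul _ s6 hrz.le (by positivity)
        exact mul_le_mul_of_nonneg_left s5 (by positivity)
    _ = 2 * C0 * Real.exp B * C1 * Real.sqrt Y * rho Y := by ring

end Pool.Agent.Helper66.MB
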