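import Pool.Agent.Helper92.GB.Defs

/-!
# Mertens barrier (MP_a499ba_nt): definitions

Dirichlet polynomials `∑ c_n n^{-s}` with real coefficients are the elements of the monoid algebra
`DP` of the multiplicative monoid `ℕ`; `mo n` is the monomial `n^{-s}` and `Sm x f` is the sum of the
coefficients of index `≤ x`. The primes are listed in consecutive pairs `(pa i, pb i)`, `i ≥ 0`:
`(2, 3), (5, 7), (11, 13), ...`.
-/

set_option autoImplicit false

namespace Pool.Agent.Helper66.MB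

open Finset Pool.Agent.Helper92.GB

/-- Dirichlet polynomials with real coefficients. -/
abbrev DP := MonoidAlgebra ℝ ℕ

/-- The monomial `n^{-s}`. -/
noncomputable def mo (n : ℕ) : DP := MonoidAlgebra.single n 1

/-- The sum of the coefficients of index at most `x`. -/
noncomputable def Sm (x : ℕ) : DP →ₗ[ℝ] ℝ where
  toFun f := ∑ n ∈ range (x + 1), f.coeff n
  map_add' f g := by simp [sum_add_distrib]
  map_smul' c f := by simp [mul_sum]

/-- First prime of the pair number `i`. -/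
noncomputable def pa (i : ℕ) : ℕ := Nat.nth Nat.Prime (2 * i)

/-- Second prime of the pair number `i`. -/
noncomputable def pb (i : ℕ) : ℕ := Nat.nth Nat.Prime (2 * i + 1)

/-- `(pa i)^{-s} - (pb i)^{-s}`. -/
noncomputable def dl (i : ℕ) : DP := mo (pa i) - mo (pb i)

/-- The product of `dl i` over `i ∈ T`. -/
noncomputable def dT (T : Finset ℕ) : DP := ∏ i ∈ T, dl i

/-- The product of `1 + ω i * dl i` over `i ∈ I`. -/
noncomputable def star (ω : ℕ → ℤˣ) (I : Finset ℕ) : DP := ∏ i ∈ I, (1 + ((ω i : ℤ) : ℝ) • dl i)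

/-- The product of `(1 + ω i (pa i)^{-s}) (1 - ω i (pb i)^{-s})` over `i ∈ I`. -/
noncomputable def full (ω : ℕ → ℤˣ) (I : Finset ℕ) : DP :=
  ∏ i ∈ I, (1 + ((ω i : ℤ) : ℝ) • dl i - mo (pa i * pb i))

/-- The sign function on the primes with the value `ω i` at `pa i` and `-ω i` at `pb i`. -/
noncomputable def sgn (ω : ℕ → ℤˣ) (n : ℕ) : ℤ :=
  if Even (Nat.count Nat.Prime n) then (ω (Nat.count Nat.Prime n / 2) : ℤ)
  else -(ω (Nat.count Nat.Prime n / 2) : ℤ)

/-- Extension of finitely many signs by `1`. -/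
def exd {J : ℕ} (ω : Fin J → ℤˣ) (i : ℕ) : ℤˣ := if h : i < J then ω ⟨i, h⟩ else 1

/-- Fraction of the sign vectors of length `J` with the property `P`. -/
noncomputable def fr (J : ℕ) (P : (ℕ → ℤˣ) → Prop) : ℝ :=
  open Classical in
  ((univ.filter (fun ω : Fin J → ℤˣ => P (exd ω))).card : ℝ) / 2 ^ J

/-- `κ(y) = (1 + log y)^{-2}`. -/
noncomputable def kap (y : ℕ) : ℝ := ((1 + Real.log y) ^ 2)⁻¹

/-- `ρ(y) = (1 + log (1 + log y))^{-1/2}`. -/
noncomputable def rho (y : ℝ) : ℝ := (Real.sqrt (1 + Real.log (1 + Real.log y)))⁻¹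

/-- The loss factor of the pair `i`. -/
noncomputable def tht (i : ℕ) : ℝ := 2 * (1 + Real.log (4 * pa i)) ^ 2 / Real.sqrt (pa i)

/-- Summatory function of the multiplicative function `ext f`. -/
noncomputable def Mf (f : ℕ → ℤ) (x : ℕ) : ℝ := ∑ n ∈ Icc 1 x, (ext f n : ℝ)

/-- The integers `n ≤ x`, squarefree, with `p n ≤ x` for each prime `p` dividing `n`. -/
noncomputable def Wx (x : ℕ) : Finset ℕ :=
  (Icc 1 x).filter (fun n => Squarefree n ∧ ∀ p ∈ n.primeFactors, p * n ≤ x)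

/-- Prime sums of the block `k` of pairs: the twisted sum over the pairs with `2 ^ k < pa i ≤ 2 ^ (k+1)`
of the primes `≤ y` is of square root size. -/
def HH (A : ℝ) (k : ℕ) (ω : ℕ → ℤˣ) : Prop :=
  ∀ (q : ℕ) (χ : DirichletCharacter ℂ q) (t : ℝ) (y : ℕ), 1 ≤ q →
    ‖∑ i ∈ (range (2 ^ (k + 1))).filter (fun i => 2 ^ k < pa i ∧ pa i ≤ 2 ^ (k + 1)),
        ((ω i : ℤ) : ℂ) * ((if pa i ≤ y then χ (pa i : ZMod q) * npi (pa i) t else 0) -
          (if pb i ≤ y then χ (pb i : ZMod q) * npi (pb i) t else 0))‖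
      ≤ A * Real.sqrt (2 ^ k) * Real.sqrt (Real.log (q * (2 + |t|)) * (k + 1))

/-- The star sums at the scale `2 ^ k` are small. -/
def GG (n₀ k : ℕ) (ω : ℕ → ℤˣ) : Prop :=
  ∀ x : ℕ, 2 ^ k ≤ x → x < 2 ^ (k + 1) →
    |Sm x (star ω (Ico n₀ (2 ^ (k + 1))))| ≤ Real.sqrt (2 ^ k) / (k : ℝ) ^ 2

/-- The class of sign functions whose summatory function is `O(√x ρ(x))`. -/
def Cl (f : ℕ → ℤ) : Prop := ∃ C : ℝ, ∀ x : ℕ, 1 ≤ x → |Mf f x| ≤ C * Real.sqrt x * rho x

/-- Change the sign of `f` on the set `R`. -/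
def flipS (f : ℕ → ℤ) (R : Finset ℕ) (n : ℕ) : ℤ := if n ∈ R then -f n else f n

/-- `(log log log x)^{5/4}`. -/
noncomputable def el (x : ℝ) : ℝ := Real.log (Real.log (Real.log x)) ^ ((5 : ℝ) / 4)

/-- The largest term of the series `∑ z ^ r / r!`. -/
noncomputable def Az (z : ℝ) : ℝ := z ^ ⌊z⌋₊ / (Nat.factorial ⌊z⌋₊ : ℝ)

/-- There are arbitrarily large `X` with many primes in `(X, X + X / log X]` at which `f` is `1`. -/
def Bal (f : ℕ → ℤ) : Prop := ∀ X₀ : ℕ, ∃ X : ℕ, X₀ ≤ X ∧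
  (X : ℝ) ^ ((2 : ℝ) / 3) ≤
    (((Ioc X (X + ⌊(X : ℝ) / Real.log X⌋₊)).filter (fun p => p.Prime ∧ f p = 1)).card : ℝ)

/-- The main part of the summatory function of `flipS f R`. -/
noncomputable def mainS (f : ℕ → ℤ) (R : Finset ℕ) (x : ℕ) : ℝ :=
  ∑ T ∈ R.powerset, (-2 : ℝ) ^ T.card * Mf f (x / ∏ p ∈ T, p)

end Pool.Agent.Helper66.MB
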