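import Pool.Agent.Helper66.MB.Basic

/-!
# Block MB-MOM (MP_a499ba_nt)

Second and fourth moments of a multilinear form in independent signs, in counting form
(Bonami / hypercontractivity for the exponent 4), and the resulting tail bounds for star sums.

Proof. Induction on `J`. With `c₀ T = c T`, `c₁ T = c (insert J T)`, `P = A + ε B` where `A`, `B` are the
forms of `c₀`, `c₁` in the first `J` signs and `ε` is the last sign (split `Fin (J+1) → ℤˣ` by
`Fin.snocEquiv` or similar; `exd` of a `Fin.snoc`). Summing over `ε = ±1`: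
`∑ P² = 2 (A² + B²)`, `∑ P⁴ = 2 (A⁴ + 6 A² B² + B⁴)`, and by Cauchy-Schwarz (or `6 A²B² ≤ 3 (t A⁴ + B⁴/t)`)
`∑_ω A² B² ≤ (∑ A⁴)^{1/2} (∑ B⁴)^{1/2} ≤ 2^J a b` if `∑ A⁴ ≤ 2^J a²`, `∑ B⁴ ≤ 2^J b²`, so
`∑ P⁴ ≤ 2^{J+1} (a² + 6 a b + b²) ≤ 2^{J+1} (a + 3 b)²`, and `a + 3 b` is the sum for `J + 1`.

`fr_star_two`, `fr_star_four`: Markov's inequality; by `Sm_star_eq_sum` the star sum is the form with
`c T = Sm x (dT T)` if `T ⊆ Ico n₀ J` and `0` otherwise.
-/

set_option autoImplicit false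

namespace Pool.Agent.Helper66.MB

open Finset Pool.Agent.Helper92.GB

namespace Mom

/-- the multilinear form -/
noncomputable def form (J : ℕ) (c : Finset ℕ → ℝ) (ω : ℕ → ℤˣ) : ℝ :=
  ∑ T ∈ (range J).powerset, c T * ∏ i ∈ T, ((ω i : ℤ) : ℝ)

lemma exd_snoc_lt {J : ℕ} (ω : Fin J → ℤˣ) (e : ℤˣ) {i : ℕ} (h : i < J) :
    exd (Fin.snoc (α := fun _ => ℤˣ) ω e) i = exd ω i := by
  unfold exd
  rw [dif_pos (by omega : i < J + 1), dif_pos h]
  have : (⟨i, by omega⟩ : Fin (J + 1)) = Fin.castSucc ⟨i, h⟩ := rfl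
  rw [this, Fin.snoc_castSucc]

lemma exd_snoc_last {J : ℕ} (ω : Fin J → ℤˣ) (e : ℤˣ) :
    exd (Fin.snoc (α := fun _ => ℤˣ) ω e) J = e := by
  unfold exd
  rw [dif_pos (by omega : J < J + 1)]
  have : (⟨J, by omega⟩ : Fin (J + 1)) = Fin.last J := rfl
  rw [this, Fin.snoc_last]

lemma form_succ {J : ℕ} (c : Finset ℕ → ℝ) (ω : Fin J → ℤˣ) (e : ℤˣ) :
    form (J + 1) c (exd (Fin.snoc (α := fun _ => ℤˣ) ω e)) =
      form J c (exd ω) + ((e : ℤ) : ℝ) * form J (fun T => c (insert J T)) (exd ω) := by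
  unfold form
  rw [range_add_one, sum_powerset_insert (by simp), mul_sum]
  congr 1
  · refine sum_congr rfl fun T hT => ?_
    rw [mem_powerset] at hT
    congr 1
    refine prod_congr rfl fun i hi => ?_
    rw [exd_snoc_lt ω e (mem_range.1 (hT hi))]
  · refine sum_congr rfl fun T hT => ?_
    rw [mem_powerset] at hT
    have hJ : J ∉ T := fun h => by
      have := mem_range.1 (hT h)
      omega
    rw [prod_insert hJ, exd_snoc_last]
    have : ∏ i ∈ T, ((exd (Fin.snoc (α := fun _ => ℤˣ) ω e) i : ℤ) : ℝ) =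
        ∏ i ∈ T, ((exd ω i : ℤ) : ℝ) := by
      refine prod_congr rfl fun i hi => ?_
      rw [exd_snoc_lt ω e (mem_range.1 (hT hi))]
    rw [this]
    ring

lemma sum_succ {J : ℕ} (g : (Fin (J + 1) → ℤˣ) → ℝ) :
    ∑ ω : Fin (J + 1) → ℤˣ, g ω = ∑ ω : Fin J → ℤˣ,
      (g (Fin.snoc (α := fun _ => ℤˣ) ω 1) + g (Fin.snoc (α := fun _ => ℤˣ) ω (-1))) := by
  rw [← (Fin.snocEquiv (fun _ : Fin (J + 1) => ℤˣ)).sum_comp, Fintype.sum_prod_type, sum_comm]
  refine sum_congr rfl fun ω _ => ?_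
  rw [UnitsInt.univ, sum_pair (by decide)]
  rfl

lemma sum_form {J : ℕ} (c : Finset ℕ → ℝ) (n : ℕ) :
    ∑ ω : Fin (J + 1) → ℤˣ, form (J + 1) c (exd ω) ^ n = ∑ ω : Fin J → ℤˣ,
      ((form J c (exd ω) + form J (fun T => c (insert J T)) (exd ω)) ^ n +
        (form J c (exd ω) - form J (fun T => c (insert J T)) (exd ω)) ^ n) := by
  rw [sum_succ]
  refine sum_congr rfl fun ω _ => ?_
  rw [form_succ, form_succ]
  congr 2
  · simp
  · simp
    ring

lemma m2 (J : ℕ) : ∀ c : Finset ℕ → ℝ,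
    ∑ ω : Fin J → ℤˣ, form J c (exd ω) ^ 2 = 2 ^ J * ∑ T ∈ (range J).powerset, c T ^ 2 := by
  induction J with
  | zero =>
    intro c
    simp [form]
  | succ J ih =>
    intro c
    rw [sum_form]
    have h1 : ∀ ω : Fin J → ℤˣ,
        (form J c (exd ω) + form J (fun T => c (insert J T)) (exd ω)) ^ 2 +
        (form J c (exd ω) - form J (fun T => c (insert J T)) (exd ω)) ^ 2 =
        2 * form J c (exd ω) ^ 2 + 2 * form J (fun T => c (insert J T)) (exd ω) ^ 2 := by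
      intro ω
      ring
    rw [sum_congr rfl fun ω _ => h1 ω, sum_add_distrib, ← mul_sum, ← mul_sum, ih, ih,
      range_add_one, sum_powerset_insert (by simp), pow_succ]
    ring

lemma m4 (J : ℕ) : ∀ c : Finset ℕ → ℝ,
    ∑ ω : Fin J → ℤˣ, form J c (exd ω) ^ 4 ≤
      2 ^ J * (∑ T ∈ (range J).powerset, 3 ^ T.card * c T ^ 2) ^ 2 := by
  induction J with
  | zero =>
    intro c
    simp only [form]
    simp
    apply le_of_eq
    ring
  | succ J ih =>
    intro c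
    rw [sum_form]
    set c' : Finset ℕ → ℝ := fun T => c (insert J T) with hc'
    have h1 : ∀ ω : Fin J → ℤˣ,
        (form J c (exd ω) + form J c' (exd ω)) ^ 4 + (form J c (exd ω) - form J c' (exd ω)) ^ 4 =
        2 * form J c (exd ω) ^ 4 + 12 * (form J c (exd ω) ^ 2 * form J c' (exd ω) ^ 2) +
          2 * form J c' (exd ω) ^ 4 := by
      intro ω
      ring
    rw [sum_congr rfl fun ω _ => h1 ω, sum_add_distrib, sum_add_distrib, ← mul_sum, ← mul_sum,
      ← mul_sum]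
    set a : ℝ := ∑ T ∈ (range J).powerset, 3 ^ T.card * c T ^ 2 with ha
    set b : ℝ := ∑ T ∈ (range J).powerset, 3 ^ T.card * c' T ^ 2 with hb
    have ha0 : 0 ≤ a := sum_nonneg fun T _ => by positivity
    have hb0 : 0 ≤ b := sum_nonneg fun T _ => by positivity
    have iha := ih c
    have ihb := ih c'
    rw [← ha] at iha
    rw [← hb] at ihb
    have hcs := sum_mul_sq_le_sq_mul_sq (univ : Finset (Fin J → ℤˣ))
      (fun ω => form J c (exd ω) ^ 2) (fun ω => form J c' (exd ω) ^ 2)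
    have e4 : ∀ x : ℝ, (x ^ 2) ^ 2 = x ^ 4 := fun x => by ring
    simp only [e4] at hcs
    have h2J : (0 : ℝ) < 2 ^ J := by positivity
    have hAB : ∑ ω : Fin J → ℤˣ, form J c (exd ω) ^ 2 * form J c' (exd ω) ^ 2 ≤ 2 ^ J * (a * b) := by
      have h3 : (∑ ω : Fin J → ℤˣ, form J c (exd ω) ^ 4) *
          (∑ ω : Fin J → ℤˣ, form J c' (exd ω) ^ 4) ≤ (2 ^ J * a ^ 2) * (2 ^ J * b ^ 2) :=
        mul_le_mul iha ihb (sum_nonneg fun ω _ => by positivity) (by positivity)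
      have h4 := hcs.trans h3
      refine le_of_sq_le_sq (h4.trans (le_of_eq (by ring))) (by positivity)
    have hfin : ∑ T ∈ (range (J + 1)).powerset, 3 ^ T.card * c T ^ 2 = a + 3 * b := by
      rw [range_add_one, sum_powerset_insert (by simp), ← ha, hb, mul_sum]
      congr 1
      refine sum_congr rfl fun T hT => ?_
      rw [mem_powerset] at hT
      have hJ : J ∉ T := fun h => by
        have := mem_range.1 (hT h)
        omega
      rw [card_insert_of_notMem hJ, pow_succ, hc']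
      ring
    rw [hfin, pow_succ]
    have h5 : 0 ≤ 2 ^ J * b ^ 2 := by positivity
    nlinarith

lemma markov (J : ℕ) (Y : (ℕ → ℤˣ) → ℝ) (lam : ℝ) (hlam : 0 < lam) (n : ℕ) (hn : Even n) :
    fr J (fun ω => lam < |Y ω|) ≤ (∑ ω : Fin J → ℤˣ, Y (exd ω) ^ n) / (2 ^ J * lam ^ n) := by
  classical
  unfold fr
  have h2J : (0 : ℝ) < 2 ^ J := by positivity
  have hl : 0 < lam ^ n := by positivity
  rw [div_le_div_iff₀ h2J (by positivity)]
  have h1 : (((univ.filter (fun ω : Fin J → ℤˣ => lam < |Y (exd ω)|)).card : ℕ) : ℝ) * lam ^ n ≤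
      ∑ ω : Fin J → ℤˣ, Y (exd ω) ^ n := by
    calc (((univ.filter (fun ω : Fin J → ℤˣ => lam < |Y (exd ω)|)).card : ℕ) : ℝ) * lam ^ n
        = ∑ ω ∈ univ.filter (fun ω : Fin J → ℤˣ => lam < |Y (exd ω)|), lam ^ n := by
          rw [sum_const, nsmul_eq_mul]
      _ ≤ ∑ ω ∈ univ.filter (fun ω : Fin J → ℤˣ => lam < |Y (exd ω)|), Y (exd ω) ^ n := by
          refine sum_le_sum fun ω hω => ?_
          rw [mem_filter] at hω
          rw [← hn.pow_abs (Y (exd ω))]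
          exact pow_le_pow_left₀ hlam.le hω.2.le n
      _ ≤ ∑ ω : Fin J → ℤˣ, Y (exd ω) ^ n :=
          sum_le_sum_of_subset_of_nonneg (filter_subset _ _) fun ω _ _ => hn.pow_nonneg _
  have h3 := mul_le_mul_of_nonneg_right h1 h2J.le
  convert h3 using 1
  ring

lemma form_Ico (n₀ J : ℕ) (c : Finset ℕ → ℝ) (ω : ℕ → ℤˣ) :
    ∑ T ∈ (Ico n₀ J).powerset, c T * ∏ i ∈ T, ((ω i : ℤ) : ℝ) =
      form J (fun T => if T ⊆ Ico n₀ J then c T else 0) ω := by
  unfold form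
  have hsub : (Ico n₀ J).powerset ⊆ (range J).powerset := by
    rw [powerset_mono]
    intro i hi
    rw [mem_Ico] at hi
    exact mem_range.2 hi.2
  rw [← sum_subset hsub]
  · refine sum_congr rfl fun T hT => ?_
    simp only [if_pos (mem_powerset.1 hT)]
  · intro T _ hT
    rw [mem_powerset] at hT
    simp only [if_neg hT, zero_mul]

lemma sum_Ico_sq (n₀ J : ℕ) (c w : Finset ℕ → ℝ) :
    ∑ T ∈ (range J).powerset, w T * (if T ⊆ Ico n₀ J then c T else 0) ^ 2 =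
      ∑ T ∈ (Ico n₀ J).powerset, w T * c T ^ 2 := by
  have hsub : (Ico n₀ J).powerset ⊆ (range J).powerset := by
    rw [powerset_mono]
    intro i hi
    rw [mem_Ico] at hi
    exact mem_range.2 hi.2
  rw [← sum_subset hsub]
  · refine sum_congr rfl fun T hT => ?_
    rw [if_pos (mem_powerset.1 hT)]
  · intro T _ hT
    rw [mem_powerset] at hT
    rw [if_neg hT]
    ring

end Mom

theorem moment2 (J : ℕ) (c : Finset ℕ → ℝ) :
    ∑ ω : Fin J → ℤˣ, (∑ T ∈ (range J).powerset, c T * ∏ i ∈ T, ((exd ω i : ℤ) : ℝ)) ^ 2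
      = 2 ^ J * ∑ T ∈ (range J).powerset, c T ^ 2 := Mom.m2 J c

theorem moment4 (J : ℕ) (c : Finset ℕ → ℝ) :
    ∑ ω : Fin J → ℤˣ, (∑ T ∈ (range J).powerset, c T * ∏ i ∈ T, ((exd ω i : ℤ) : ℝ)) ^ 4
      ≤ 2 ^ J * (∑ T ∈ (range J).powerset, 3 ^ T.card * c T ^ 2) ^ 2 := Mom.m4 J c

theorem fr_star_two (n₀ J x : ℕ) (lam : ℝ) (hlam : 0 < lam) :
    fr J (fun ω => lam < |Sm x (star ω (Ico n₀ J))|) ≤
      (∑ T ∈ (Ico n₀ J).powerset, Sm x (dT T) ^ 2) / lam ^ 2 := by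
  refine (Mom.markov J _ lam hlam 2 even_two).trans ?_
  have h1 : ∀ ω : Fin J → ℤˣ, Sm x (star (exd ω) (Ico n₀ J)) =
      Mom.form J (fun T => if T ⊆ Ico n₀ J then Sm x (dT T) else 0) (exd ω) := by
    intro ω
    rw [Sm_star_eq_sum, Mom.form_Ico]
  simp only [h1]
  rw [Mom.m2]
  have h2 := Mom.sum_Ico_sq n₀ J (fun T => Sm x (dT T)) (fun _ => 1)
  simp only [one_mul] at h2
  rw [h2, mul_div_mul_left _ _ (by positivity)]

theorem fr_star_four (n₀ J x y : ℕ) (lam : ℝ) (hlam : 0 < lam) :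
    fr J (fun ω => lam < |Sm y (star ω (Ico n₀ J)) - Sm x (star ω (Ico n₀ J))|) ≤
      (∑ T ∈ (Ico n₀ J).powerset, 3 ^ T.card * (Sm y (dT T) - Sm x (dT T)) ^ 2) ^ 2 / lam ^ 4 := by
  refine (Mom.markov J _ lam hlam 4 (by decide)).trans ?_
  have h1 : ∀ ω : Fin J → ℤˣ,
      Sm y (star (exd ω) (Ico n₀ J)) - Sm x (star (exd ω) (Ico n₀ J)) =
      Mom.form J (fun T => if T ⊆ Ico n₀ J then (Sm y (dT T) - Sm x (dT T)) else 0) (exd ω) := by
    intro ω
    rw [Sm_star_eq_sum, Sm_star_eq_sum, ← sum_sub_distrib, ← Mom.form_Ico]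
    refine sum_congr rfl fun T _ => ?_
    ring
  simp only [h1]
  have h2 := Mom.sum_Ico_sq n₀ J (fun T => Sm y (dT T) - Sm x (dT T)) (fun T => 3 ^ T.card)
  have h3 := Mom.m4 J (fun T => if T ⊆ Ico n₀ J then (Sm y (dT T) - Sm x (dT T)) else 0)
  rw [h2] at h3
  have h2J : (0 : ℝ) < 2 ^ J := by positivity
  have hl : 0 < lam ^ 4 := by positivity
  rw [div_le_div_iff₀ (by positivity) hl]
  nlinarith

end Pool.Agent.Helper66.MB
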