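import Pool.Agent.Helper66.MB.Basic

/-!
# Block MB-SQF (MP_a499ba_nt)

Sums over squarefree integers and Euler products.

Proofs. `sum_sqf_le`: `n ↦ n.primeFactors` is injective on `s` (`Nat.prod_primeFactors_of_squarefree`) with
values in `Q.powerset`, and `∏_{p ∈ Q} (1 + c p) = ∑_{T ⊆ Q} ∏_{p ∈ T} c p` (`Finset.prod_one_add`).
`sum_prime_inv`: dyadic blocks: `∏_{2^k < p ≤ 2^(k+1)} p ≤ primorial (2^(k+1)) ≤ 4^(2^(k+1))` gives at most
`4 * 2^k / k` primes in the block (`k ≥ 1`), hence `∑ 1/p ≤ 4/k` over the block, and the harmonic sum up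
to `log x / log 2`. (Other ways: `Chebyshev.pi_le_log4_mul_div` in Mathlib, or
`Pool.Agent.Helper57.LS.Mertens`.) `prod_prime`: `1 + u ≤ exp u`.
-/

set_option autoImplicit false

namespace Pool.Agent.Helper66.MB

open Finset Pool.Agent.Helper92.GB

theorem sum_sqf_le (s Q : Finset ℕ) (c : ℕ → ℝ) (hc : ∀ p ∈ Q, 0 ≤ c p)
    (hs : ∀ n ∈ s, Squarefree n ∧ n.primeFactors ⊆ Q) :
    ∑ n ∈ s, ∏ p ∈ n.primeFactors, c p ≤ ∏ p ∈ Q, (1 + c p) := by
  classical
  rw [Finset.prod_one_add]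
  have hinj : Set.InjOn (fun n : ℕ => n.primeFactors) (s : Set ℕ) := by
    intro a ha b hb hab
    have h1 := Nat.prod_primeFactors_of_squarefree (hs a ha).1
    have h2 := Nat.prod_primeFactors_of_squarefree (hs b hb).1
    simp only at hab
    rw [hab] at h1
    exact h1.symm.trans h2
  rw [← Finset.sum_image (f := fun T : Finset ℕ => ∏ p ∈ T, c p) hinj]
  refine Finset.sum_le_sum_of_subset_of_nonneg ?_ ?_
  · intro T hT
    obtain ⟨n, hn, rfl⟩ := Finset.mem_image.1 hT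
    exact Finset.mem_powerset.2 (hs n hn).2
  · intro T hT _
    exact Finset.prod_nonneg fun p hp => hc p (Finset.mem_powerset.1 hT hp)

/-- the sum over one dyadic block -/
theorem block_inv (x k : ℕ) (hk : 1 ≤ k) :
    ∑ p ∈ ((Icc 1 x).filter Nat.Prime).filter (fun p => Nat.log 2 p = k), (1 : ℝ) / p ≤ 4 / k := by
  have hk0 : (0 : ℝ) < k := by exact_mod_cast hk
  have hl2 : 0 < Real.log 2 := Real.log_pos (by norm_num)
  have hp2 : (0 : ℝ) < 2 ^ k := by positivity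
  have hth := Chebyshev.theta_le_log4_mul_x (x := ((2 ^ (k + 1) : ℕ) : ℝ)) (Nat.cast_nonneg _)
  rw [Chebyshev.theta_eq_sum_Icc, Nat.floor_natCast] at hth
  have h1 : ∑ p ∈ ((Icc 1 x).filter Nat.Prime).filter (fun p => Nat.log 2 p = k), (1 : ℝ) / p ≤
      ∑ p ∈ ((Icc 1 x).filter Nat.Prime).filter (fun p => Nat.log 2 p = k),
        Real.log p * (1 / (k * Real.log 2 * 2 ^ k)) := by
    refine Finset.sum_le_sum fun p hp => ?_
    rw [mem_filter, mem_filter] at hp
    obtain ⟨⟨_, hpp⟩, hpk⟩ := hp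
    have h2 : 2 ^ k ≤ p := by rw [← hpk]; exact Nat.pow_log_le_self 2 hpp.ne_zero
    have h2' : (2 : ℝ) ^ k ≤ p := by exact_mod_cast h2
    have h3 : (k : ℝ) * Real.log 2 ≤ Real.log p := by
      rw [← Real.log_pow]
      exact Real.log_le_log hp2 h2'
    have h4 : (1 : ℝ) / p ≤ 1 / 2 ^ k := one_div_le_one_div_of_le hp2 h2'
    refine h4.trans ?_
    have h5 : (1 : ℝ) / 2 ^ k = (k * Real.log 2) * (1 / (k * Real.log 2 * 2 ^ k)) := by
      field_simp
    rw [h5]
    exact mul_le_mul_of_nonneg_right h3 (by positivity)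
  refine h1.trans ?_
  rw [← Finset.sum_mul]
  have h6 : ∑ p ∈ ((Icc 1 x).filter Nat.Prime).filter (fun p => Nat.log 2 p = k), Real.log p ≤
      ∑ p ∈ (Icc 0 (2 ^ (k + 1))).filter Nat.Prime, Real.log p := by
    refine Finset.sum_le_sum_of_subset_of_nonneg ?_ ?_
    · intro p hp
      rw [mem_filter, mem_filter] at hp
      obtain ⟨⟨_, hpp⟩, hpk⟩ := hp
      rw [mem_filter, mem_Icc]
      refine ⟨⟨Nat.zero_le _, ?_⟩, hpp⟩
      have := Nat.lt_pow_succ_log_self (b := 2) (by norm_num) p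
      rw [hpk] at this
      exact this.le
    · intro p _ _
      exact Real.log_natCast_nonneg p
  have h7 := h6.trans hth
  have h8 : (0 : ℝ) ≤ 1 / (k * Real.log 2 * 2 ^ k) := by positivity
  refine (mul_le_mul_of_nonneg_right h7 h8).trans (le_of_eq ?_)
  have h9 : Real.log 4 = 2 * Real.log 2 := by
    rw [show (4 : ℝ) = 2 ^ 2 by norm_num, Real.log_pow]; norm_num
  rw [h9]
  push_cast
  rw [pow_succ]
  field_simp
  norm_num

theorem sum_prime_inv : ∃ C : ℝ, 0 < C ∧ ∀ x : ℕ, 1 ≤ x →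
    ∑ p ∈ (Icc 1 x).filter Nat.Prime, (1 : ℝ) / p ≤ C * (1 + Real.log (1 + Real.log x)) := by
  refine ⟨8, by norm_num, fun x hx => ?_⟩
  have hlx : 0 ≤ Real.log x := Real.log_natCast_nonneg x
  have hll : 0 ≤ Real.log (1 + Real.log x) := Real.log_nonneg (by linarith)
  set K : ℕ := Nat.log 2 x with hK
  have hmaps : ∀ p ∈ (Icc 1 x).filter Nat.Prime, Nat.log 2 p ∈ Icc 1 K := by
    intro p hp
    rw [mem_filter, mem_Icc] at hp
    rw [mem_Icc]
    refine ⟨?_, Nat.log_mono_right hp.1.2⟩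
    exact Nat.log_pos (by norm_num) hp.2.two_le
  rw [← Finset.sum_fiberwise_of_maps_to hmaps]
  have h1 : ∑ k ∈ Icc 1 K, ∑ p ∈ ((Icc 1 x).filter Nat.Prime).filter (fun p => Nat.log 2 p = k),
      (1 : ℝ) / p ≤ ∑ k ∈ Icc 1 K, 4 * (1 / (k : ℝ)) := by
    refine Finset.sum_le_sum fun k hk => ?_
    rw [mem_Icc] at hk
    refine (block_inv x k hk.1).trans (le_of_eq ?_)
    ring
  refine h1.trans ?_
  rw [← Finset.mul_sum]
  rcases Nat.eq_zero_or_pos K with h0 | h0
  · rw [h0]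
    simp only [Icc_eq_empty_of_lt (show (0 : ℕ) < 1 by norm_num), sum_empty, mul_zero]
    positivity
  have h2 : ∑ k ∈ Icc 1 K, 1 / (k : ℝ) ≤ 1 + Real.log K := by
    have h3 := harmonic_le_one_add_log K
    have h4 : ((harmonic K : ℚ) : ℝ) = ∑ k ∈ Icc 1 K, 1 / (k : ℝ) := by
      rw [harmonic_eq_sum_Icc]
      push_cast
      refine Finset.sum_congr rfl fun k _ => ?_
      rw [one_div]
    rwa [h4] at h3
  have hl2 : (1 / 2 : ℝ) < Real.log 2 := by
    have := Real.log_two_gt_d9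
    linarith
  have h5 : (K : ℝ) ≤ 2 * Real.log x := by
    have h6 : 2 ^ K ≤ x := Nat.pow_log_le_self 2 (by omega)
    have h7 : (2 : ℝ) ^ K ≤ x := by exact_mod_cast h6
    have h8 : (K : ℝ) * Real.log 2 ≤ Real.log x := by
      rw [← Real.log_pow]
      exact Real.log_le_log (by positivity) h7
    have h9 : (0 : ℝ) ≤ K := Nat.cast_nonneg K
    nlinarith
  have h6 : Real.log K ≤ 1 + Real.log (1 + Real.log x) := by
    have h7 : (0 : ℝ) < K := by exact_mod_cast h0
    calc Real.log K ≤ Real.log (2 * (1 + Real.log x)) := Real.log_le_log h7 (by linarith)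
      _ = Real.log 2 + Real.log (1 + Real.log x) := by
          rw [Real.log_mul (by norm_num) (by linarith)]
      _ ≤ 1 + Real.log (1 + Real.log x) := by
          have := Real.log_two_lt_d9
          linarith
  linarith

theorem prod_prime (K : ℕ) : ∃ (C : ℝ) (A : ℕ), 0 < C ∧ ∀ x : ℕ, 1 ≤ x →
    ∏ p ∈ (Icc 1 x).filter Nat.Prime, (1 + (K : ℝ) / p) ≤ C * (1 + Real.log x) ^ A := by
  obtain ⟨C, hC, h⟩ := sum_prime_inv
  refine ⟨Real.exp (K * C), ⌈K * C⌉₊, Real.exp_pos _, fun x hx => ?_⟩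
  have hlx : 0 ≤ Real.log x := Real.log_natCast_nonneg x
  have h1 : ∏ p ∈ (Icc 1 x).filter Nat.Prime, (1 + (K : ℝ) / p) ≤
      ∏ p ∈ (Icc 1 x).filter Nat.Prime, Real.exp ((K : ℝ) * (1 / p)) := by
    refine Finset.prod_le_prod (fun p _ => by positivity) fun p _ => ?_
    have := Real.add_one_le_exp ((K : ℝ) * (1 / p))
    rw [mul_one_div] at this ⊢
    linarith
  refine h1.trans ?_
  rw [← Real.exp_sum, ← Finset.mul_sum]
  have h2 : (K : ℝ) * ∑ p ∈ (Icc 1 x).filter Nat.Prime, (1 : ℝ) / p ≤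
      K * C + Real.log (1 + Real.log x) * (K * C) := by
    have := mul_le_mul_of_nonneg_left (h x hx) (Nat.cast_nonneg (α := ℝ) K)
    linarith
  refine (Real.exp_le_exp.2 h2).trans ?_
  rw [Real.exp_add, Real.exp_mul (Real.log (1 + Real.log x)), Real.exp_log (by linarith)]
  refine mul_le_mul_of_nonneg_left ?_ (Real.exp_pos _).le
  rw [← Real.rpow_natCast]
  exact Real.rpow_le_rpow_of_exponent_le (by linarith) (Nat.le_ceil _)

end Pool.Agent.Helper66.MB
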