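import Pool.Agent.Helper66.MB.Az

/-!
# Block MB-UP (MP_a499ba_nt)

Size of the main part `mainS f R x = ∑_{T ⊆ R} (-2)^{|T|} Mf f (x / ∏ T)` when the primes of `R` are in
`(X, X + X / log X]`. (Imported statements may be used while they are still `sorry`.)

Notation `L = log X`, `z = 2 |R| / √X`, `P_T = ∏_{p ∈ T} p`. For `|T| = r`: `X^r ≤ P_T ≤ X^r (1+1/L)^r ≤ X^r e^{r/L}`.

`main_upper`. Put `A_T = 2^{|T|} |Mf f (x / P_T)|`. (1) The `T` with `X ≤ (x/P_T)^5` contribute at most
`∑_T 2^{|T|} τ √(x/P_T) ≤ τ √x e^z` (`powerset_exp`). (2) The `T` with `|T| > L²/4` contribute at most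
`μ √x ∑_{r > L²/4} z^r/r! ≤ μ √x e^{-L} = μ √x / X` (`powerset_term`, `tail`). (3) The remaining `T` with `x / P_T ≥ 1`:
`(x/P_T)^5 < X`, so `x < P_T (X^{1/5} + 1) ≤ P_T X^{1/4}`, and `|T| = r ≤ L²/4` gives `e^{r/L} ≤ X^{1/4}`, so
`X^r ≤ P_T ≤ x < X^{1/4} P_T ≤ X^{1/2} X^r < X^{r+1}`: all these `T` have the same cardinality `r`, and contribute at most
`μ √x z^r/r! ≤ μ √x Az z` (`powerset_term`, `Az_max`).

`main_lower`. Take `x = N * Y`, `Y = ⌊X^r (1+1/L)^r⌋`. For `|T| = r`: `X^r < P_T ≤ Y < P_T (1 + 1/N)`, since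
`(1+1/L)^r ≤ e^{r/L} ≤ 1 + 2r/L ≤ 1 + 1/N` (`r / L ≤ 1/2`); so `x / P_T = N` and these `T` contribute
`(-2)^r (choose |R| r) Mf f N` exactly. For `|T| < r`: `P_T ≤ 2 X^{r-1}`, `x ≥ X^r`, so `x/P_T ≥ X/2 - 1` and `(x/P_T)^5 ≥ X`: total at most `τ √x e^z`.
For `|T| > r`: `P_T > X^{r+1} ≥ x` since `x ≤ N X^r (1 + 1/N) ≤ 2 N X^r ≤ X^(r+1)`: zero. And `√x ≤ √N √(X^r) (1 + r/L)`.
-/

set_option autoImplicit false

namespace Pool.Agent.Helper66.MB

open Finset Pool.Agent.Helper92.GB

lemma X_pos97 {X : ℕ} (hX : 100 ≤ Real.log X) : 0 < X := by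
  rcases Nat.eq_zero_or_pos X with h | h
  · subst h; simp at hX; linarith
  · exact h

lemma P_lower97 {R T : Finset ℕ} {X : ℕ} (hR : ∀ p ∈ R, X < p) (hT : T ⊆ R) :
    X ^ T.card ≤ ∏ p ∈ T, p := by
  rw [← prod_const]
  exact prod_le_prod (fun _ _ => Nat.zero_le _) (fun p hp => (hR p (hT hp)).le)

lemma P_lower_strict97 {R T : Finset ℕ} {X : ℕ} (hX : 0 < X) (hR : ∀ p ∈ R, X < p) (hT : T ⊆ R)
    (hne : T.Nonempty) : X ^ T.card < ∏ p ∈ T, p := by
  rw [← prod_const]
  exact prod_lt_prod_of_nonempty (fun _ _ => hX) (fun p hp => hR p (hT hp)) hne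

lemma P_upper97 {R T : Finset ℕ} {X : ℕ}
    (hR : ∀ p ∈ R, (p : ℝ) ≤ X + X / Real.log X) (hT : T ⊆ R) :
    ((∏ p ∈ T, p : ℕ) : ℝ) ≤ (X : ℝ) ^ T.card * (1 + 1 / Real.log X) ^ T.card := by
  rw [← mul_pow, ← prod_const, Nat.cast_prod]
  refine prod_le_prod (fun _ _ => Nat.cast_nonneg _) (fun p hp => (hR p (hT hp)).trans (le_of_eq ?_))
  ring

lemma one_add_pow_le97 {L : ℝ} (hL : 0 < L) (r : ℕ) : (1 + 1 / L) ^ r ≤ Real.exp (r / L) := by
  have h1 : 1 + 1 / L ≤ Real.exp (1 / L) := by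
    have := Real.add_one_le_exp (1 / L); linarith
  calc (1 + 1 / L) ^ r ≤ Real.exp (1 / L) ^ r := pow_le_pow_left₀ (by positivity) h1 r
    _ = Real.exp (r / L) := by rw [← Real.exp_nat_mul]; congr 1; ring

lemma sqrt_div97 (x P : ℕ) : Real.sqrt ((x / P : ℕ) : ℝ) ≤ Real.sqrt x / Real.sqrt P := by
  rw [← Real.sqrt_div (Nat.cast_nonneg x)]
  exact Real.sqrt_le_sqrt Nat.cast_div_le

lemma Mf_zero97 (f : ℕ → ℤ) : Mf f 0 = 0 := by
  unfold Mf; simp

/-- the weight of `T` -/
noncomputable def wt97 (T : Finset ℕ) : ℝ := (2 : ℝ) ^ T.card / Real.sqrt ((∏ p ∈ T, p : ℕ) : ℝ)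

lemma wt_nonneg97 (T : Finset ℕ) : 0 ≤ wt97 T := by unfold wt97; positivity

lemma term_le97 (f : ℕ → ℤ) (x : ℕ) (T : Finset ℕ) (c : ℝ) (hc : 0 ≤ c)
    (h : |Mf f (x / ∏ p ∈ T, p)| ≤ c * Real.sqrt ((x / ∏ p ∈ T, p : ℕ) : ℝ)) :
    |(-2 : ℝ) ^ T.card * Mf f (x / ∏ p ∈ T, p)| ≤ Real.sqrt x * (c * wt97 T) := by
  rw [abs_mul, abs_pow, abs_neg, abs_two]
  have h2 : (0 : ℝ) ≤ 2 ^ T.card := by positivity
  calc (2 : ℝ) ^ T.card * |Mf f (x / ∏ p ∈ T, p)|
      ≤ 2 ^ T.card * (c * (Real.sqrt x / Real.sqrt ((∏ p ∈ T, p : ℕ) : ℝ))) := by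
        apply mul_le_mul_of_nonneg_left _ h2
        exact h.trans (mul_le_mul_of_nonneg_left (sqrt_div97 x _) hc)
    _ = Real.sqrt x * (c * wt97 T) := by unfold wt97; ring

lemma sum_card97 (R : Finset ℕ) (X : ℕ) (hX : 1 ≤ X) (hR : ∀ p ∈ R, X < p) (c : ℕ → Prop)
    [DecidablePred c] :
    ∑ T ∈ R.powerset, (if c T.card then wt97 T else 0) ≤
      ∑ j ∈ (range (R.card + 1)).filter c, (2 * R.card / Real.sqrt X) ^ j / (j.factorial : ℝ) := by
  rw [sum_powerset, sum_filter]
  apply sum_le_sum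
  intro j _
  have h1 : ∑ T ∈ R.powersetCard j, (if c T.card then wt97 T else 0)
      = if c j then ∑ T ∈ R.powersetCard j, wt97 T else 0 := by
    by_cases hc : c j
    · rw [if_pos hc]
      apply sum_congr rfl
      intro T hT
      rw [(mem_powersetCard.1 hT).2, if_pos hc]
    · rw [if_neg hc]
      apply sum_eq_zero
      intro T hT
      rw [(mem_powersetCard.1 hT).2, if_neg hc]
  rw [h1]
  by_cases hc : c j
  · rw [if_pos hc, if_pos hc]
    refine le_trans (le_of_eq ?_) (powerset_term R X hX hR j)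
    apply sum_congr rfl
    intro T hT
    rw [wt97, (mem_powersetCard.1 hT).2]
  · rw [if_neg hc, if_neg hc]

theorem main_upper (f : ℕ → ℤ) (R : Finset ℕ) (X : ℕ) (hX : 100 ≤ Real.log X)
    (hR : ∀ p ∈ R, X < p ∧ (p : ℝ) ≤ X + X / Real.log X) (μ τ : ℝ)
    (h1 : ∀ y : ℕ, |Mf f y| ≤ μ * Real.sqrt y) (h2 : ∀ y : ℕ, X ≤ y ^ 5 → |Mf f y| ≤ τ * Real.sqrt y)
    (hz : 2 * R.card / Real.sqrt X ≤ Real.log X) (x : ℕ) :
    |mainS f R x| ≤ Real.sqrt x * (μ * Az (2 * R.card / Real.sqrt X) +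
      τ * Real.exp (2 * R.card / Real.sqrt X) + μ / X) := by
  have hX0 : 0 < X := X_pos97 hX
  have hXr : (0 : ℝ) < X := by exact_mod_cast hX0
  have hR1 : ∀ p ∈ R, X < p := fun p hp => (hR p hp).1
  have hR2 : ∀ p ∈ R, (p : ℝ) ≤ X + X / Real.log X := fun p hp => (hR p hp).2
  set L := Real.log X with hL
  have hexpL : Real.exp L = X := Real.exp_log hXr
  have hLpos : 0 < L := by linarith
  set z := 2 * R.card / Real.sqrt X with hzdef
  have hz0 : 0 ≤ z := by positivity
  have hμ : 0 ≤ μ := by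
    have := h1 1
    simp only [Nat.cast_one, Real.sqrt_one, mul_one] at this
    exact (abs_nonneg _).trans this
  have hτ : 0 ≤ τ := by
    have h3 := h2 X (Nat.le_self_pow (by norm_num) X)
    have h4 : 0 ≤ τ * Real.sqrt X := (abs_nonneg _).trans h3
    have h5 : 0 < Real.sqrt X := Real.sqrt_pos.mpr hXr
    exact nonneg_of_mul_nonneg_left h4 h5
  have hsx : 0 ≤ Real.sqrt x := Real.sqrt_nonneg _
  -- the terms
  have hterm : ∀ T ∈ R.powerset, |(-2 : ℝ) ^ T.card * Mf f (x / ∏ p ∈ T, p)| ≤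
      Real.sqrt x * (τ * wt97 T + μ * (if L ^ 2 / 4 < (T.card : ℝ) then wt97 T else 0)
        + μ * (if T.card = Nat.log X x then wt97 T else 0)) := by
    intro T hT
    have hTR := mem_powerset.1 hT
    have hw := wt_nonneg97 T
    have hi1 : 0 ≤ (if L ^ 2 / 4 < (T.card : ℝ) then wt97 T else 0) := by split_ifs <;> linarith
    have hi2 : 0 ≤ (if T.card = Nat.log X x then wt97 T else 0) := by split_ifs <;> linarith
    have hn1 := mul_nonneg hμ hi1
    have hn2 := mul_nonneg hμ hi2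
    have hn3 := mul_nonneg hτ hw
    by_cases hc1 : X ≤ (x / ∏ p ∈ T, p) ^ 5
    · refine (term_le97 f x T τ hτ (h2 _ hc1)).trans ?_
      apply mul_le_mul_of_nonneg_left _ hsx
      linarith
    by_cases hc2 : L ^ 2 / 4 < (T.card : ℝ)
    · refine (term_le97 f x T μ hμ (h1 _)).trans ?_
      apply mul_le_mul_of_nonneg_left _ hsx
      rw [if_pos hc2]
      linarith
    push Not at hc1 hc2
    rcases Nat.eq_zero_or_pos (x / ∏ p ∈ T, p) with h0 | hpos
    · rw [h0, Mf_zero97, mul_zero, abs_zero]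
      exact mul_nonneg hsx (by linarith)
    · have hcard : Nat.log X x = T.card := by
        have hPx : ∏ p ∈ T, p ≤ x := by
          by_contra hlt
          push Not at hlt
          rw [Nat.div_eq_of_lt hlt] at hpos
          exact absurd hpos (lt_irrefl 0)
        apply Nat.log_eq_of_pow_le_of_lt_pow
        · exact (P_lower97 hR1 hTR).trans hPx
        · -- x < X ^ (r+1)
          set P := ∏ p ∈ T, p with hP
          set q := x / P with hq
          have hPpos : 0 < P := lt_of_lt_of_le (pow_pos hX0 _) (P_lower97 hR1 hTR)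
          have hxq : x < P * (q + 1) := by
            have h3 := Nat.div_add_mod x P
            have h4 := Nat.mod_lt x hPpos
            rw [← hq] at h3
            rw [mul_add, mul_one]
            omega
          have hq5 : (q : ℝ) ≤ Real.exp (L / 5) := by
            by_contra hlt
            push Not at hlt
            have h5 : Real.exp (L / 5) ^ 5 ≤ (q : ℝ) ^ 5 :=
              pow_le_pow_left₀ (Real.exp_pos _).le hlt.le 5
            rw [← Real.exp_nat_mul] at h5
            have h6 : ((5 : ℕ) : ℝ) * (L / 5) = L := by push_cast; ring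
            rw [h6, hexpL] at h5
            have h7 : X ≤ q ^ 5 := by exact_mod_cast h5
            omega
          have hP2 := P_upper97 hR2 hTR
          have hP3 : (1 + 1 / L) ^ T.card ≤ Real.exp (L / 4) := by
            refine (one_add_pow_le97 hLpos _).trans (Real.exp_le_exp.mpr ?_)
            rw [div_le_iff₀ hLpos]
            nlinarith
          have hP4 : (P : ℝ) ≤ (X : ℝ) ^ T.card * Real.exp (L / 4) :=
            hP2.trans (mul_le_mul_of_nonneg_left hP3 (by positivity))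
          have hq1 : ((q : ℝ) + 1) ≤ 2 * Real.exp (L / 5) := by
            have : (1 : ℝ) ≤ Real.exp (L / 5) := Real.one_le_exp (by positivity)
            linarith
          have h8 : (x : ℝ) < (X : ℝ) ^ (T.card + 1) := by
            have h9 : (x : ℝ) < P * (q + 1) := by exact_mod_cast hxq
            have h10 : (2 : ℝ) ≤ Real.exp (L / 2) := by
              have := Real.add_one_le_exp (L / 2); linarith
            calc (x : ℝ) < P * (q + 1) := h9
              _ ≤ ((X : ℝ) ^ T.card * Real.exp (L / 4)) * (2 * Real.exp (L / 5)) :=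
                mul_le_mul hP4 hq1 (by positivity) (by positivity)
              _ = (X : ℝ) ^ T.card * (2 * (Real.exp (L / 4) * Real.exp (L / 5))) := by ring
              _ ≤ (X : ℝ) ^ T.card * (Real.exp (L / 2) * Real.exp (L / 2)) := by
                apply mul_le_mul_of_nonneg_left _ (by positivity)
                apply mul_le_mul h10 _ (by positivity) (by positivity)
                rw [← Real.exp_add]
                apply Real.exp_le_exp.mpr
                linarith
              _ = (X : ℝ) ^ (T.card + 1) := by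
                rw [← Real.exp_add, add_halves, hexpL, pow_succ]
          exact_mod_cast h8
      refine (term_le97 f x T μ hμ (h1 _)).trans ?_
      apply mul_le_mul_of_nonneg_left _ hsx
      rw [if_pos hcard.symm]
      linarith
  -- sums
  have hS1 : ∑ T ∈ R.powerset, wt97 T ≤ Real.exp z := powerset_exp R X hX0 hR1
  have hS2 : ∑ T ∈ R.powerset, (if L ^ 2 / 4 < (T.card : ℝ) then wt97 T else 0) ≤ 1 / X := by
    refine (sum_card97 R X hX0 hR1 (fun j => L ^ 2 / 4 < (j : ℝ))).trans ?_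
    refine (tail (L := L) (by linarith) hz0 hz _ (fun r hr => (mem_filter.1 hr).2)).trans ?_
    rw [Real.exp_neg, hexpL, one_div]
  have hS3 : ∑ T ∈ R.powerset, (if T.card = Nat.log X x then wt97 T else 0) ≤ Az z := by
    refine (sum_card97 R X hX0 hR1 (fun j => j = Nat.log X x)).trans ?_
    refine le_trans ?_ (Az_max hz0 (Nat.log X x))
    rw [sum_filter, sum_ite_eq']
    split_ifs
    · exact le_refl _
    · positivity
  unfold mainS
  calc |∑ T ∈ R.powerset, (-2 : ℝ) ^ T.card * Mf f (x / ∏ p ∈ T, p)|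
      ≤ ∑ T ∈ R.powerset, |(-2 : ℝ) ^ T.card * Mf f (x / ∏ p ∈ T, p)| := abs_sum_le_sum_abs _ _
    _ ≤ ∑ T ∈ R.powerset, Real.sqrt x * (τ * wt97 T
        + μ * (if L ^ 2 / 4 < (T.card : ℝ) then wt97 T else 0)
        + μ * (if T.card = Nat.log X x then wt97 T else 0)) := sum_le_sum hterm
    _ = Real.sqrt x * (τ * ∑ T ∈ R.powerset, wt97 T
        + μ * ∑ T ∈ R.powerset, (if L ^ 2 / 4 < (T.card : ℝ) then wt97 T else 0)
        + μ * ∑ T ∈ R.powerset, (if T.card = Nat.log X x then wt97 T else 0)) := by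
        rw [← mul_sum, sum_add_distrib, sum_add_distrib, ← mul_sum, ← mul_sum, ← mul_sum]
    _ ≤ Real.sqrt x * (τ * Real.exp z + μ * (1 / X) + μ * Az z) := by
        apply mul_le_mul_of_nonneg_left _ hsx
        exact add_le_add (add_le_add (mul_le_mul_of_nonneg_left hS1 hτ)
          (mul_le_mul_of_nonneg_left hS2 hμ)) (mul_le_mul_of_nonneg_left hS3 hμ)
    _ = Real.sqrt x * (μ * Az z + τ * Real.exp z + μ / X) := by ring

theorem main_lower (f : ℕ → ℤ) (R : Finset ℕ) (X : ℕ) (hX : 100 ≤ Real.log X)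
    (hR : ∀ p ∈ R, X < p ∧ (p : ℝ) ≤ X + X / Real.log X) (τ : ℝ) (hτ : 0 ≤ τ)
    (h2 : ∀ y : ℕ, X ≤ y ^ 5 → |Mf f y| ≤ τ * Real.sqrt y)
    (N r : ℕ) (hN : 1 ≤ N) (hr : 1 ≤ r) (hrN : 2 * r * N ≤ Real.log X) :
    ∃ x : ℕ, X ^ r ≤ x ∧ x ≤ X ^ (r + 1) ∧
      Real.sqrt x ≤ Real.sqrt N * Real.sqrt X ^ r * (1 + r / Real.log X) ∧
      |mainS f R x - (-2 : ℝ) ^ r * (R.card.choose r) * Mf f N| ≤
        τ * Real.exp (2 * R.card / Real.sqrt X) * Real.sqrt x := by
  have hX0 : 0 < X := X_pos97 hX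
  have hXr : (0 : ℝ) < X := by exact_mod_cast hX0
  have hR1 : ∀ p ∈ R, X < p := fun p hp => (hR p hp).1
  have hR2 : ∀ p ∈ R, (p : ℝ) ≤ X + X / Real.log X := fun p hp => (hR p hp).2
  set L := Real.log X with hL
  have hexpL : Real.exp L = X := Real.exp_log hXr
  have hLpos : 0 < L := by linarith
  have hNr : (1 : ℝ) ≤ N := by exact_mod_cast hN
  have hrr : (1 : ℝ) ≤ r := by exact_mod_cast hr
  have hLX : L + 1 ≤ X := by rw [← hexpL]; exact Real.add_one_le_exp L
  -- (1+1/L)^j ≤ 1 + 2r/L for j ≤ r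
  have hrL2 : 2 * r ≤ L := by
    have : (2 : ℝ) * r * 1 ≤ 2 * r * N := mul_le_mul_of_nonneg_left hNr (by positivity)
    linarith
  have hrL : (r : ℝ) / L ≤ 1 / 2 := by rw [div_le_iff₀ hLpos]; linarith
  have hpow : ∀ j : ℕ, j ≤ r → (1 + 1 / L) ^ j ≤ 1 + 2 * (r / L) := by
    intro j hj
    have h3 : (1 + 1 / L) ^ j ≤ (1 + 1 / L) ^ r :=
      pow_le_pow_right₀ (by have : 0 ≤ 1 / L := by positivity
                            linarith) hj
    have h4 := one_add_pow_le97 hLpos r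
    have h5 : (0 : ℝ) ≤ r / L := by positivity
    have h6 := Real.abs_exp_sub_one_le (x := (r : ℝ) / L) (by rw [abs_of_nonneg h5]; linarith)
    rw [abs_of_nonneg h5] at h6
    have h7 := (abs_le.mp h6).2
    linarith
  have h2rL : 2 * ((r : ℝ) / L) ≤ 1 / N := by
    rw [le_div_iff₀ (by linarith)]
    have : 2 * ((r : ℝ) / L) * N = (2 * r * N) / L := by ring
    rw [this, div_le_one hLpos]
    exact hrN
  set Yr : ℝ := (X : ℝ) ^ r * (1 + 1 / L) ^ r with hYr
  have hYr0 : 0 ≤ Yr := by positivity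
  set Y := ⌊Yr⌋₊ with hY
  have hYle : (Y : ℝ) ≤ Yr := Nat.floor_le hYr0
  have h1L : 1 ≤ (1 + 1 / L) ^ r := one_le_pow₀ (by
    have : 0 ≤ 1 / L := by positivity
    linarith)
  have hXY : X ^ r ≤ Y := by
    rw [hY]
    apply Nat.le_floor
    push_cast
    rw [hYr]
    exact le_mul_of_one_le_right (by positivity) h1L
  have hYr2 : Yr ≤ (X : ℝ) ^ r * (1 + 2 * (r / L)) :=
    mul_le_mul_of_nonneg_left (hpow r le_rfl) (by positivity)
  have hYr3 : Yr ≤ (X : ℝ) ^ r * (1 + 1 / N) :=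
    hYr2.trans (mul_le_mul_of_nonneg_left (by linarith) (by positivity))
  have hNY : (N : ℝ) * Y ≤ (N + 1) * (X : ℝ) ^ r := by
    calc (N : ℝ) * Y ≤ N * ((X : ℝ) ^ r * (1 + 1 / N)) :=
          mul_le_mul_of_nonneg_left (hYle.trans hYr3) (by positivity)
      _ = (N + 1) * (X : ℝ) ^ r := by field_simp
  have hNYn : N * Y ≤ (N + 1) * X ^ r := by exact_mod_cast hNY
  have h2N : 2 * N ≤ X := by
    have h3 : (2 : ℝ) * N ≤ X := by
      have : (2 : ℝ) * 1 * N ≤ 2 * r * N :=
        mul_le_mul_of_nonneg_right (by linarith) (by positivity)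
      linarith
    exact_mod_cast h3
  have hxle : N * Y ≤ X ^ (r + 1) := by
    calc N * Y ≤ (N + 1) * X ^ r := hNYn
      _ ≤ X * X ^ r := Nat.mul_le_mul_right _ (by omega)
      _ = X ^ (r + 1) := by rw [pow_succ, mul_comm]
  have hxge : X ^ r ≤ N * Y := hXY.trans (Nat.le_mul_of_pos_left Y hN)
  refine ⟨N * Y, hxge, hxle, ?_, ?_⟩
  · -- the square root
    have h3 : ((N * Y : ℕ) : ℝ) ≤ N * ((X : ℝ) ^ r * (1 + r / L) ^ 2) := by
      push_cast
      apply mul_le_mul_of_nonneg_left _ (by positivity)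
      refine (hYle.trans hYr2).trans (mul_le_mul_of_nonneg_left ?_ (by positivity))
      nlinarith [sq_nonneg ((r : ℝ) / L)]
    refine (Real.sqrt_le_sqrt h3).trans (le_of_eq ?_)
    rw [Real.sqrt_mul (by positivity), Real.sqrt_mul (by positivity), Real.sqrt_sq (by positivity),
      mul_assoc]
    congr 2
    rw [Real.sqrt_eq_iff_mul_self_eq (by positivity) (by positivity), ← mul_pow,
      Real.mul_self_sqrt hXr.le]
  · -- the main estimate
    set x := N * Y with hx
    have hterm : ∀ T ∈ R.powerset, |(-2 : ℝ) ^ T.card * Mf f (x / ∏ p ∈ T, p)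
        - (if T.card = r then (-2 : ℝ) ^ r * Mf f N else 0)| ≤ Real.sqrt x * (τ * wt97 T) := by
      intro T hT
      have hTR := mem_powerset.1 hT
      have hw := wt_nonneg97 T
      have hnn : 0 ≤ Real.sqrt x * (τ * wt97 T) := by positivity
      have hPpos : 0 < ∏ p ∈ T, p := lt_of_lt_of_le (pow_pos hX0 _) (P_lower97 hR1 hTR)
      rcases lt_trichotomy T.card r with hlt | heq | hgt
      · -- small sets
        rw [if_neg hlt.ne, sub_zero]
        apply term_le97 f x T τ hτ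
        apply h2
        -- P ≤ 2 X^(r-1)
        have hP1 : ((∏ p ∈ T, p : ℕ) : ℝ) ≤ 2 * (X : ℝ) ^ (r - 1) := by
          refine (P_upper97 hR2 hTR).trans ?_
          have h3 : (X : ℝ) ^ T.card ≤ (X : ℝ) ^ (r - 1) :=
            pow_le_pow_right₀ (by exact_mod_cast hX0) (by omega)
          have h4 : (1 + 1 / L) ^ T.card ≤ 2 := (hpow _ hlt.le).trans (by linarith)
          calc (X : ℝ) ^ T.card * (1 + 1 / L) ^ T.card ≤ (X : ℝ) ^ (r - 1) * 2 :=
                mul_le_mul h3 h4 (by positivity) (by positivity)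
            _ = 2 * (X : ℝ) ^ (r - 1) := by ring
        have hP2 : ∏ p ∈ T, p ≤ 2 * X ^ (r - 1) := by exact_mod_cast hP1
        have hdiv : X / 2 ≤ x / ∏ p ∈ T, p := by
          rw [Nat.le_div_iff_mul_le hPpos]
          calc X / 2 * ∏ p ∈ T, p ≤ X / 2 * (2 * X ^ (r - 1)) := Nat.mul_le_mul_left _ hP2
            _ = (X / 2 * 2) * X ^ (r - 1) := by ring
            _ ≤ X * X ^ (r - 1) := Nat.mul_le_mul_right _ (Nat.div_mul_le_self X 2)
            _ = X ^ r := by rw [← pow_succ']; congr 1; omega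
            _ ≤ x := hxge
        have hX8 : 8 ≤ X := by
          have : (8 : ℝ) ≤ X := by linarith
          exact_mod_cast this
        calc X ≤ (X / 2) ^ 2 := by
              have h5 : 4 ≤ X / 2 := by omega
              have h6 : X ≤ 2 * (X / 2) + 1 := by omega
              nlinarith
          _ ≤ (X / 2) ^ 5 := Nat.pow_le_pow_right (by omega) (by norm_num)
          _ ≤ (x / ∏ p ∈ T, p) ^ 5 := Nat.pow_le_pow_left hdiv 5
      · -- card = r
        have hne : T.Nonempty := by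
          rw [← card_pos]; omega
        have hdiv : x / ∏ p ∈ T, p = N := by
          apply Nat.div_eq_of_lt_le
          · -- N * P ≤ x
            have hPY : ∏ p ∈ T, p ≤ Y := by
              rw [hY]
              apply Nat.le_floor
              have := P_upper97 hR2 hTR
              rw [heq] at this
              exact this
            exact Nat.mul_le_mul_left N hPY
          · -- x < (N+1) P
            have hPlt := P_lower_strict97 hX0 hR1 hTR hne
            rw [heq] at hPlt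
            calc x ≤ (N + 1) * X ^ r := hNYn
              _ < (N + 1) * ∏ p ∈ T, p := Nat.mul_lt_mul_of_pos_left hPlt (Nat.succ_pos N)
        rw [if_pos heq, hdiv, heq, sub_self, abs_zero]
        exact hnn
      · -- large sets
        have hdiv : x / ∏ p ∈ T, p = 0 := by
          apply Nat.div_eq_of_lt
          have hne : T.Nonempty := by
            rw [← card_pos]; omega
          calc x ≤ X ^ (r + 1) := hxle
            _ ≤ X ^ T.card := Nat.pow_le_pow_right hX0 hgt
            _ < ∏ p ∈ T, p := P_lower_strict97 hX0 hR1 hTR hne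
        rw [if_neg hgt.ne', hdiv, Mf_zero97, mul_zero, sub_zero, abs_zero]
        exact hnn
    have hsum : ∑ T ∈ R.powerset, (if T.card = r then (-2 : ℝ) ^ r * Mf f N else 0)
        = (-2 : ℝ) ^ r * (R.card.choose r) * Mf f N := by
      rw [← sum_filter, sum_const, nsmul_eq_mul]
      have h3 : (R.powerset.filter (fun T => T.card = r)).card = R.card.choose r := by
        rw [← card_powersetCard, ← powersetCard_eq_filter]
      rw [h3]; ring
    rw [← hsum]
    unfold mainS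
    rw [← sum_sub_distrib]
    calc |∑ T ∈ R.powerset, ((-2 : ℝ) ^ T.card * Mf f (x / ∏ p ∈ T, p)
        - (if T.card = r then (-2 : ℝ) ^ r * Mf f N else 0))|
        ≤ ∑ T ∈ R.powerset, |(-2 : ℝ) ^ T.card * Mf f (x / ∏ p ∈ T, p)
        - (if T.card = r then (-2 : ℝ) ^ r * Mf f N else 0)| := abs_sum_le_sum_abs _ _
      _ ≤ ∑ T ∈ R.powerset, Real.sqrt x * (τ * wt97 T) := sum_le_sum hterm
      _ = Real.sqrt x * (τ * ∑ T ∈ R.powerset, wt97 T) := by rw [mul_sum, mul_sum]
      _ ≤ Real.sqrt x * (τ * Real.exp (2 * R.card / Real.sqrt X)) := by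
          apply mul_le_mul_of_nonneg_left _ (Real.sqrt_nonneg _)
          exact mul_le_mul_of_nonneg_left (powerset_exp R X hX0 hR1) hτ
      _ = τ * Real.exp (2 * R.card / Real.sqrt X) * Real.sqrt x := by ring

end Pool.Agent.Helper66.MB
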